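import Pool.Agent.R598.FM.Swin

/-!
# Homeomorphisms of the Cantor cube do not act on totally bounded spaces: the main theorem
-/

set_option autoImplicit false

namespace Pool.Agent.R598.FM.Sw

open Topology

/-- The Cantor cube. -/
abbrev C2 : Type := ℕ → Bool

/-- The cone of the points that agree with `q` below `M`. -/
def Cn (M : ℕ) (q : C2) : Set C2 := {x | ∀ k < M, x k = q k}

theorem cn_clopen (M : ℕ) (q : C2) : IsClopen (Cn M q) := by
  have h1 : Cn M q = ⋂ k ∈ Finset.range M, {y : C2 | y k = q k} := by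
    ext y
    simp [Cn]
  rw [h1]
  refine isClopen_biInter_finset fun k _ => ?_
  exact (isClopen_discrete {q k}).preimage (continuous_apply k)

theorem exists_cn {O : Set C2} (hO : IsOpen O) {p : C2} (hp : p ∈ O) : ∃ M, Cn M p ⊆ O := by
  obtain ⟨s, u, hu, hsub⟩ := isOpen_pi_iff.1 hO p hp
  obtain ⟨M, hM⟩ := s.bddAbove
  refine ⟨M + 1, fun x hx => hsub fun i hi => ?_⟩
  rw [hx i (Nat.lt_succ_of_le (hM hi))]
  exact (hu i hi).2

/-- The embedding of the cube onto a cone. -/
def sg (M : ℕ) (q : C2) (x : C2) : C2 := fun j => if j < M then q j else x (j - M)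

theorem sg_range (M : ℕ) (q : C2) : Set.range (sg M q) = Cn M q := by
  ext y
  constructor
  · rintro ⟨x, rfl⟩ k hk
    exact if_pos hk
  · intro hy
    refine ⟨fun j => y (j + M), funext fun j => ?_⟩
    unfold sg
    split_ifs with h
    · exact (hy j h).symm
    · change y (j - M + M) = y j
      rw [Nat.sub_add_cancel (by omega)]

theorem sg_cont (M : ℕ) (q : C2) : Continuous (sg M q) := by
  refine continuous_pi fun j => ?_
  unfold sg
  split_ifs with h
  · exact continuous_const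
  · exact continuous_apply _

theorem sg_open (M : ℕ) (q : C2) : IsOpenEmbedding (sg M q) := by
  have hleft : ∀ x, (fun j => sg M q x (j + M)) = x := by
    intro x
    funext j
    unfold sg
    rw [if_neg (by omega), Nat.add_sub_cancel]
  refine IsOpenEmbedding.of_continuous_injective_isOpenMap (sg_cont M q) ?_ ?_
  · intro x y h
    rw [← hleft x, ← hleft y, h]
  · intro O hO
    have h1 : sg M q '' O = Cn M q ∩ (fun (y : C2) j => y (j + M)) ⁻¹' O := by
      ext y
      constructor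
      · rintro ⟨x, hx, rfl⟩
        refine ⟨?_, ?_⟩
        · rw [← sg_range]
          exact ⟨x, rfl⟩
        · change (fun j => sg M q x (j + M)) ∈ O
          rwa [hleft]
      · rintro ⟨hy, hyO⟩
        rw [← sg_range] at hy
        obtain ⟨x, rfl⟩ := hy
        change (fun j => sg M q x (j + M)) ∈ O at hyO
        rw [hleft] at hyO
        exact ⟨x, hyO, rfl⟩
    rw [h1]
    refine (cn_clopen M q).isOpen.inter (hO.preimage ?_)
    exact continuous_pi fun j => continuous_apply _

theorem sg_iter {M : ℕ} (hM : 1 ≤ M) (q : C2) (i : ℕ) (w w' : C2) :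
    ∀ j < i, (sg M q)^[i] w j = (sg M q)^[i] w' j := by
  induction i with
  | zero =>
    intro j hj
    omega
  | succ i ih =>
    intro j hj
    rw [Function.iterate_succ_apply', Function.iterate_succ_apply']
    change (if j < M then q j else _) = (if j < M then q j else _)
    by_cases h : j < M
    · rw [if_pos h, if_pos h]
    · rw [if_neg h, if_neg h]
      exact ih _ (by omega)

theorem sg_fix {M : ℕ} (hM : 1 ≤ M) (q : C2) (z : C2) :
    (∀ i, z ∈ Set.range (sg M q)^[i]) ↔ z = fun j => q (j % M) := by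
  have h0 : sg M q (fun j => q (j % M)) = fun j => q (j % M) := by
    funext j
    unfold sg
    split_ifs with h
    · rw [Nat.mod_eq_of_lt h]
    · have h1 : (j - M) % M = j % M := by
        conv_rhs => rw [← Nat.sub_add_cancel (show M ≤ j by omega), Nat.add_mod_right]
      change q ((j - M) % M) = q (j % M)
      rw [h1]
  have h1 : ∀ i, (sg M q)^[i] (fun j => q (j % M)) = fun j => q (j % M) := by
    intro i
    induction i with
    | zero => rfl
    | succ i ih => rw [Function.iterate_succ_apply, h0, ih]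
  constructor
  · intro h
    funext j
    obtain ⟨w, hw⟩ := h (j + 1)
    have h2 := sg_iter hM q (j + 1) w (fun j => q (j % M)) j (Nat.lt_succ_self j)
    rw [hw, h1] at h2
    exact h2
  · rintro rfl i
    exact ⟨_, h1 i⟩

/-- The homeomorphisms that are the identity on a cone. -/
theorem swindle' {M : ℕ} (hM : 1 ≤ M) (q : C2) (u : C2 ≃ₜ C2) (hu : ∀ y ∈ Cn M q, u y = y) :
    ∃ h : C2 ≃ₜ C2, ∀ n : ℕ, 1 ≤ n → ∃ P : C2 ≃ₜ C2, u = P * h ^ n * P⁻¹ * (h ^ n)⁻¹ := by
  refine swindle (sg_open M q) ?_ (sg_fix hM q) u fun y hy => hu y ?_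
  · rw [sg_range]
    exact (cn_clopen M q).isClosed
  · rwa [sg_range] at hy

/-! ### The decomposition -/

open Classical in
/-- The swap of `V` and its image. -/
noncomputable def swf (w : C2 ≃ₜ C2) (V : Set C2) (x : C2) : C2 :=
  if x ∈ V then w x else if w.symm x ∈ V then w.symm x else x

theorem swf_swf {w : C2 ≃ₜ C2} {V : Set C2} (hV : ∀ x ∈ V, w x ∉ V) (x : C2) :
    swf w V (swf w V x) = x := by
  unfold swf
  by_cases h1 : x ∈ V
  · rw [if_pos h1, if_neg (hV x h1), Homeomorph.symm_apply_apply, if_pos h1]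
  · rw [if_neg h1]
    by_cases h2 : w.symm x ∈ V
    · rw [if_pos h2, if_pos h2, Homeomorph.apply_symm_apply]
    · rw [if_neg h2, if_neg h1, if_neg h2]

theorem swf_cont {w : C2 ≃ₜ C2} {V : Set C2} (hV : IsClopen V) : Continuous (swf w V) := by
  classical
  unfold swf
  refine Continuous.if (fun a ha => ?_) w.continuous (Continuous.if (fun a ha => ?_)
    w.symm.continuous continuous_id)
  · have h1 : frontier {x | x ∈ V} = ∅ := hV.frontier_eq
    rw [h1] at ha
    exact ha.elim
  · have h2 : IsClopen {x | w.symm x ∈ V} := hV.preimage w.symm.continuous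
    rw [h2.frontier_eq] at ha
    exact ha.elim

/-- The swap of `V` and its image. -/
noncomputable def swh (w : C2 ≃ₜ C2) (V : Set C2) (hV : ∀ x ∈ V, w x ∉ V) (hc : IsClopen V) :
    C2 ≃ₜ C2 where
  toFun := swf w V
  invFun := swf w V
  left_inv := swf_swf hV
  right_inv := swf_swf hV
  continuous_toFun := swf_cont hc
  continuous_invFun := swf_cont hc

theorem decomp (w : C2 ≃ₜ C2) (hw : w ≠ 1) : ∃ (a b : C2 ≃ₜ C2) (M : ℕ) (p q : C2), 1 ≤ M ∧
    w = a * b ∧ (∀ y ∈ Cn M q, a y = y) ∧ ∀ y ∈ Cn M p, b y = y := by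
  obtain ⟨p, hp⟩ : ∃ p, w p ≠ p := by
    by_contra hc
    push Not at hc
    exact hw (Homeomorph.ext hc)
  obtain ⟨i₀, hi₀⟩ : ∃ i, w p i ≠ p i := Function.ne_iff.1 hp
  obtain ⟨M', hM'⟩ := exists_cn ((cn_clopen (i₀ + 1) (w p)).isOpen.preimage w.continuous)
    (p := p) fun k _ => rfl
  set M := max M' (i₀ + 2) with hM
  have hM1 : ∀ x ∈ Cn M p, w x i₀ = w p i₀ := by
    intro x hx
    have h1 : x ∈ Cn M' p := fun k hk => hx k (lt_of_lt_of_le hk (le_max_left _ _))
    exact hM' h1 i₀ (Nat.lt_succ_self _)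
  have hMi : i₀ + 2 ≤ M := le_max_right _ _
  have hV : ∀ x ∈ Cn M p, w x ∉ Cn M p := by
    intro x hx hx'
    exact hi₀ ((hM1 x hx).symm.trans (hx' i₀ (by omega)))
  refine ⟨swh w (Cn M p) hV (cn_clopen M p), swh w (Cn M p) hV (cn_clopen M p) * w, M, p,
    Function.update p (M - 1) (!p (M - 1)), by omega, ?_, fun y hy => ?_, fun y hy => ?_⟩
  · refine Homeomorph.ext fun x => ?_
    exact (swf_swf hV (w x)).symm
  · change swf w (Cn M p) y = y
    unfold swf
    have h1 : y ∉ Cn M p := by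
      intro h
      have h2 := h (M - 1) (by omega)
      have h3 := hy (M - 1) (by omega)
      rw [Function.update_self, h2] at h3
      cases h4 : p (M - 1) <;> rw [h4] at h3 <;> cases h3
    have h2 : w.symm y ∉ Cn M p := by
      intro h
      have h2 := hM1 _ h
      rw [Homeomorph.apply_symm_apply] at h2
      have h3 := hy i₀ (by omega)
      rw [Function.update_of_ne (by omega)] at h3
      exact hi₀ (h2.symm.trans h3)
    rw [if_neg h1, if_neg h2]
  · change swf w (Cn M p) (w y) = y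
    unfold swf
    rw [if_neg (hV y hy), Homeomorph.symm_apply_apply, if_pos hy]

/-! ### Isometric actions on totally bounded spaces -/

section Act

variable {α : Type*} {ρ : α → α → ℝ} {ac : (C2 ≃ₜ C2) → α → α}
  (hone : ∀ x, ac 1 x = x) (hmul : ∀ u v x, ac (u * v) x = ac u (ac v x))
  (h0 : ∀ x, ρ x x = 0) (hsymm : ∀ x y, ρ x y = ρ y x) (htri : ∀ x y z, ρ x z ≤ ρ x y + ρ y z)
  (hinv : ∀ u x y, ρ (ac u x) (ac u y) = ρ x y)
  (htb : ∀ ε > 0, ∃ s : Set α, s.Finite ∧ ∀ y, ∃ x ∈ s, ρ x y < ε)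

include hmul hsymm htri hinv htb in
theorem pow_small (h : C2 ≃ₜ C2) {ε : ℝ} (hε : 0 < ε) :
    ∃ n : ℕ, 1 ≤ n ∧ ∀ x, ρ x (ac (h ^ n) x) < ε := by
  obtain ⟨s, hs, hnet⟩ := htb (ε / 4) (by linarith)
  have hfin : Finite s := hs.to_subtype
  choose nt hnt hnt' using hnet
  obtain ⟨i, j, hij, he⟩ := Finite.exists_ne_map_eq_of_infinite
    (fun (i : ℕ) (y : s) => (⟨nt (ac (h ^ i) y.1), hnt _⟩ : s))
  have key : ∀ i j : ℕ, i < j → (∀ y : s, nt (ac (h ^ i) y.1) = nt (ac (h ^ j) y.1)) →
      ∃ n : ℕ, 1 ≤ n ∧ ∀ x, ρ x (ac (h ^ n) x) < ε := by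
    intro i j hij he
    refine ⟨j - i, by omega, fun x => ?_⟩
    have h1 : ∀ y : s, ρ y.1 (ac (h ^ (j - i)) y.1) < ε / 4 + ε / 4 := by
      intro y
      have h2 : ρ (ac (h ^ i) y.1) (ac (h ^ i) (ac (h ^ (j - i)) y.1)) < ε / 4 + ε / 4 := by
        rw [← hmul, ← pow_add, show i + (j - i) = j by omega]
        have h3 := hnt' (ac (h ^ i) y.1)
        have h4 := hnt' (ac (h ^ j) y.1)
        rw [← he y] at h4
        have h5 := htri (ac (h ^ i) y.1) (nt (ac (h ^ i) y.1)) (ac (h ^ j) y.1)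
        rw [hsymm (ac (h ^ i) y.1) (nt (ac (h ^ i) y.1))] at h5
        linarith
      rwa [hinv] at h2
    have h2 := hnt' x
    have h3 := h1 ⟨nt x, hnt x⟩
    have h4 : ρ (ac (h ^ (j - i)) (nt x)) (ac (h ^ (j - i)) x) < ε / 4 := by
      rw [hinv]
      exact h2
    have h5 := htri x (nt x) (ac (h ^ (j - i)) x)
    have h6 := htri (nt x) (ac (h ^ (j - i)) (nt x)) (ac (h ^ (j - i)) x)
    rw [hsymm x (nt x)] at h5
    change ρ (nt x) (ac (h ^ (j - i)) (nt x)) < _ at h3
    linarith
  have he' : ∀ y : s, nt (ac (h ^ i) y.1) = nt (ac (h ^ j) y.1) := fun y =>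
    congrArg Subtype.val (congrFun he y)
  rcases Nat.lt_or_gt_of_ne hij with h1 | h1
  · exact key i j h1 he'
  · exact key j i h1 fun y => (he' y).symm

include hone hmul h0 hsymm htri hinv htb in
/-- Every isometric action of the group of the homeomorphisms of the Cantor cube on a totally
bounded space is trivial. -/
theorem triv (u : C2 ≃ₜ C2) (x : α) : ρ x (ac u x) = 0 := by
  have hpos : ∀ x y, 0 ≤ ρ x y := by
    intro x y
    have h1 := htri x y x
    rw [h0, hsymm y x] at h1
    linarith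
  have key : ∀ (M : ℕ) (q : C2) (u : C2 ≃ₜ C2), 1 ≤ M → (∀ y ∈ Cn M q, u y = y) →
      ∀ x, ρ x (ac u x) = 0 := by
    intro M q u hM hu x
    obtain ⟨h, hh⟩ := swindle' hM q u hu
    refine le_antisymm (le_of_forall_pos_le_add fun ε hε => ?_) (hpos _ _)
    rw [zero_add]
    obtain ⟨n, hn, hsm⟩ := pow_small hmul hsymm htri hinv htb h (ε := ε / 2) (by linarith)
    obtain ⟨P, hP⟩ := hh n hn
    have hcancel : ∀ (v : C2 ≃ₜ C2) y, ac v (ac v⁻¹ y) = y := by
      intro v y
      rw [← hmul, mul_inv_cancel, hone]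
    have h1 : ρ x (ac (h ^ n)⁻¹ x) < ε / 2 := by
      have h2 := hsm (ac (h ^ n)⁻¹ x)
      rwa [hcancel, hsymm] at h2
    have h2 : ρ (ac (h ^ n)⁻¹ x) (ac u x) < ε / 2 := by
      have h3 := hsm (ac P⁻¹ (ac (h ^ n)⁻¹ x))
      rw [← hinv P, hcancel] at h3
      rw [hP, hmul, hmul, hmul]
      exact h3
    have h3 := htri x (ac (h ^ n)⁻¹ x) (ac u x)
    linarith
  by_cases hu : u = 1
  · rw [hu, hone, h0]
  · obtain ⟨a, b, M, p, q, hM, hab, ha, hb⟩ := decomp u hu
    have h1 := key M p b hM hb x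
    have h2 := key M q a hM ha (ac b x)
    have h3 := htri x (ac b x) (ac a (ac b x))
    rw [hab, hmul]
    refine le_antisymm ?_ (hpos _ _)
    linarith

end Act

end Pool.Agent.R598.FM.Sw
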