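import Pool.Agent.R598.FM.CbDefs
import Pool.Agent.R598.FM.Swin2

/-!
# The permutation model of the Cantor cubes: compact metrizable spaces are separable
-/

set_option autoImplicit false

namespace Pool.Agent.R598.FM

open U FMS

section

variable {A : Type}

theorem act_real (g : Equiv.Perm A) (r : ℝ) : act g (real r : U A) = real r := by
  unfold real
  rw [act_mk]
  congr 1
  funext q
  exact act_nat g _

theorem real_inj {r r' : ℝ} (h : (real r : U A) = real r') : r = r' := by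
  have key : ∀ r r' : ℝ, (real r : U A) = real r' → r' ≤ r := by
    intro r r' h
    by_contra hc
    rw [not_le] at hc
    obtain ⟨q, h1, h2⟩ := exists_rat_btwn hc
    have h3 : (nat (Encodable.encode q) : U A) ∈ (real r' : U A) := mem_mk.2 ⟨⟨q, h2⟩, rfl⟩
    rw [← h] at h3
    obtain ⟨⟨q', h4⟩, h5⟩ := mem_mk.1 h3
    have h6 := Encodable.encode_injective (nat_inj h5)
    subst h6
    exact absurd h4 (not_lt.2 h1.le)
  exact le_antisymm (key _ _ h.symm) (key _ _ h)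

end

namespace Cb

open Sw

/-- The homeomorphism acts on the copy `n`. -/
def em (n : ℕ) (u : C2 ≃ₜ C2) : Equiv.Perm At where
  toFun a := if a.1 = n then (n, u a.2) else a
  invFun a := if a.1 = n then (n, u.symm a.2) else a
  left_inv := by
    rintro ⟨m, f⟩
    by_cases h : m = n
    · subst h
      simp
    · simp [h]
  right_inv := by
    rintro ⟨m, f⟩
    by_cases h : m = n
    · subst h
      simp
    · simp [h]

theorem em_pos (n : ℕ) (u : C2 ≃ₜ C2) (f : C2) : em n u (n, f) = (n, u f) := if_pos rfl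

theorem em_neg {n m : ℕ} (h : m ≠ n) (u : C2 ≃ₜ C2) (f : C2) : em n u (m, f) = (m, f) := if_neg h

theorem em_mul (n : ℕ) (u v : C2 ≃ₜ C2) : em n (u * v) = em n u * em n v := by
  ext1 ⟨m, f⟩
  by_cases h : m = n
  · subst h
    rw [Equiv.Perm.mul_apply, em_pos, em_pos, em_pos]
    rfl
  · rw [Equiv.Perm.mul_apply, em_neg h, em_neg h, em_neg h]

theorem em_one (n : ℕ) : em n 1 = 1 := by
  ext1 ⟨m, f⟩
  by_cases h : m = n
  · subst h
    rw [em_pos]
    rfl
  · rw [em_neg h]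
    rfl

/-- The group that fixes the first `k` copies. -/
def Kk (k : ℕ) : Subgroup (Equiv.Perm At) := fixG {a | a.1 < k}

theorem Kk_mem (k : ℕ) : Kk k ∈ sys.F := ⟨_, ⟨Finset.range k, fun _ ha => Finset.mem_range.2 ha⟩, rfl⟩

theorem em_mem {n k : ℕ} (h : k ≤ n) (u : C2 ≃ₜ C2) : em n u ∈ Kk k := by
  classical
  refine ⟨⟨fun m => if m = n then u else 1, fun m f => ?_⟩, ?_⟩
  · by_cases hm : m = n
    · subst hm
      rw [em_pos]
      beta_reduce
      rw [if_pos rfl]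
    · rw [em_neg hm]
      beta_reduce
      rw [if_neg hm]
      rfl
  · rintro ⟨m, f⟩ hm
    have hm' : m < k := hm
    exact em_neg (by omega) u f

theorem exists_Kk {K : Subgroup (Equiv.Perm At)} (hK : K ∈ sys.F) : ∃ k, ∀ m, k ≤ m → Kk m ≤ K := by
  obtain ⟨E, ⟨s, hs⟩, rfl⟩ := hK
  obtain ⟨k, hk⟩ := s.bddAbove
  refine ⟨k + 1, fun m hm φ hφ => ⟨hφ.1, fun a ha => hφ.2 a ?_⟩⟩
  have h1 := hk (hs a ha)
  change a.1 < m
  omega

/-- The permutation that acts by `h` on the copies with the indices at least `j`. -/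
def gp (h : ℕ → (C2 ≃ₜ C2)) (j : ℕ) : Equiv.Perm At where
  toFun a := if a.1 < j then a else (a.1, h a.1 a.2)
  invFun a := if a.1 < j then a else (a.1, (h a.1).symm a.2)
  left_inv := by
    rintro ⟨m, f⟩
    by_cases h : m < j
    · simp [h]
    · simp [h]
  right_inv := by
    rintro ⟨m, f⟩
    by_cases h : m < j
    · simp [h]
    · simp [h]

theorem gp_neg (h : ℕ → (C2 ≃ₜ C2)) {j m : ℕ} (hm : m < j) (f : C2) :
    gp h j (m, f) = (m, f) := if_pos hm

theorem gp_pos (h : ℕ → (C2 ≃ₜ C2)) {j m : ℕ} (hm : ¬ m < j) (f : C2) :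
    gp h j (m, f) = (m, h m f) := if_neg hm

theorem gp_mem (h : ℕ → (C2 ≃ₜ C2)) (j : ℕ) : gp h j ∈ Kk j := by
  classical
  refine ⟨⟨fun m => if m < j then 1 else h m, fun m f => ?_⟩, ?_⟩
  · by_cases hm : m < j
    · rw [gp_neg h hm]
      beta_reduce
      rw [if_pos hm]
      rfl
    · rw [gp_pos h hm]
      beta_reduce
      rw [if_neg hm]
  · rintro ⟨m, f⟩ hm
    exact gp_neg h hm f

theorem gp_succ (h : ℕ → (C2 ≃ₜ C2)) (j : ℕ) : gp h j = em j (h j) * gp h (j + 1) := by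
  ext1 ⟨m, f⟩
  rw [Equiv.Perm.mul_apply]
  by_cases h1 : m < j
  · rw [gp_neg h h1, gp_neg h (by omega), em_neg (by omega)]
  · rw [gp_pos h h1]
    by_cases h2 : m = j
    · subst h2
      rw [gp_neg h (by omega), em_pos]
    · rw [gp_pos h (by omega), em_neg h2]

/-- In the model, every compact metrizable space is separable. -/
theorem main {X T : U At} (hX : X ∈ NC) (hT : T ∈ NC) (hTop : IsTop NC X T)
    (hComp : IsComp NC X T) (hMet : IsMetrizable NC X T) : IsSeparable NC X T := by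
  classical
  obtain ⟨d, hd, ρ, hρ, hρ0, hρs, hρt, hρT⟩ := hMet
  obtain ⟨K, hK, hKX, hKT, hKd⟩ := supp3 hX hT hd
  obtain ⟨k, hk⟩ := exists_Kk hK
  have hkK := hk k le_rfl
  -- the metric is invariant
  have hinv : ∀ g ∈ Kk k, ∀ x ∈ X, ∀ y ∈ X, ρ (act g x) (act g y) = ρ x y := by
    intro g hg x hx y hy
    have h1 := hKd.mem (hkK hg) ((hρ x hx y hy _).2 rfl)
    rw [act_pair, act_pair, act_real] at h1
    exact (real_inj ((hρ _ (hKX.mem (hkK hg) hx) _ (hKX.mem (hkK hg) hy) _).1 h1)).symm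
  have hρpos : ∀ x ∈ X, ∀ y ∈ X, 0 ≤ ρ x y := by
    intro x hx y hy
    have h1 := hρt x hx y hy x hx
    rw [(hρ0 x hx x hx).2 rfl, hρs y hy x hx] at h1
    linarith
  -- total boundedness
  have htb : ∀ ε > 0, ∃ s : Set (U At), s.Finite ∧ (∀ x ∈ s, x ∈ X) ∧
      ∀ y ∈ X, ∃ x ∈ s, ρ x y < ε := by
    intro ε hε
    have hmb : ∀ x y, y ∈ sep (fun y => ρ x y < ε) X ↔ y ∈ X ∧ ρ x y < ε := fun x y => mem_sep
    have hbN : ∀ x ∈ X, sep (fun y => ρ x y < ε) X ∈ NC := by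
      intro x hx
      obtain ⟨H, hH, hHx⟩ := supp (trans hX hx)
      obtain ⟨L, hL, h1, h2⟩ := sys.dir _ (Kk_mem k) H hH
      refine sep_mem hX hL fun g hg y hy hQ => ⟨hKX.mem (hkK (h1 hg)) hy, ?_⟩
      have h3 := hinv g (h1 hg) x hx y hy
      rw [hHx g (h2 hg)] at h3
      rw [h3]
      exact hQ
    have hbT : ∀ x ∈ X, sep (fun y => ρ x y < ε) X ∈ T := by
      intro x hx
      refine (hρT _ (hbN x hx) ⟨isSet_mk _, fun z hz => (mem_sep.1 hz).1⟩).2 fun y hy => ?_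
      obtain ⟨hyX, hy⟩ := (hmb x y).1 hy
      refine ⟨ε - ρ x y, by linarith, fun z hz hyz => (hmb x z).2 ⟨hz, ?_⟩⟩
      have h1 := hρt x hx y hyX z hz
      linarith
    have hC : sep (fun O => ∃ x ∈ X, O = sep (fun y => ρ x y < ε) X) T ∈ NC := by
      refine sep_mem hT (Kk_mem k) fun g hg O hO hQ => ⟨hKT.mem (hkK hg) hO, ?_⟩
      obtain ⟨x, hx, rfl⟩ := hQ
      refine ⟨act g x, hKX.mem (hkK hg) hx, U.ext (isSet_act (isSet_mk _)) (isSet_mk _)
        fun z => ?_⟩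
      rw [mem_act]
      constructor
      · rintro ⟨y, hy, rfl⟩
        obtain ⟨hy, hxy⟩ := (hmb x y).1 hy
        exact (hmb _ _).2 ⟨hKX.mem (hkK hg) hy, by rwa [hinv g hg x hx y hy]⟩
      · intro hz
        obtain ⟨hz, hxz⟩ := (hmb _ z).1 hz
        have hz' := hKX.mem ((Kk k).inv_mem hg |> hkK) hz
        refine ⟨act g⁻¹ z, (hmb _ _).2 ⟨hz', ?_⟩, (act_act_inv g z).symm⟩
        rw [← hinv g hg x hx _ hz', act_act_inv]
        exact hxz
    obtain ⟨F, hF, hFC, hFf, hcov⟩ := hComp _ hC ⟨isSet_mk _, fun O hO => (mem_sep.1 hO).1⟩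
      fun x hx => mem_sUn.2 ⟨_, mem_sep.2 ⟨hbT x hx, x, hx, rfl⟩,
        (hmb x x).2 ⟨hx, by rw [(hρ0 x hx x hx).2 rfl]; exact hε⟩⟩
    have hFf' : {O | O ∈ F}.Finite := (finIn_iff fun z hz => trans hF hz).1 hFf
    have h1 : ∀ O, ∃ x, O ∈ F → x ∈ X ∧ O = sep (fun y => ρ x y < ε) X := by
      intro O
      by_cases hO : O ∈ F
      · obtain ⟨x, hx, h⟩ := (mem_sep.1 (hFC.2 O hO)).2
        exact ⟨x, fun _ => ⟨hx, h⟩⟩
      · exact ⟨O, fun h => absurd h hO⟩
    choose ce hce using h1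
    refine ⟨ce '' {O | O ∈ F}, hFf'.image ce, ?_, fun y hy => ?_⟩
    · rintro _ ⟨O, hO, rfl⟩
      exact (hce O hO).1
    · obtain ⟨O, hO, hyO⟩ := mem_sUn.1 (hcov y hy)
      refine ⟨ce O, ⟨O, hO, rfl⟩, ?_⟩
      rw [(hce O hO).2] at hyO
      exact ((hmb _ _).1 hyO).2
  -- the action of the homeomorphisms of one copy is trivial
  have htriv : ∀ n, k ≤ n → ∀ u : C2 ≃ₜ C2, ∀ x ∈ X, act (em n u) x = x := by
    intro n hn u x hx
    have hm : ∀ (v : C2 ≃ₜ C2) (y : {y // y ∈ X}), act (em n v) y.1 ∈ X := fun v y =>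
      hKX.mem (hkK (em_mem hn v)) y.2
    have h1 := triv (α := {y // y ∈ X}) (ρ := fun x y => ρ x.1 y.1)
      (ac := fun v y => ⟨act (em n v) y.1, hm v y⟩)
      (fun y => Subtype.ext (by
        change act (em n 1) y.1 = y.1
        rw [em_one, act_one]))
      (fun v w y => Subtype.ext (by
        change act (em n (v * w)) y.1 = act (em n v) (act (em n w) y.1)
        rw [em_mul, act_mul]))
      (fun y => (hρ0 y.1 y.2 y.1 y.2).2 rfl) (fun y z => hρs y.1 y.2 z.1 z.2)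
      (fun y z w => hρt y.1 y.2 z.1 z.2 w.1 w.2)
      (fun v y z => hinv _ (em_mem hn v) y.1 y.2 z.1 z.2)
      (fun ε hε => by
        obtain ⟨s, hs, hsX, hnet⟩ := htb ε hε
        refine ⟨Subtype.val ⁻¹' s, hs.preimage Subtype.val_injective.injOn, fun y => ?_⟩
        obtain ⟨z, hz, hzy⟩ := hnet y.1 y.2
        exact ⟨⟨z, hsX z hz⟩, hz, hzy⟩) u ⟨x, hx⟩
    exact ((hρ0 x hx _ (hm u ⟨x, hx⟩)).1 h1).symm
  -- all points are fixed
  have hfix : ∀ g ∈ Kk k, ∀ x ∈ X, act g x = x := by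
    intro g hg x hx
    obtain ⟨K', hK', hK'x⟩ := supp (trans hX hx)
    obtain ⟨m, hm⟩ := exists_Kk hK'
    obtain ⟨h, hh⟩ := hg.1
    have h1 : ∀ e j, j + e = max k m → k ≤ j → act (gp h j) x = x := by
      intro e
      induction e with
      | zero =>
        intro j hj hkj
        rw [add_zero] at hj
        subst hj
        exact hK'x _ (hm _ (le_max_right _ _) (gp_mem h _))
      | succ e ih =>
        intro j hj hkj
        rw [gp_succ, act_mul, ih (j + 1) (by omega) (by omega)]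
        exact htriv j hkj _ x hx
    have h2 : g = gp h k := by
      ext1 ⟨n, f⟩
      by_cases hn : n < k
      · rw [gp_neg h hn]
        exact hg.2 (n, f) hn
      · rw [gp_pos h hn, hh]
    rw [h2]
    exact h1 (max k m - k) k (by omega) le_rfl
  -- the dense set
  choose s hs hsX hnet using fun m : ℕ => htb (1 / ((m : ℝ) + 1)) (by positivity)
  have hcnt : (⋃ m, s m).Countable := Set.countable_iUnion fun m => (hs m).countable
  obtain ⟨ι, hι⟩ := Set.countable_iff_exists_injOn.1 hcnt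
  have hD : sep (fun x => x ∈ ⋃ m, s m) X ∈ NC := by
    refine sep_mem hX (Kk_mem k) fun g hg z hz hQ => ?_
    rw [hfix g hg z hz]
    exact ⟨hz, hQ⟩
  have hmf : ∀ a b, pair a b ∈ ims (fun x => pair x (nat (ι x))) (sep (fun x => x ∈ ⋃ m, s m) X) ↔
      a ∈ sep (fun x => x ∈ ⋃ m, s m) X ∧ b = nat (ι a) := by
    intro a b
    rw [mem_ims]
    constructor
    · rintro ⟨y, hy, h⟩
      obtain ⟨rfl, rfl⟩ := pair_inj.1 h
      exact ⟨hy, rfl⟩
    · rintro ⟨ha, rfl⟩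
      exact ⟨a, ha, rfl⟩
  refine ⟨_, hD, ⟨isSet_mk _, fun z hz => (mem_sep.1 hz).1⟩,
    ⟨ims (fun x => pair x (nat (ι x))) (sep (fun x => x ∈ ⋃ m, s m) X), ?_,
      ⟨isSet_mk _, fun z hz => ?_, fun a ha => ?_⟩, fun a b c ha hb => ?_⟩, fun O hO hne => ?_⟩
  · refine mem_of (isSet_mk _) (fun y hy => ?_) (Kk_mem k) fun g hg z hz => ?_
    · obtain ⟨x, hx, rfl⟩ := mem_ims.1 hy
      exact pair_mem (trans hD hx) (nat_mem _)
    · obtain ⟨x, hx, rfl⟩ := mem_ims.1 hz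
      rw [act_pair, act_nat, hfix g hg x (mem_sep.1 hx).1]
      exact mem_ims.2 ⟨x, hx, rfl⟩
  · obtain ⟨x, hx, rfl⟩ := mem_ims.1 hz
    exact ⟨x, hx, _, mem_omega.2 ⟨_, rfl⟩, rfl⟩
  · exact ⟨nat (ι a), (hmf _ _).2 ⟨ha, rfl⟩, fun b hb => ((hmf _ _).1 hb).2⟩
  · obtain ⟨ha1, ha2⟩ := (hmf _ _).1 ha
    obtain ⟨hb1, hb2⟩ := (hmf _ _).1 hb
    exact hι (mem_sep.1 ha1).2 (mem_sep.1 hb1).2 (nat_inj (ha2.symm.trans hb2))
  · obtain ⟨x, hx⟩ := hne
    have hOX := hTop.2.1 O hO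
    have hxX := hOX.2 x hx
    obtain ⟨ε, hε, h1⟩ := (hρT O (trans hT hO) hOX).1 hO x hx
    obtain ⟨m, hm⟩ := exists_nat_one_div_lt hε
    obtain ⟨y, hy, hyx⟩ := hnet m x hxX
    have hyX := hsX m y hy
    refine ⟨y, h1 y hyX ?_, mem_sep.2 ⟨hyX, Set.mem_iUnion.2 ⟨m, hy⟩⟩⟩
    rw [hρs x hxX y hyX]
    exact hyx.trans hm

end Cb

end Pool.Agent.R598.FM
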