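import Pool.Agent.R598.FM.Model

/-!
# The permutation model of the Cantor cubes: definitions
-/

set_option autoImplicit false

namespace Pool.Agent.R598.FM

open U

/-! ### Topological notions in a model of ZFA -/

section

variable {A : Type}

/-- In the model `N`, the set `T` is a topology on the set `X`. -/
def IsTop (N : Set (U A)) (X T : U A) : Prop :=
  IsSet T ∧ (∀ O ∈ T, Sub O X) ∧ emp ∈ T ∧ X ∈ T ∧ (∀ O ∈ T, ∀ O' ∈ T, int O O' ∈ T) ∧
    ∀ C ∈ N, Sub C T → sUn C ∈ T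

/-- In the model `N`, the space `(X, T)` is compact: every open cover has a finite subcover. -/
def IsComp (N : Set (U A)) (X T : U A) : Prop :=
  ∀ C ∈ N, Sub C T → (∀ x ∈ X, x ∈ sUn C) →
    ∃ F ∈ N, Sub F C ∧ FinIn N F ∧ ∀ x ∈ X, x ∈ sUn F

/-- The real number `r` as a set: the Dedekind cut of `r`, where the rational numbers are coded by
natural numbers. -/
noncomputable def real (r : ℝ) : U A :=
  mk fun q : {q : ℚ // (q : ℝ) < r} => nat (Encodable.encode q.1)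

/-- In the model `N`, the space `(X, T)` is metrizable: some function `d ∈ N` from the pairs of
points to the real numbers is a metric that gives the topology. -/
def IsMetrizable (N : Set (U A)) (X T : U A) : Prop :=
  ∃ d ∈ N, ∃ ρ : U A → U A → ℝ,
    (∀ x ∈ X, ∀ y ∈ X, ∀ z, pair (pair x y) z ∈ d ↔ z = real (ρ x y)) ∧
    (∀ x ∈ X, ∀ y ∈ X, ρ x y = 0 ↔ x = y) ∧ (∀ x ∈ X, ∀ y ∈ X, ρ x y = ρ y x) ∧
    (∀ x ∈ X, ∀ y ∈ X, ∀ z ∈ X, ρ x z ≤ ρ x y + ρ y z) ∧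
    ∀ O ∈ N, Sub O X → (O ∈ T ↔ ∀ x ∈ O, ∃ ε > 0, ∀ y ∈ X, ρ x y < ε → y ∈ O)

/-- In the model `N`, the space `(X, T)` is separable: it has a countable dense subset. -/
def IsSeparable (N : Set (U A)) (X T : U A) : Prop :=
  ∃ D ∈ N, Sub D X ∧ (∃ f ∈ N, IsInj D omega f) ∧ ∀ O ∈ T, (∃ x, x ∈ O) → ∃ x ∈ O, x ∈ D

end

/-! ### The model -/

namespace Cb

/-- The set of atoms: the atom `(n, f)` is `a_{n,f}`, and the set of the atoms `(n, f)` for a
given `n` is a copy of the Cantor cube. -/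
abbrev At : Type := ℕ × (ℕ → Bool)

/-- The group of all permutations of the atoms that act on each copy of the Cantor cube as an
autohomeomorphism. -/
def G : Subgroup (Equiv.Perm At) where
  carrier := {φ | ∃ h : ℕ → ((ℕ → Bool) ≃ₜ (ℕ → Bool)), ∀ n f, φ (n, f) = (n, h n f)}
  mul_mem' := by
    rintro φ ψ ⟨h, hφ⟩ ⟨k, hψ⟩
    refine ⟨fun n => h n * k n, fun n f => ?_⟩
    change φ (ψ (n, f)) = (n, h n (k n f))
    rw [hψ, hφ]
  one_mem' := ⟨fun _ => 1, fun _ _ => rfl⟩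
  inv_mem' := by
    rintro φ ⟨h, hφ⟩
    refine ⟨fun n => (h n)⁻¹, fun n f => ?_⟩
    rw [Equiv.Perm.inv_eq_iff_eq, hφ]
    change (n, f) = (n, h n ((h n).symm f))
    rw [Homeomorph.apply_symm_apply]

/-- The ideal of the sets of atoms that are contained in finitely many copies of the Cantor
cube. -/
def Id : Set (Set At) := {E | ∃ s : Finset ℕ, ∀ a ∈ E, a.1 ∈ s}

/-- The elements of the group that fix all elements of `E`. -/
def fixG (E : Set At) : Subgroup (Equiv.Perm At) where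
  carrier := {φ | φ ∈ G ∧ ∀ a ∈ E, φ a = a}
  mul_mem' := by
    rintro φ ψ ⟨h1, h2⟩ ⟨h3, h4⟩
    refine ⟨G.mul_mem h1 h3, fun a ha => ?_⟩
    rw [Equiv.Perm.mul_apply, h4 a ha, h2 a ha]
  one_mem' := ⟨G.one_mem, fun _ _ => rfl⟩
  inv_mem' := by
    rintro φ ⟨h1, h2⟩
    refine ⟨G.inv_mem h1, fun a ha => ?_⟩
    rw [Equiv.Perm.inv_eq_iff_eq, h2 a ha]

/-- The normal filter given by the ideal. -/
def sys : FMS At where
  G := G
  F := {K | ∃ E ∈ Id, K = fixG E}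
  le := by
    rintro _ ⟨E, -, rfl⟩ φ h
    exact h.1
  ne := ⟨_, ∅, ⟨∅, fun a ha => ha.elim⟩, rfl⟩
  dir := by
    classical
    rintro _ ⟨E, ⟨s, hs⟩, rfl⟩ _ ⟨E', ⟨s', hs'⟩, rfl⟩
    refine ⟨_, ⟨E ∪ E', ⟨s ∪ s', fun a ha => ?_⟩, rfl⟩, fun φ h => ⟨h.1, fun a ha =>
      h.2 a (Or.inl ha)⟩, fun φ h => ⟨h.1, fun a ha => h.2 a (Or.inr ha)⟩⟩
    rcases ha with ha | ha
    · exact Finset.mem_union_left _ (hs a ha)
    · exact Finset.mem_union_right _ (hs' a ha)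
  conj := by
    rintro _ ⟨E, ⟨s, hs⟩, rfl⟩ g hg
    refine ⟨_, ⟨g '' E, ⟨s, ?_⟩, rfl⟩, fun k hk => ⟨G.mul_mem (G.mul_mem (G.inv_mem hg) hk.1) hg,
      fun a ha => ?_⟩⟩
    · rintro _ ⟨a, ha, rfl⟩
      obtain ⟨h, hh⟩ := hg
      have h1 : g a = (a.1, h a.1 a.2) := hh a.1 a.2
      rw [h1]
      exact hs a ha
    · change g.symm (k (g a)) = a
      rw [hk.2 _ ⟨a, ha, rfl⟩, Equiv.symm_apply_apply]
  atom := by
    intro a
    refine ⟨_, ⟨{a}, ⟨{a.1}, ?_⟩, rfl⟩, fun g hg => hg.2 a rfl⟩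
    rintro _ rfl
    exact Finset.mem_singleton_self _

/-- The permutation model of the Cantor cubes: the class of the hereditarily symmetric atoms and
sets. -/
def NC : Set (U At) := sys.N

end Cb

end Pool.Agent.R598.FM
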