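import Pool.Agent.R598.FM.Model

/-!
# Criteria for the filterbase notions of infinity in a permutation model
-/

set_option autoImplicit false

namespace Pool.Agent.R598.FM

open U

variable {A : Type}

/-- The two sets are equal up to a finite set. -/
def Fq (Y Z : U A) : Prop := {z | z ∈ Y ∧ ¬ z ∈ Z}.Finite ∧ {z | z ∈ Z ∧ ¬ z ∈ Y}.Finite

theorem Fq.refl (Y : U A) : Fq Y Y :=
  ⟨Set.finite_empty.subset fun _ h => h.2 h.1, Set.finite_empty.subset fun _ h => h.2 h.1⟩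

theorem Fq.symm {Y Z : U A} (h : Fq Y Z) : Fq Z Y := ⟨h.2, h.1⟩

theorem dfin {Y Z W : U A} (h : {z | z ∈ Y ∧ ¬ z ∈ Z}.Finite) (h' : {z | z ∈ Z ∧ ¬ z ∈ W}.Finite) :
    {z | z ∈ Y ∧ ¬ z ∈ W}.Finite := by
  refine (h.union h').subset fun x hx => ?_
  by_cases hZ : x ∈ Z
  · exact Or.inr ⟨hZ, hx.2⟩
  · exact Or.inl ⟨hx.1, hZ⟩

theorem Fq.trans {Y Z W : U A} (h : Fq Y Z) (h' : Fq Z W) : Fq Y W :=
  ⟨dfin h.1 h'.1, dfin h'.2 h.2⟩

theorem Fq.un {Y Y' Z Z' : U A} (h : Fq Y Y') (h' : Fq Z Z') : Fq (un Y Z) (un Y' Z') := by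
  constructor
  · refine (h.1.union h'.1).subset fun x hx => ?_
    have h2 := hx.2
    rw [mem_un, not_or] at h2
    rcases mem_un.1 hx.1 with h1 | h1
    · exact Or.inl ⟨h1, h2.1⟩
    · exact Or.inr ⟨h1, h2.2⟩
  · refine (h.2.union h'.2).subset fun x hx => ?_
    have h2 := hx.2
    rw [mem_un, not_or] at h2
    rcases mem_un.1 hx.1 with h1 | h1
    · exact Or.inl ⟨h1, h2.1⟩
    · exact Or.inr ⟨h1, h2.2⟩

theorem Fq.int {Y Y' Z Z' : U A} (h : Fq Y Y') (h' : Fq Z Z') : Fq (int Y Z) (int Y' Z') := by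
  constructor
  · refine (h.1.union h'.1).subset fun x hx => ?_
    obtain ⟨h1, h2⟩ := mem_int.1 hx.1
    by_cases h3 : x ∈ Y'
    · exact Or.inr ⟨h2, fun h4 => hx.2 (mem_int.2 ⟨h3, h4⟩)⟩
    · exact Or.inl ⟨h1, h3⟩
  · refine (h.2.union h'.2).subset fun x hx => ?_
    obtain ⟨h1, h2⟩ := mem_int.1 hx.1
    by_cases h3 : x ∈ Y
    · exact Or.inr ⟨h2, fun h4 => hx.2 (mem_int.2 ⟨h3, h4⟩)⟩
    · exact Or.inl ⟨h1, h3⟩

theorem Fq.inf {Y Z : U A} (h : Fq Y Z) (hY : {z | z ∈ Y}.Infinite) : {z | z ∈ Z}.Infinite := by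
  intro h1
  refine hY ((h.1.union h1).subset fun x hx => ?_)
  by_cases h2 : x ∈ Z
  · exact Or.inr h2
  · exact Or.inl ⟨hx, h2⟩

theorem Fq.act {Y Z : U A} (h : Fq Y Z) (g : Equiv.Perm A) : Fq (act g Y) (act g Z) := by
  constructor
  · refine (h.1.image (U.act g)).subset ?_
    rintro _ ⟨hx, hx'⟩
    obtain ⟨y, hy, rfl⟩ := mem_act.1 hx
    exact ⟨y, ⟨hy, fun h1 => hx' (act_mem_act.2 h1)⟩, rfl⟩
  · refine (h.2.image (U.act g)).subset ?_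
    rintro _ ⟨hx, hx'⟩
    obtain ⟨y, hy, rfl⟩ := mem_act.1 hx
    exact ⟨y, ⟨hy, fun h1 => hx' (act_mem_act.2 h1)⟩, rfl⟩

theorem un_self {x : U A} (hx : IsSet x) : un x x = x :=
  U.ext (isSet_mk _) hx fun z => by rw [mem_un, or_self]

theorem int_self {x : U A} (hx : IsSet x) : int x x = x :=
  U.ext (isSet_mk _) hx fun z => by rw [mem_int, and_self]

namespace FMS

variable {S : FMS A}

/-- The class of the set `B` modulo finite sets. -/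
noncomputable def cls (S : FMS A) (X B : U A) : U A := sep (fun Y => Fq Y B) (powN S X)

theorem mem_cls {X B Y : U A} : Y ∈ cls S X B ↔ (Y ∈ S.N ∧ Sub Y X) ∧ Fq Y B := by
  rw [cls, mem_sep, mem_powN]

theorem un_mem' {x y : U A} (hx : x ∈ S.N) (hy : y ∈ S.N) : un x y ∈ S.N := un_mem hx hy

theorem int_mem {x y : U A} (hx : x ∈ S.N) (hy : y ∈ S.N) : int x y ∈ S.N := by
  obtain ⟨H, hH, h1, h2⟩ := supp2 hx hy
  exact sep_mem hx hH fun g hg z hz hz' => ⟨h1.mem hg hz, h2.mem hg hz'⟩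

theorem diff_mem {x y : U A} (hx : x ∈ S.N) (hy : y ∈ S.N) : diff x y ∈ S.N := by
  obtain ⟨H, hH, h1, h2⟩ := supp2 hx hy
  exact sep_mem hx hH fun g hg z hz hz' => ⟨h1.mem hg hz, fun h => hz' ((h2.mem_iff hg).1 h)⟩

theorem fin_diff {X Y Z : U A} (hX : X ∈ S.N) (hY : Sub Y X) :
    FinIn S.N (diff Y Z) ↔ {z | z ∈ Y ∧ ¬ z ∈ Z}.Finite := by
  rw [finIn_iff fun z hz => trans hX (hY.2 z (mem_diff.1 hz).1)]
  have h1 : {z | z ∈ diff Y Z} = {z | z ∈ Y ∧ ¬ z ∈ Z} := by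
    ext z
    exact mem_diff
  rw [h1]

theorem fin_int {X Y Z : U A} (hX : X ∈ S.N) (hY : Sub Y X) :
    FinIn S.N (int Y Z) ↔ {z | z ∈ Y ∧ z ∈ Z}.Finite := by
  rw [finIn_iff fun z hz => trans hX (hY.2 z (mem_int.1 hz).1)]
  have h1 : {z | z ∈ int Y Z} = {z | z ∈ Y ∧ z ∈ Z} := by
    ext z
    exact mem_int
  rw [h1]

theorem sub_un {X Y Z : U A} (hY : Sub Y X) (hZ : Sub Z X) : Sub (un Y Z) X :=
  ⟨isSet_mk _, fun z hz => (mem_un.1 hz).elim (hY.2 z) (hZ.2 z)⟩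

theorem sub_int {X Y Z : U A} (hY : Sub Y X) : Sub (int Y Z) X :=
  ⟨isSet_mk _, fun z hz => hY.2 z (mem_int.1 hz).1⟩

theorem fbi_cls {X B : U A} (_hX : X ∈ S.N) (hB : B ∈ S.N) (hBX : Sub B X)
    (hinf : {z | z ∈ B}.Infinite) : IsFBI S.N X (cls S X B) := by
  have hcl : ∀ Y ∈ cls S X B, ∀ W ∈ cls S X B, un Y W ∈ cls S X B ∧ int Y W ∈ cls S X B := by
    intro Y hY W hW
    obtain ⟨⟨h1, h2⟩, h3⟩ := mem_cls.1 hY
    obtain ⟨⟨h1', h2'⟩, h3'⟩ := mem_cls.1 hW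
    refine ⟨mem_cls.2 ⟨⟨un_mem h1 h1', sub_un h2 h2'⟩, ?_⟩,
      mem_cls.2 ⟨⟨int_mem h1 h1', sub_int h2⟩, ?_⟩⟩
    · have h4 := h3.un h3'
      rwa [un_self hBX.1] at h4
    · have h4 := h3.int h3'
      rwa [int_self hBX.1] at h4
  have hi : ∀ Y ∈ cls S X B, {z | z ∈ Y}.Infinite := fun Y hY => (mem_cls.1 hY).2.symm.inf hinf
  refine ⟨⟨isSet_mk _, ⟨B, mem_cls.2 ⟨⟨hB, hBX⟩, Fq.refl B⟩⟩, fun Y hY => ⟨(mem_cls.1 hY).1.2,
    (hi Y hY).nonempty⟩, fun Y hY W hW => ⟨_, (hcl Y hY W hW).2, isSet_mk _, fun z hz => hz⟩⟩, hcl,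
    fun Y hY => ?_⟩
  obtain ⟨⟨h1, h2⟩, h3⟩ := mem_cls.1 hY
  rw [finIn_iff fun z hz => trans h1 hz]
  exact hi Y hY

theorem fin_cls {X B : U A} (hX : X ∈ S.N) : ∀ Y ∈ cls S X B, ∀ W ∈ cls S X B,
    FinIn S.N (diff Y W) := by
  intro Y hY W hW
  obtain ⟨⟨h1, h2⟩, h3⟩ := mem_cls.1 hY
  obtain ⟨⟨h1', h2'⟩, h3'⟩ := mem_cls.1 hW
  rw [fin_diff hX h2]
  exact (h3.trans h3'.symm).1

theorem cls_act {X B : U A} {H : Subgroup (Equiv.Perm A)} (hH : H ∈ S.F) (hHX : Fx H X)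
    (h : ∀ g ∈ H, Fq (act g B) B) : Fx H (cls S X B) := by
  refine fx_of (isSet_mk _) fun g hg Y hY => ?_
  obtain ⟨⟨h1, h2⟩, h3⟩ := mem_cls.1 hY
  refine mem_cls.2 ⟨⟨act_mem (S.le H hH hg) h1, ?_⟩, (h3.act g).trans (h g hg)⟩
  have h4 := sub_act (g := g) h2
  rwa [hHX g hg] at h4

theorem cls_mem {X B : U A} {H : Subgroup (Equiv.Perm A)} (hH : H ∈ S.F) (hHX : Fx H X)
    (h : ∀ g ∈ H, Fq (act g B) B) : cls S X B ∈ S.N :=
  mem_N.2 ⟨⟨H, hH, cls_act hH hHX h⟩, fun _ hY => (mem_cls.1 hY).1.1⟩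

/-- The function with the given values. -/
theorem fam_mem {ι : Type} {k V : ι → U A} {H : Subgroup (Equiv.Perm A)} (hH : H ∈ S.F)
    (hk : ∀ i, k i ∈ S.N ∧ Fx H (k i)) (hV : ∀ i, V i ∈ S.N ∧ Fx H (V i)) :
    (U.mk fun i => pair (k i) (V i)) ∈ S.N := by
  refine mem_N.2 ⟨⟨H, hH, fun g hg => ?_⟩, fun y hy => ?_⟩
  · rw [act_mk]
    congr 1
    funext i
    rw [act_pair, (hk i).2 g hg, (hV i).2 g hg]
  · obtain ⟨i, rfl⟩ := mem_mk.1 hy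
    exact pair_mem (hk i).1 (hV i).1

theorem mem_fam {ι : Type} {k V : ι → U A} (hk : Function.Injective k) (i : ι) (y : U A) :
    pair (k i) y ∈ (U.mk fun i => pair (k i) (V i)) ↔ y = V i := by
  rw [mem_mk]
  constructor
  · rintro ⟨j, hj⟩
    obtain ⟨h1, h2⟩ := pair_inj.1 hj
    rw [h2, hk h1]
  · rintro rfl
    exact ⟨i, rfl⟩

/-- The criterion for strongly filterbase infinite sets. -/
theorem strongInf_of {X : U A} (hX : X ∈ S.N) {H : Subgroup (Equiv.Perm A)} (hH : H ∈ S.F)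
    (hHX : Fx H X) (B : ℕ → U A) (hB : ∀ j, B j ∈ S.N) (hBX : ∀ j, Sub (B j) X)
    (hinf : ∀ j, {z | z ∈ B j}.Infinite) (hdis : ∀ i j, i ≠ j → {z | z ∈ B i ∧ z ∈ B j}.Finite)
    (hact : ∀ g ∈ H, ∀ j, Fq (act g (B j)) (B j)) : StrongInf S.N X := by
  have hc : ∀ j, cls S X (B j) ∈ S.N ∧ Fx H (cls S X (B j)) := fun j =>
    ⟨cls_mem hH hHX fun g hg => hact g hg j, cls_act hH hHX fun g hg => hact g hg j⟩
  refine ⟨U.mk fun i : ℕ => pair (nat i) (cls S X (B i)),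
    fam_mem hH (fun i => ⟨nat_mem i, fx_nat H i⟩) hc, fun n => cls S X (B n),
    fun n y => mem_fam (k := fun i : ℕ => (nat i : U A)) (fun i j h => nat_inj h) n y,
    fun i => fbi_cls hX (hB i) (hBX i) (hinf i), fun i => fin_cls hX, ?_, ?_⟩
  · intro i j hij
    refine ⟨B i, mem_cls.2 ⟨⟨hB i, hBX i⟩, Fq.refl _⟩, B j, mem_cls.2 ⟨⟨hB j, hBX j⟩, Fq.refl _⟩, ?_⟩
    rw [fin_int hX (hBX i)]
    exact hdis i j hij
  · intro n c hcV
    rw [finIn_iff fun z hz => trans hX (mem_sep.1 hz).1]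
    intro hf
    have h1 : ∀ i ∈ Finset.range n, {z | z ∈ B n ∧ z ∈ c i}.Finite := by
      intro i hi
      have hi' := Finset.mem_range.1 hi
      obtain ⟨-, h2⟩ := mem_cls.1 (hcV i hi')
      refine ((hdis n i (by omega)).union h2.1).subset fun z hz => ?_
      by_cases h3 : z ∈ B i
      · exact Or.inl ⟨hz.1, h3⟩
      · exact Or.inr ⟨hz.2, h3⟩
    refine hinf n ((hf.union ((Finset.range n).finite_toSet.biUnion h1)).subset fun z hz => ?_)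
    by_cases h2 : ∃ i < n, z ∈ c i
    · obtain ⟨i, hi, hzi⟩ := h2
      exact Or.inr (Set.mem_iUnion₂.2 ⟨i, Finset.mem_coe.2 (Finset.mem_range.2 hi), hz, hzi⟩)
    · exact Or.inl (mem_sep.2 ⟨(hBX n).2 z hz, fun i hi hzi => h2 ⟨i, hi, hzi⟩⟩)

/-- The criterion for dyadically filterbase infinite sets. -/
theorem dyadInf_of {X : U A} (hX : X ∈ S.N) {H : Subgroup (Equiv.Perm A)} (hH : H ∈ S.F)
    (hHX : Fx H X) (ix : ℕ → U A → ℕ) (hlt : ∀ n x, ix n x < 2 ^ n)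
    (hstep : ∀ n x, ix (n + 1) x = 2 * ix n x ∨ ix (n + 1) x = 2 * ix n x + 1)
    (hinf : ∀ n i, i < 2 ^ n → {x | x ∈ X ∧ ix n x = i}.Infinite)
    (hact : ∀ g ∈ H, ∀ n, {x | x ∈ X ∧ ix n (act g x) ≠ ix n x}.Finite)
    (hmem : ∀ n i, sep (fun x => ix n x = i) X ∈ S.N) : DyadInf S.N X := by
  set B : ℕ → ℕ → U A := fun n i => sep (fun x => ix n x = i - 1) X with hB
  have hBX : ∀ n i, Sub (B n i) X := fun n i => ⟨isSet_mk _, fun z hz => (mem_sep.1 hz).1⟩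
  have hBi : ∀ n i, 1 ≤ i → i ≤ 2 ^ n → {z | z ∈ B n i}.Infinite := by
    intro n i h1 h2
    have h3 := hinf n (i - 1) (by omega)
    refine h3.mono fun z hz => mem_sep.2 hz
  have hFq : ∀ g ∈ H, ∀ n i, Fq (act g (B n i)) (B n i) := by
    intro g hg n i
    constructor
    · refine ((hact g hg n).image (act g)).subset ?_
      rintro _ ⟨h1, h2⟩
      obtain ⟨y, hy, rfl⟩ := mem_act.1 h1
      obtain ⟨hyX, hyi⟩ := mem_sep.1 hy
      refine ⟨y, ⟨hyX, fun h3 => h2 (mem_sep.2 ⟨hHX.mem hg hyX, ?_⟩)⟩, rfl⟩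
      change ix n (act g y) = i - 1
      rw [h3, hyi]
    · refine ((hact g hg n).image (act g)).subset ?_
      rintro z ⟨h1, h2⟩
      obtain ⟨hzX, hzi⟩ := mem_sep.1 h1
      have hzX' := hHX.mem (H.inv_mem hg) hzX
      refine ⟨act g⁻¹ z, ⟨hzX', fun h3 => h2 ?_⟩, act_act_inv g z⟩
      rw [act_act_inv] at h3
      refine mem_act.2 ⟨act g⁻¹ z, mem_sep.2 ⟨hzX', ?_⟩, (act_act_inv g z).symm⟩
      change ix n (act g⁻¹ z) = i - 1
      rw [← h3, hzi]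
  have hc : ∀ n i, cls S X (B n i) ∈ S.N ∧ Fx H (cls S X (B n i)) := fun n i =>
    ⟨cls_mem hH hHX fun g hg => hFq g hg n i, cls_act hH hHX fun g hg => hFq g hg n i⟩
  have hBN : ∀ n i, B n i ∈ cls S X (B n i) := fun n i =>
    mem_cls.2 ⟨⟨hmem n (i - 1), hBX n i⟩, Fq.refl _⟩
  have hkey : ∀ n i j, 1 ≤ i → i ≠ j → 1 ≤ j → ∀ W ∈ cls S X (B n i), ∀ G ∈ cls S X (B n j),
      FinIn S.N (diff (un (B (n + 1) (2 * i - 1)) (B (n + 1) (2 * i))) W) ∧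
        FinIn S.N (int (un (B (n + 1) (2 * i - 1)) (B (n + 1) (2 * i))) G) := by
    intro n i j hi hij hj W hW G hG
    have hsub : ∀ z, z ∈ un (B (n + 1) (2 * i - 1)) (B (n + 1) (2 * i)) → z ∈ B n i := by
      intro z hz
      have h1 := hstep n z
      rcases mem_un.1 hz with hz | hz <;> obtain ⟨h2, h3⟩ := mem_sep.1 hz <;>
        refine mem_sep.2 ⟨h2, ?_⟩
      · change ix (n + 1) z = 2 * i - 1 - 1 at h3
        change ix n z = i - 1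
        omega
      · change ix (n + 1) z = 2 * i - 1 at h3
        change ix n z = i - 1
        omega
    have hsu : Sub (un (B (n + 1) (2 * i - 1)) (B (n + 1) (2 * i))) X :=
      sub_un (hBX _ _) (hBX _ _)
    constructor
    · rw [fin_diff hX hsu]
      exact (mem_cls.1 hW).2.2.subset fun z hz => ⟨hsub z hz.1, hz.2⟩
    · rw [fin_int hX hsu]
      refine (mem_cls.1 hG).2.1.subset fun z hz => ⟨hz.2, fun h1 => ?_⟩
      have h2 : ix n z = i - 1 := (mem_sep.1 (hsub z hz.1)).2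
      have h3 : ix n z = j - 1 := (mem_sep.1 h1).2
      omega
  have hinj : Function.Injective fun t : ℕ × ℕ => (pair (nat t.1) (nat t.2) : U A) := by
    rintro ⟨a, b⟩ ⟨c, d⟩ h
    obtain ⟨h1, h2⟩ := pair_inj.1 h
    rw [Prod.mk.injEq]
    exact ⟨nat_inj h1, nat_inj h2⟩
  refine ⟨U.mk fun t : ℕ × ℕ => pair (pair (nat t.1) (nat t.2)) (cls S X (B t.1 t.2)),
    fam_mem hH (fun t => ⟨pair_mem (nat_mem _) (nat_mem _), (fx_nat H _).pair (fx_nat H _)⟩)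
      (fun t => hc t.1 t.2), fun n i => cls S X (B n i),
    fun n i _ _ _ y => mem_fam (V := fun t : ℕ × ℕ => cls S X (B t.1 t.2)) hinj (n, i) y,
    fun n hn => ⟨fun i h1 h2 => fbi_cls hX (hmem n (i - 1)) (hBX n i) (hBi n i h1 h2),
      fun i h1 h2 => fin_cls hX, fun i j h1 _ h2 _ hij W hW G hG =>
        ⟨_, hBN _ _, _, hBN _ _, hkey n i j h1 hij h2 W hW G hG⟩, fun c hcV => ?_⟩⟩
  rw [finIn_iff fun z hz => trans hX (mem_sep.1 hz).1]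
  have h1 : ∀ i ∈ Finset.Icc 1 (2 ^ n), {z | z ∈ B n i ∧ ¬ z ∈ c i}.Finite := by
    intro i hi
    rw [Finset.mem_Icc] at hi
    exact (mem_cls.1 (hcV i hi.1 hi.2)).2.2
  refine ((Finset.Icc 1 (2 ^ n)).finite_toSet.biUnion h1).subset fun z hz => ?_
  obtain ⟨hzX, hz⟩ := mem_sep.1 hz
  have h2 := hlt n z
  refine Set.mem_iUnion₂.2 ⟨ix n z + 1, Finset.mem_coe.2 (Finset.mem_Icc.2 ⟨by omega, by omega⟩),
    mem_sep.2 ⟨hzX, rfl⟩, ?_⟩
  exact hz _ (by omega) (by omega)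

end FMS

end Pool.Agent.R598.FM
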