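import Pool.Agent.R598.FM.Univ
import Pool.Agent.W868.Defs

/-!
# Set theory with atoms: transitive models and notions of infinity

A class `N : Set (U A)` of atoms and sets over the atoms from `A` is viewed as the structure
`(N, ∈)`.
-/

set_option autoImplicit false

namespace Pool.Agent.R598.FM

open U

variable {A : Type}

/-- Truth of a formula with parameters in the structure `(N, ∈)`, where the free variables are
interpreted by `v`. The formulas are those of `Pool.Agent.W868.Fml`. -/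
def Sat (N : Set (U A)) : {n : ℕ} → W868.Fml (U A) n → (Fin n → U A) → Prop
  | _, .mem s t, v => Sum.elim v id s ∈ Sum.elim v id t
  | _, .eq s t, v => Sum.elim v id s = Sum.elim v id t
  | _, .neg φ, v => ¬ Sat N φ v
  | _, .and φ ψ, v => Sat N φ v ∧ Sat N ψ v
  | _, .ex φ, v => ∃ a ∈ N, Sat N φ (Fin.cons a v)

/-- `N` is a transitive model of ZFA, set theory with atoms, that contains all atoms: a transitive
class that contains the set of all atoms and satisfies the axioms of pairing, union, infinity and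
power set, and the schemes of separation and replacement for all formulas with parameters from `N`
(the set of atoms can be used as a parameter). Extensionality for sets and foundation hold in
every transitive class; atoms have no elements. -/
structure IsZFA (N : Set (U A)) : Prop where
  trans : ∀ x ∈ N, ∀ y ∈ x, y ∈ N
  atoms : (atoms : U A) ∈ N
  pairing : ∀ x ∈ N, ∀ y ∈ N, up x y ∈ N
  union : ∀ x ∈ N, sUn x ∈ N
  infinity : (omega : U A) ∈ N
  power : ∀ x ∈ N, ∃ y ∈ N, IsSet y ∧ ∀ z, z ∈ y ↔ z ∈ N ∧ Sub z x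
  separation : ∀ φ : W868.Fml (U A) 1, φ.Over N → ∀ x ∈ N, ∃ y ∈ N, IsSet y ∧ ∀ z,
    z ∈ y ↔ z ∈ x ∧ Sat N φ ![z]
  replacement : ∀ φ : W868.Fml (U A) 2, φ.Over N → ∀ x ∈ N,
    (∀ z ∈ x, ∃! w, w ∈ N ∧ Sat N φ ![z, w]) →
      ∃ y ∈ N, IsSet y ∧ ∀ w, w ∈ y ↔ w ∈ N ∧ ∃ z ∈ x, Sat N φ ![z, w]

/-- `f` is a function from `x` to `y`. -/
def IsFun (x y f : U A) : Prop :=
  IsSet f ∧ (∀ z ∈ f, ∃ a ∈ x, ∃ b ∈ y, z = pair a b) ∧ ∀ a ∈ x, ∃! b, pair a b ∈ f

/-- `f` is an injective function from `x` to `y`. -/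
def IsInj (x y f : U A) : Prop := IsFun x y f ∧ ∀ a b c, pair a c ∈ f → pair b c ∈ f → a = b

/-- `f` is a bijective function from `x` to `y`. -/
def IsBij (x y f : U A) : Prop := IsInj x y f ∧ ∀ b ∈ y, ∃ a ∈ x, pair a b ∈ f

/-- In the model `N` the set `Y` is finite: `N` has a bijection between `Y` and a natural
number. -/
def FinIn (N : Set (U A)) (Y : U A) : Prop := ∃ n : ℕ, ∃ f ∈ N, IsBij Y (nat n) f

/-- In the model `N`, the set `X` is weakly Dedekind-infinite: there is an injection from `ω` to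
the power set of `X`. -/
def WDInf (N : Set (U A)) (X : U A) : Prop :=
  ∃ Q ∈ N, (∀ z, z ∈ Q ↔ z ∈ N ∧ Sub z X) ∧ ∃ f ∈ N, IsInj omega Q f

/-- The set `V` is a filterbase in the set `X`. -/
def IsFB (X V : U A) : Prop :=
  IsSet V ∧ (∃ S, S ∈ V) ∧ (∀ S ∈ V, Sub S X ∧ ∃ z, z ∈ S) ∧
    ∀ S ∈ V, ∀ W ∈ V, ∃ Z ∈ V, Sub Z (int S W)

/-- The set `V` is a filterbase in the set `X`, closed under finite unions and finite
intersections, and all its members are infinite in the model `N`. -/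
def IsFBI (N : Set (U A)) (X V : U A) : Prop :=
  IsFB X V ∧ (∀ S ∈ V, ∀ W ∈ V, un S W ∈ V ∧ int S W ∈ V) ∧ ∀ S ∈ V, ¬ FinIn N S

/-- In the model `N`, the set `X` is dyadically filterbase infinite. The filterbases `V n i`, for
`1 ≤ n` and `1 ≤ i ≤ 2 ^ n`, are given by the function `v ∈ N`. -/
def DyadInf (N : Set (U A)) (X : U A) : Prop :=
  ∃ v ∈ N, ∃ V : ℕ → ℕ → U A,
    (∀ n i, 1 ≤ n → 1 ≤ i → i ≤ 2 ^ n →
      ∀ y, pair (pair (nat n) (nat i)) y ∈ v ↔ y = V n i) ∧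
    ∀ n, 1 ≤ n →
      (∀ i, 1 ≤ i → i ≤ 2 ^ n → IsFBI N X (V n i)) ∧
      (∀ i, 1 ≤ i → i ≤ 2 ^ n → ∀ S ∈ V n i, ∀ W ∈ V n i, FinIn N (diff S W)) ∧
      (∀ i j, 1 ≤ i → i ≤ 2 ^ n → 1 ≤ j → j ≤ 2 ^ n → i ≠ j → ∀ W ∈ V n i, ∀ G ∈ V n j,
        ∃ S ∈ V (n + 1) (2 * i - 1), ∃ S' ∈ V (n + 1) (2 * i),
          FinIn N (diff (un S S') W) ∧ FinIn N (int (un S S') G)) ∧
      (∀ c : ℕ → U A, (∀ i, 1 ≤ i → i ≤ 2 ^ n → c i ∈ V n i) →
        FinIn N (sep (fun z => ∀ i, 1 ≤ i → i ≤ 2 ^ n → ¬ z ∈ c i) X))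

/-- In the model `N`, the set `X` is strongly filterbase infinite. The sequence `V 0, V 1, ...`
of filterbases is given by the function `v ∈ N`. -/
def StrongInf (N : Set (U A)) (X : U A) : Prop :=
  ∃ v ∈ N, ∃ V : ℕ → U A, (∀ n y, pair (nat n) y ∈ v ↔ y = V n) ∧
    (∀ i, IsFBI N X (V i)) ∧
    (∀ i, ∀ S ∈ V i, ∀ W ∈ V i, FinIn N (diff S W)) ∧
    (∀ i j, i ≠ j → ∃ S ∈ V i, ∃ W ∈ V j, FinIn N (int S W)) ∧
    (∀ n, ∀ c : ℕ → U A, (∀ i < n, c i ∈ V i) →
      ¬ FinIn N (sep (fun z => ∀ i < n, ¬ z ∈ c i) X))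

/-- IWDI: in the model `N`, every infinite set is weakly Dedekind-infinite. -/
def IWDI (N : Set (U A)) : Prop := ∀ X ∈ N, IsSet X → ¬ FinIn N X → WDInf N X

/-- IDFBI: in the model `N`, every infinite set is dyadically filterbase infinite. -/
def IDFBI (N : Set (U A)) : Prop := ∀ X ∈ N, IsSet X → ¬ FinIn N X → DyadInf N X

/-- ISFBI: in the model `N`, every infinite set is strongly filterbase infinite. -/
def ISFBI (N : Set (U A)) : Prop := ∀ X ∈ N, IsSet X → ¬ FinIn N X → StrongInf N X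

end Pool.Agent.R598.FM
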