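import Pool.Agent.R598.FM.PDm

/-!
# A permutation model in which every infinite set is dyadically filterbase infinite
-/

set_option autoImplicit false

namespace Pool.Agent.R598.FM

open U FMS
open Pool.Agent.R598.PM (PD OF Sup FS mem_FS Ker mkPD mem_Ker swap_mem_FS swap_mem_Ker)

section

variable {I : Type} [DecidableEq I]

open Classical in
/-- The index of an element of the form `(a c) x`. -/
noncomputable def cod (C : Set I) (a : I) (x y : U I) : Option I :=
  if h : ∃ c ∈ C, y = act (Equiv.swap a c) x then some h.choose else none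

variable {C : Set I} {a : I} {x : U I}
  (hinj : ∀ c ∈ C, ∀ c' ∈ C, act (Equiv.swap a c) x = act (Equiv.swap a c') x → c = c')

theorem cod_spec {y : U I} {c : I} (h : cod C a x y = some c) :
    c ∈ C ∧ y = act (Equiv.swap a c) x := by
  unfold cod at h
  by_cases h1 : ∃ c ∈ C, y = act (Equiv.swap a c) x
  · rw [dif_pos h1, Option.some.injEq] at h
    rw [← h]
    exact h1.choose_spec
  · rw [dif_neg h1] at h
    cases h

include hinj

theorem cod_eq {c : I} (hc : c ∈ C) : cod C a x (act (Equiv.swap a c) x) = some c := by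
  unfold cod
  have h1 : ∃ c' ∈ C, act (Equiv.swap a c) x = act (Equiv.swap a c') x := ⟨c, hc, rfl⟩
  rw [dif_pos h1, Option.some.injEq]
  exact (hinj _ hc _ h1.choose_spec.1 h1.choose_spec.2).symm

theorem cod_act {g : Equiv.Perm I} (ha : g a = a) (hx : act g x = x) (hC : ∀ c, g c ∈ C ↔ c ∈ C)
    (y : U I) : cod C a x (act g y) = (cod C a x y).map g := by
  have h1 : ∀ c, act g (act (Equiv.swap a c) x) = act (Equiv.swap a (g c)) x := by
    intro c
    rw [← act_mul, Equiv.mul_swap_eq_swap_mul, ha, act_mul, hx]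
  cases h : cod C a x y with
  | some c =>
    obtain ⟨h2, h3⟩ := cod_spec h
    rw [h3, h1, cod_eq hinj ((hC c).2 h2)]
    rfl
  | none =>
    cases h' : cod C a x (act g y) with
    | none => rfl
    | some c =>
      exfalso
      obtain ⟨h2, h3⟩ := cod_spec h'
      have h4 : g⁻¹ c ∈ C := by
        rw [← hC]
        have h5 : g (g⁻¹ c) = c := Equiv.apply_symm_apply g c
        rwa [h5]
      have h5 : y = act (Equiv.swap a (g⁻¹ c)) x := by
        refine act_inj (g := g) ?_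
        rw [h1, h3]
        congr 2
        exact (Equiv.apply_symm_apply g c).symm
      rw [h5, cod_eq hinj h4] at h
      cases h

end

namespace Dya

open PM.Dy (ix ix_lt ix_pred ix_mono ix_surj D of_D)

/-- The set of atoms. -/
abbrev J : Type := ℕ × Finset ℕ

theorem ix_div (n m : ℕ) (c : J) : 2 ^ m * ix n c ≤ ix (n + m) c ∧
    ix (n + m) c < 2 ^ m * (ix n c + 1) := by
  induction m with
  | zero =>
    rw [pow_zero, add_zero]
    omega
  | succ m ih =>
    have h1 : ix (n + m + 1) c = 2 * ix (n + m) c + if n + m ∈ c.2 then 1 else 0 := rfl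
    have h2 : (2 : ℕ) ^ (m + 1) * ix n c = 2 * (2 ^ m * ix n c) := by ring
    have h3 : (2 : ℕ) ^ (m + 1) * (ix n c + 1) = 2 * (2 ^ m * (ix n c + 1)) := by ring
    rw [← add_assoc, h1, h2, h3]
    split_ifs <;> omega

theorem ix_of_div {n m i j : ℕ} {c : J} (h : ix (n + m) c = 2 ^ m * i + j) (hj : j < 2 ^ m) :
    ix n c = i := by
  obtain ⟨h1, h2⟩ := ix_div n m c
  rw [h] at h1 h2
  have h3 : 2 ^ m * ix n c < 2 ^ m * (i + 1) := by
    rw [mul_add, mul_one]
    omega
  have h4 : 2 ^ m * i < 2 ^ m * (ix n c + 1) := by omega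
  have h5 := Nat.lt_of_mul_lt_mul_left h3
  have h6 := Nat.lt_of_mul_lt_mul_left h4
  omega

theorem cls_inf (n i : ℕ) (hi : i < 2 ^ n) : {c : J | ix n c = i}.Infinite := by
  obtain ⟨s, hs⟩ := ix_surj n i hi
  refine Set.infinite_of_injective_forall_mem (f := fun m : ℕ => (m, s)) ?_ hs
  intro m m' h
  exact (Prod.mk.inj h).1

theorem phi {H : Subgroup (Equiv.Perm J)} (h : H ∈ D.Φ) : ∃ n, H = Ker (ix n) := by
  obtain ⟨n, rfl⟩ := h
  exact ⟨n, rfl⟩

theorem phi' (n : ℕ) : Ker (ix n) ∈ D.Φ := ⟨n, rfl⟩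

theorem ker_mono {n m : ℕ} (h : n ≤ m) : Ker (ix m) ≤ Ker (ix n) := fun _ hτ x =>
  ix_mono n m h _ _ (hτ x)

/-- The case of an element that is moved. -/
theorem dyad_of_moved {X : U J} (hX : X ∈ (ofPD D).N) {E : Finset J} {n : ℕ}
    (hHX : Fx (fixP D E (Ker (ix n))) X) {x : U J} (hx : x ∈ X) {E' : Finset J} {n' : ℕ}
    (hE : E ⊆ E') (hn : n ≤ n') (hHx : Fx (fixP D E' (Ker (ix n'))) x) {a c₀ : J} (haE : a ∉ E)
    (hac : ix n a = ix n c₀)
    (hinj : ∀ c ∈ {c | ix n' c = ix n' c₀ ∧ c ∉ E' ∧ c ≠ a},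
      ∀ c' ∈ {c | ix n' c = ix n' c₀ ∧ c ∉ E' ∧ c ≠ a},
      act (Equiv.swap a c) x = act (Equiv.swap a c') x → c = c') : DyadInf (ofPD D).N X := by
  classical
  set C : Set J := {c | ix n' c = ix n' c₀ ∧ c ∉ E' ∧ c ≠ a} with hC
  have hCX : ∀ c ∈ C, act (Equiv.swap a c) x ∈ X := by
    intro c hc
    refine hHX.mem ⟨swap_mem_FS a c, swap_mem_Ker ?_, fun i hi => ?_⟩ hx
    · rw [hac]
      exact (ix_mono n n' hn _ _ hc.1).symm
    · refine Equiv.swap_apply_of_ne_of_ne ?_ ?_
      · rintro rfl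
        exact haE hi
      · rintro rfl
        exact hc.2.1 (hE hi)
  have hg : ∀ m, ∀ g ∈ fixP D (insert a E') (Ker (ix (n' + m))), g a = a ∧ act g x = x ∧
      (∀ c, g c ∈ C ↔ c ∈ C) := by
    rintro m g ⟨h1, h2, h3⟩
    have h4 : g a = a := h3 a (Finset.mem_insert_self _ _)
    have h2' : g ∈ Ker (ix n') := ker_mono (Nat.le_add_right n' m) h2
    refine ⟨h4, hHx g ⟨h1, h2', fun i hi => h3 i (Finset.mem_insert_of_mem hi)⟩, fun c => ?_⟩
    have h5 : ix n' (g c) = ix n' c := h2' c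
    have h6 : g c ∈ E' ↔ c ∈ E' := by
      constructor
      · intro h
        have h7 := h3 _ (Finset.mem_insert_of_mem h)
        rwa [g.injective h7] at h
      · intro h
        rwa [h3 _ (Finset.mem_insert_of_mem h)]
    have h7 : g c = a ↔ c = a := by
      constructor
      · intro h
        exact g.injective (h.trans h4.symm)
      · rintro rfl
        exact h4
    change (_ ∧ _ ∧ _) ↔ (_ ∧ _ ∧ _)
    rw [h5, h6, Ne, Ne, h7]
  have hH : ∀ m, fixP D (insert a E') (Ker (ix (n' + m))) ∈ (ofPD D).F := fun m =>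
    ⟨_, _, phi' _, rfl⟩
  have hHXm : ∀ m, Fx (fixP D (insert a E') (Ker (ix (n' + m)))) X := fun m =>
    hHX.mono (fixP_mono (hE.trans (Finset.subset_insert _ _)) (ker_mono (by omega)))
  let jx : ℕ → Option J → ℕ := fun m o => o.elim 0 fun c => ix (n' + m) c - 2 ^ m * ix n' c₀
  have hcod := fun m g (hgm : g ∈ fixP D (insert a E') (Ker (ix (n' + m)))) y =>
    cod_act (C := C) hinj (hg m g hgm).1 (hg m g hgm).2.1 (hg m g hgm).2.2 y
  refine dyadInf_of hX (hH 0) (hHXm 0) (fun m y => jx m (cod C a x y)) (fun m y => ?_)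
    (fun m y => ?_) (fun m i hi => ?_) (fun g hgm m => ?_) fun m i => ?_
  · change jx m (cod C a x y) < 2 ^ m
    cases h : cod C a x y with
    | none => exact Nat.pow_pos (by norm_num)
    | some c =>
      obtain ⟨⟨h1, -⟩, -⟩ := cod_spec h
      obtain ⟨h2, h3⟩ := ix_div n' m c
      change ix (n' + m) c - 2 ^ m * ix n' c₀ < 2 ^ m
      rw [h1] at h2 h3
      rw [mul_add, mul_one] at h3
      omega
  · change jx (m + 1) (cod C a x y) = 2 * jx m (cod C a x y) ∨
      jx (m + 1) (cod C a x y) = 2 * jx m (cod C a x y) + 1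
    cases h : cod C a x y with
    | none => exact Or.inl rfl
    | some c =>
      obtain ⟨⟨h1, -⟩, -⟩ := cod_spec h
      obtain ⟨h2, h3⟩ := ix_div n' m c
      change ix (n' + m + 1) c - 2 ^ (m + 1) * ix n' c₀ = 2 * (ix (n' + m) c - 2 ^ m * ix n' c₀) ∨
        ix (n' + m + 1) c - 2 ^ (m + 1) * ix n' c₀ =
          2 * (ix (n' + m) c - 2 ^ m * ix n' c₀) + 1
      have h4 : ix (n' + m + 1) c = 2 * ix (n' + m) c + if n' + m ∈ c.2 then 1 else 0 := rfl
      have h5 : (2 : ℕ) ^ (m + 1) * ix n' c₀ = 2 * (2 ^ m * ix n' c₀) := by ring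
      rw [h1] at h2
      rw [h4, h5]
      split_ifs
      · right
        omega
      · left
        omega
  · have h1 : {c : J | ix (n' + m) c = 2 ^ m * ix n' c₀ + i}.Infinite := by
      refine cls_inf _ _ ?_
      have h2 := ix_lt n' c₀
      calc 2 ^ m * ix n' c₀ + i < 2 ^ m * ix n' c₀ + 2 ^ m := by omega
        _ = 2 ^ m * (ix n' c₀ + 1) := by ring
        _ ≤ 2 ^ m * 2 ^ n' := Nat.mul_le_mul_left _ h2
        _ = 2 ^ (n' + m) := by rw [pow_add, mul_comm]
    have h2 := h1.sdiff (insert a E').finite_toSet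
    have hCi : ∀ c ∈ {c : J | ix (n' + m) c = 2 ^ m * ix n' c₀ + i} \ ↑(insert a E'), c ∈ C := by
      rintro c ⟨hc, hc'⟩
      refine ⟨ix_of_div hc hi, fun h => hc' (Finset.mem_coe.2 (Finset.mem_insert_of_mem h)), ?_⟩
      rintro rfl
      exact hc' (Finset.mem_coe.2 (Finset.mem_insert_self _ _))
    refine (h2.image (f := fun c => act (Equiv.swap a c) x) fun c hc c' hc' he =>
      hinj c (hCi c hc) c' (hCi c' hc') he).mono ?_
    rintro _ ⟨c, hc, rfl⟩
    refine ⟨hCX c (hCi c hc), ?_⟩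
    change jx m (cod C a x (act (Equiv.swap a c) x)) = i
    rw [cod_eq hinj (hCi c hc)]
    change ix (n' + m) c - 2 ^ m * ix n' c₀ = i
    rw [show ix (n' + m) c = 2 ^ m * ix n' c₀ + i from hc.1]
    omega
  · refine ((mem_FS.1 hgm.1).image fun c => act (Equiv.swap a c) x).subset ?_
    rintro y ⟨hy, hy'⟩
    change jx m (cod C a x (act g y)) ≠ jx m (cod C a x y) at hy'
    rw [hcod 0 g hgm] at hy'
    cases h : cod C a x y with
    | none =>
      rw [h] at hy'
      exact absurd rfl hy'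
    | some c =>
      obtain ⟨-, h2⟩ := cod_spec h
      refine ⟨c, fun h3 => hy' ?_, h2.symm⟩
      rw [h]
      change jx m (some (g c)) = jx m (some c)
      rw [h3]
  · refine sep_mem hX (hH m) fun g hgm y hy hQ => ⟨(hHXm m).mem hgm hy, ?_⟩
    change jx m (cod C a x (act g y)) = i
    have h0 : jx m (cod C a x y) = i := hQ
    rw [hcod m g hgm]
    cases h : cod C a x y with
    | none =>
      rw [h] at h0
      exact h0
    | some c =>
      rw [h] at h0
      change ix (n' + m) (g c) - 2 ^ m * ix n' c₀ = i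
      have h1 : ix (n' + m) (g c) = ix (n' + m) c := hgm.2.1 c
      rw [h1]
      exact h0

/-- Every infinite set is dyadically filterbase infinite. -/
theorem idfbi : IDFBI (ofPD D).N := by
  classical
  intro X hX hXs hinf
  rw [finIn_iff fun z hz => trans hX hz] at hinf
  obtain ⟨_, ⟨E, _, ⟨n, rfl⟩, rfl⟩, hHX⟩ := supp hX
  by_cases hall : ∀ x ∈ X, Fx (fixP D E (Ker (ix n))) x
  · obtain ⟨f, hf, hf'⟩ := exists_surj hinf hall
    exact dyadInf_of_surj hX ⟨_, _, phi' n, rfl⟩ hHX f hf hf'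
  · push Not at hall
    obtain ⟨x, hx, hnx⟩ := hall
    obtain ⟨_, ⟨E₁, _, ⟨n₁, rfl⟩, rfl⟩, hHx⟩ := supp (trans hX hx)
    set E' := E ∪ E₁ with hE'
    set n' := max n n₁ with hn'
    have hE : E ⊆ E' := Finset.subset_union_left
    have hn : n ≤ n' := le_max_left _ _
    have hHx' : Fx (fixP D E' (Ker (ix n'))) x :=
      hHx.mono (fixP_mono Finset.subset_union_right (ker_mono (le_max_right _ _)))
    by_contra hnd
    have h1 : ∀ a c₀ : J, a ∉ E → ix n a = ix n c₀ →
        {d | (ix n' d = ix n' c₀ ∧ d ∉ E' ∧ d ≠ a) ∧ act (Equiv.swap a d) x ≠ x}.Finite := by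
      intro a c₀ ha hac
      by_cases hinj : ∀ c ∈ {c | ix n' c = ix n' c₀ ∧ c ∉ E' ∧ c ≠ a},
        ∀ c' ∈ {c | ix n' c = ix n' c₀ ∧ c ∉ E' ∧ c ≠ a},
        act (Equiv.swap a c) x = act (Equiv.swap a c') x → c = c'
      · exact absurd (dyad_of_moved hX hHX hx hE hn hHx' ha hac hinj) hnd
      · push Not at hinj
        obtain ⟨c, hc, c', hc', he, hcc⟩ := hinj
        refine (Set.toFinite {c, c'}).subset fun d hd => ?_
        by_contra hdc
        rw [Set.mem_insert_iff, Set.mem_singleton_iff, not_or] at hdc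
        refine hd.2 (swap_fix (K := fixP D E' (Ker (ix n'))) hHx'
          (C := {c | ix n' c = ix n' c₀ ∧ c ∉ E' ∧ c ≠ a}) (fun u hu v hv => ?_) hc hc'
          (fun h => h.2.2 rfl) hcc he hd.1 hdc.1 hdc.2)
        refine ⟨swap_mem_FS u v, swap_mem_Ker (hu.1.trans hv.1.symm), fun i hi => ?_⟩
        refine Equiv.swap_apply_of_ne_of_ne ?_ ?_
        · rintro rfl
          exact hu.2.1 hi
        · rintro rfl
          exact hv.2.1 hi
    have h2 : ∀ a b : J, (a ∉ E ∧ b ∉ E ∧ ix n a = ix n b) → a ≠ b →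
        act (Equiv.swap a b) x = x := by
      rintro a b ⟨ha, hb, hab⟩ hne
      have h3 := (h1 a b ha hab).union (h1 b b hb rfl)
      have h4 := (cls_inf n' (ix n' b) (ix_lt n' b)).sdiff
        ((h3.union E'.finite_toSet).union (Set.toFinite {a, b}))
      obtain ⟨d, hd, hd'⟩ := h4.nonempty
      rw [Set.mem_union, Set.mem_union, Set.mem_union, not_or, not_or, not_or,
        Set.mem_insert_iff, Set.mem_singleton_iff, not_or] at hd'
      obtain ⟨⟨⟨h5, h6⟩, h7⟩, h8, h9⟩ := hd'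
      have h7' : d ∉ E' := fun h => h7 (Finset.mem_coe.2 h)
      refine swap_fix2 hne (Ne.symm h9) ?_ ?_
      · by_contra hc
        exact h5 ⟨⟨hd, h7', h8⟩, hc⟩
      · by_contra hc
        exact h6 ⟨⟨hd, h7', h9⟩, hc⟩
    apply hnx
    rintro τ ⟨hτ1, hτ2, hτ3⟩
    refine fs_gen (r := fun a b => a ∉ E ∧ b ∉ E ∧ ix n a = ix n b)
      (p := fun τ => act τ x = x) (fun a b c h h' => ⟨h.1, h'.2.1, h.2.2.trans h'.2.2⟩)
      (act_one x) (fun a b σ hr hab hσ => ?_) τ hτ1 fun z hz => ⟨fun h => hz (hτ3 z h),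
        fun h => hz ?_, (hτ2 z).symm⟩
    · rw [act_mul, hσ]
      exact h2 a b hr hab
    · exact τ.injective (hτ3 _ h)

/-- There is a permutation model of IDFBI with an infinite set that is weakly
Dedekind-finite. -/
theorem main : ∃ (A : Type) (N : Set (U A)), IsZFA N ∧ IDFBI N ∧ ¬ IWDI N :=
  ⟨J, (ofPD D).N, isZFA _, idfbi, fun h => not_wdInf of_D (h _ atoms_mem (isSet_mk _) atoms_inf)⟩

end Dya

end Pool.Agent.R598.FM
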