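import Pool.Agent.R598.FM.Defs

/-!
# Permutation models of set theory with atoms
-/

set_option autoImplicit false

namespace Pool.Agent.R598.FM

open U

variable {A : Type}

variable (A) in
/-- A group of permutations of the atoms with a base of a normal filter of subgroups. -/
structure FMS where
  /-- the group -/
  G : Subgroup (Equiv.Perm A)
  /-- the base of the filter -/
  F : Set (Subgroup (Equiv.Perm A))
  le : ∀ H ∈ F, H ≤ G
  ne : F.Nonempty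
  dir : ∀ H ∈ F, ∀ K ∈ F, ∃ L ∈ F, L ≤ H ∧ L ≤ K
  conj : ∀ H ∈ F, ∀ g ∈ G, ∃ K ∈ F, ∀ k ∈ K, g⁻¹ * k * g ∈ H
  atom : ∀ a, ∃ H ∈ F, ∀ g ∈ H, g a = a

namespace FMS

variable (S : FMS A)

/-- The group `H` fixes `x`. -/
def Fx (H : Subgroup (Equiv.Perm A)) (x : U A) : Prop := ∀ g ∈ H, act g x = x

/-- The hereditarily symmetric atoms and sets. -/
inductive HS : U A → Prop
  | intro (x : U A) (h : ∃ H ∈ S.F, Fx H x) (h' : ∀ y ∈ x, HS y) : HS x

/-- The permutation model. -/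
def N : Set (U A) := {x | S.HS x}

variable {S}

theorem mem_N {x : U A} : x ∈ S.N ↔ (∃ H ∈ S.F, Fx H x) ∧ ∀ y ∈ x, y ∈ S.N := by
  constructor
  · rintro ⟨_, h, h'⟩
    exact ⟨h, h'⟩
  · rintro ⟨h, h'⟩
    exact .intro x h h'

theorem supp {x : U A} (hx : x ∈ S.N) : ∃ H ∈ S.F, Fx H x := (mem_N.1 hx).1

theorem trans {x y : U A} (hx : x ∈ S.N) (hy : y ∈ x) : y ∈ S.N := (mem_N.1 hx).2 y hy

theorem Fx.mono {H K : Subgroup (Equiv.Perm A)} {x : U A} (h : Fx H x) (hK : K ≤ H) : Fx K x :=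
  fun g hg => h g (hK hg)

theorem fx_nat (H : Subgroup (Equiv.Perm A)) (n : ℕ) : Fx H (nat n : U A) := fun g _ => act_nat g n

theorem Fx.pair {H : Subgroup (Equiv.Perm A)} {x y : U A} (hx : Fx H x) (hy : Fx H y) :
    Fx H (pair x y) := fun g hg => by rw [act_pair, hx g hg, hy g hg]

theorem Fx.mem {H : Subgroup (Equiv.Perm A)} {x : U A} (h : Fx H x) {g : Equiv.Perm A}
    (hg : g ∈ H) {z : U A} (hz : z ∈ x) : act g z ∈ x := by
  have h1 := act_mem_act (g := g).2 hz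
  rwa [h g hg] at h1

theorem Fx.mem_iff {H : Subgroup (Equiv.Perm A)} {x : U A} (h : Fx H x) {g : Equiv.Perm A}
    (hg : g ∈ H) {z : U A} : act g z ∈ x ↔ z ∈ x := by
  refine ⟨fun hz => ?_, h.mem hg⟩
  have h1 := h.mem (H.inv_mem hg) hz
  rwa [act_inv_act] at h1

/-- A set is fixed by a subgroup if it is closed under it. -/
theorem fx_of {H : Subgroup (Equiv.Perm A)} {x : U A} (hx : IsSet x)
    (h : ∀ g ∈ H, ∀ z ∈ x, act g z ∈ x) : Fx H x := fun g hg =>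
  act_eq_self hx (h g hg) (h _ (H.inv_mem hg))

theorem mem_of {H : Subgroup (Equiv.Perm A)} {x : U A} (hx : IsSet x) (hN : ∀ y ∈ x, y ∈ S.N)
    (hH : H ∈ S.F) (h : ∀ g ∈ H, ∀ z ∈ x, act g z ∈ x) : x ∈ S.N :=
  mem_N.2 ⟨⟨H, hH, fx_of hx h⟩, hN⟩

/-- Two elements have a common support. -/
theorem supp2 {x y : U A} (hx : x ∈ S.N) (hy : y ∈ S.N) : ∃ H ∈ S.F, Fx H x ∧ Fx H y := by
  obtain ⟨H, hH, h1⟩ := supp hx
  obtain ⟨K, hK, h2⟩ := supp hy
  obtain ⟨L, hL, h3, h4⟩ := S.dir H hH K hK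
  exact ⟨L, hL, h1.mono h3, h2.mono h4⟩

theorem supp3 {x y z : U A} (hx : x ∈ S.N) (hy : y ∈ S.N) (hz : z ∈ S.N) :
    ∃ H ∈ S.F, Fx H x ∧ Fx H y ∧ Fx H z := by
  obtain ⟨H, hH, h1, h2⟩ := supp2 hx hy
  obtain ⟨K, hK, h3⟩ := supp hz
  obtain ⟨L, hL, h4, h5⟩ := S.dir H hH K hK
  exact ⟨L, hL, h1.mono h4, h2.mono h4, h3.mono h5⟩

theorem act_mem {g : Equiv.Perm A} (hg : g ∈ S.G) {x : U A} : x ∈ S.N → act g x ∈ S.N := by
  induction x using U.induction with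
  | h x ih =>
    intro hx
    obtain ⟨⟨H, hH, h⟩, h'⟩ := mem_N.1 hx
    obtain ⟨K, hK, h1⟩ := S.conj H hH g hg
    refine mem_N.2 ⟨⟨K, hK, fun k hk => ?_⟩, fun y hy => ?_⟩
    · have h2 := h _ (h1 k hk)
      rw [act_mul, act_mul] at h2
      have h3 := congrArg (act g) h2
      rwa [act_act_inv] at h3
    · obtain ⟨z, hz, rfl⟩ := mem_act.1 hy
      exact ih z hz (h' z hz)

theorem act_mem_iff {g : Equiv.Perm A} (hg : g ∈ S.G) {x : U A} : act g x ∈ S.N ↔ x ∈ S.N := by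
  refine ⟨fun h => ?_, act_mem hg⟩
  have h1 := act_mem (S.G.inv_mem hg) h
  rwa [act_inv_act] at h1

theorem sub_mem {x z : U A} (hx : x ∈ S.N) (hz : Sub z x) {H : Subgroup (Equiv.Perm A)}
    (hH : H ∈ S.F) (h : ∀ g ∈ H, ∀ w ∈ z, act g w ∈ z) : z ∈ S.N :=
  mem_of hz.1 (fun y hy => trans hx (hz.2 y hy)) hH h

theorem sep_mem {x : U A} (hx : x ∈ S.N) {Q : U A → Prop} {H : Subgroup (Equiv.Perm A)}
    (hH : H ∈ S.F) (h : ∀ g ∈ H, ∀ z ∈ x, Q z → act g z ∈ x ∧ Q (act g z)) : sep Q x ∈ S.N :=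
  mem_of (isSet_mk _) (fun _ hy => trans hx (mem_sep.1 hy).1) hH fun g hg z hz =>
    mem_sep.2 (h g hg z (mem_sep.1 hz).1 (mem_sep.1 hz).2)

theorem up_mem {x y : U A} (hx : x ∈ S.N) (hy : y ∈ S.N) : up x y ∈ S.N := by
  obtain ⟨H, hH, h1, h2⟩ := supp2 hx hy
  refine mem_N.2 ⟨⟨H, hH, fun g hg => by rw [act_up, h1 g hg, h2 g hg]⟩, fun z hz => ?_⟩
  rcases mem_up.1 hz with rfl | rfl
  · exact hx
  · exact hy

theorem pair_mem {x y : U A} (hx : x ∈ S.N) (hy : y ∈ S.N) : pair x y ∈ S.N :=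
  up_mem (up_mem hx hx) (up_mem hx hy)

theorem sUn_mem {x : U A} (hx : x ∈ S.N) : sUn x ∈ S.N := by
  obtain ⟨H, hH, h1⟩ := supp hx
  refine mem_N.2 ⟨⟨H, hH, fun g hg => by rw [act_sUn, h1 g hg]⟩, fun z hz => ?_⟩
  obtain ⟨y, hy, hz⟩ := mem_sUn.1 hz
  exact trans (trans hx hy) hz

theorem un_mem {x y : U A} (hx : x ∈ S.N) (hy : y ∈ S.N) : un x y ∈ S.N := sUn_mem (up_mem hx hy)

theorem emp_mem : (emp : U A) ∈ S.N := by
  obtain ⟨H, hH⟩ := S.ne
  exact mem_N.2 ⟨⟨H, hH, fun g _ => act_emp g⟩, fun y hy => (notMem_emp hy).elim⟩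

theorem nat_mem (n : ℕ) : (nat n : U A) ∈ S.N := by
  induction n with
  | zero => exact emp_mem
  | succ n ih => exact un_mem ih (up_mem ih ih)

theorem omega_mem : (omega : U A) ∈ S.N := by
  obtain ⟨H, hH⟩ := S.ne
  refine mem_of (isSet_mk _) (fun y hy => ?_) hH fun g _ z hz => ?_
  · obtain ⟨n, rfl⟩ := mem_omega.1 hy
    exact nat_mem n
  · obtain ⟨n, rfl⟩ := mem_omega.1 hz
    rw [act_nat]
    exact hz

theorem atom_mem (a : A) : (U.atom a) ∈ S.N := by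
  obtain ⟨H, hH, h⟩ := S.atom a
  refine mem_N.2 ⟨⟨H, hH, fun g hg => ?_⟩, fun y hy => (notMem_atom hy).elim⟩
  rw [act_atom, h g hg]

theorem atoms_mem : (atoms : U A) ∈ S.N := by
  obtain ⟨H, hH⟩ := S.ne
  refine mem_of (isSet_mk _) (fun y hy => ?_) hH fun g _ z hz => ?_
  · obtain ⟨a, rfl⟩ := mem_atoms.1 hy
    exact atom_mem a
  · obtain ⟨a, rfl⟩ := mem_atoms.1 hz
    exact mem_atoms.2 ⟨g a, act_atom g a⟩

theorem sub_act {g : Equiv.Perm A} {x y : U A} (h : Sub x y) : Sub (act g x) (act g y) := by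
  refine ⟨isSet_act h.1, fun z hz => ?_⟩
  obtain ⟨w, hw, rfl⟩ := mem_act.1 hz
  exact act_mem_act.2 (h.2 w hw)

/-- The power set in the model. -/
noncomputable def powN (S : FMS A) (x : U A) : U A := sep (fun z => z ∈ S.N) (pow x)

theorem mem_powN {x z : U A} : z ∈ powN S x ↔ z ∈ S.N ∧ Sub z x := by
  rw [powN, mem_sep, mem_pow, and_comm]

theorem powN_mem {x : U A} (hx : x ∈ S.N) : powN S x ∈ S.N := by
  obtain ⟨H, hH, h⟩ := supp hx
  refine mem_of (isSet_mk _) (fun y hy => (mem_powN.1 hy).1) hH fun g hg z hz => ?_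
  obtain ⟨h1, h2⟩ := mem_powN.1 hz
  refine mem_powN.2 ⟨act_mem (S.le H hH hg) h1, ?_⟩
  have h3 := sub_act (g := g) h2
  rwa [h g hg] at h3

/-! ### The model satisfies ZFA -/

open W868 (Fml TOver)

/-- Truth is invariant. -/
theorem sat_act {g : Equiv.Perm A} (hg : g ∈ S.G) : ∀ {n : ℕ} (φ : Fml (U A) n),
    φ.Over {x | act g x = x} → ∀ v : Fin n → U A,
      Sat S.N φ (fun i => act g (v i)) ↔ Sat S.N φ v := by
  have ht : ∀ {n : ℕ} (s : Fin n ⊕ U A), TOver {x | act g x = x} s → ∀ v : Fin n → U A,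
      Sum.elim (fun i => act g (v i)) id s = act g (Sum.elim v id s) := by
    intro n s hs v
    rcases s with i | a
    · rfl
    · exact (hs a rfl).symm
  intro n φ
  induction φ with
  | mem s t =>
    intro h v
    change Sum.elim (fun i => act g (v i)) id s ∈ Sum.elim (fun i => act g (v i)) id t ↔ _
    rw [ht s h.1, ht t h.2, act_mem_act]
    rfl
  | eq s t =>
    intro h v
    change Sum.elim (fun i => act g (v i)) id s = Sum.elim (fun i => act g (v i)) id t ↔ _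
    rw [ht s h.1, ht t h.2]
    exact ⟨act_inj, fun h => congrArg _ h⟩
  | neg φ ih =>
    intro h v
    exact not_congr (ih h v)
  | and φ ψ ih ih' =>
    intro h v
    exact and_congr (ih h.1 v) (ih' h.2 v)
  | ex φ ih =>
    intro h v
    have hc : ∀ a, (Fin.cons (act g a) fun i => act g (v i)) =
        fun i => act g ((Fin.cons a v : Fin _ → U A) i) := by
      intro a
      funext i
      refine Fin.cases ?_ (fun i => ?_) i
      · rfl
      · rfl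
    constructor
    · rintro ⟨a, ha, h1⟩
      refine ⟨act g⁻¹ a, act_mem (S.G.inv_mem hg) ha, ?_⟩
      rw [← ih h, ← hc, act_act_inv]
      exact h1
    · rintro ⟨a, ha, h1⟩
      refine ⟨act g a, act_mem hg ha, ?_⟩
      rw [← ih h, ← hc] at h1
      exact h1

theorem exists_over {n : ℕ} (φ : Fml (U A) n) (h : φ.Over S.N) :
    ∃ H ∈ S.F, ∀ g ∈ H, φ.Over {x | act g x = x} := by
  have ht : ∀ {n : ℕ} (s : Fin n ⊕ U A), TOver S.N s →
      ∃ H ∈ S.F, ∀ g ∈ H, TOver {x | act g x = x} s := by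
    intro n s hs
    rcases s with i | a
    · obtain ⟨H, hH⟩ := S.ne
      exact ⟨H, hH, fun g _ a ha => by cases ha⟩
    · obtain ⟨H, hH, h⟩ := supp (hs a rfl)
      refine ⟨H, hH, fun g hg b hb => ?_⟩
      cases hb
      exact h g hg
  induction φ with
  | mem s t =>
    obtain ⟨H, hH, h1⟩ := ht s h.1
    obtain ⟨K, hK, h2⟩ := ht t h.2
    obtain ⟨L, hL, h3, h4⟩ := S.dir H hH K hK
    exact ⟨L, hL, fun g hg => ⟨h1 g (h3 hg), h2 g (h4 hg)⟩⟩
  | eq s t =>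
    obtain ⟨H, hH, h1⟩ := ht s h.1
    obtain ⟨K, hK, h2⟩ := ht t h.2
    obtain ⟨L, hL, h3, h4⟩ := S.dir H hH K hK
    exact ⟨L, hL, fun g hg => ⟨h1 g (h3 hg), h2 g (h4 hg)⟩⟩
  | neg φ ih => exact ih h
  | and φ ψ ih ih' =>
    obtain ⟨H, hH, h1⟩ := ih h.1
    obtain ⟨K, hK, h2⟩ := ih' h.2
    obtain ⟨L, hL, h3, h4⟩ := S.dir H hH K hK
    exact ⟨L, hL, fun g hg => ⟨h1 g (h3 hg), h2 g (h4 hg)⟩⟩
  | ex φ ih => exact ih h

/-- The permutation model is a model of ZFA. -/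
theorem isZFA (S : FMS A) : IsZFA S.N where
  trans _ hx _ hy := trans hx hy
  atoms := atoms_mem
  pairing _ hx _ hy := up_mem hx hy
  union _ hx := sUn_mem hx
  infinity := omega_mem
  power x hx := ⟨powN S x, powN_mem hx, isSet_mk _, fun z => mem_powN⟩
  separation φ hφ x hx := by
    obtain ⟨H, hH, h1⟩ := exists_over φ hφ
    obtain ⟨K, hK, h2⟩ := supp hx
    obtain ⟨L, hL, h3, h4⟩ := S.dir H hH K hK
    refine ⟨sep (fun z => Sat S.N φ ![z]) x, sep_mem hx hL fun g hg z hz hQ => ⟨h2.mem (h4 hg) hz,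
      ?_⟩, isSet_mk _, fun z => mem_sep⟩
    rw [← sat_act (S.le L hL hg) φ (h1 g (h3 hg))] at hQ
    convert hQ using 1
    funext i
    refine Fin.cases ?_ (fun i => i.elim0) i
    rfl
  replacement φ hφ x hx hu := by
    classical
    obtain ⟨H, hH, h1⟩ := exists_over φ hφ
    obtain ⟨K, hK, h2⟩ := supp hx
    obtain ⟨L, hL, h3, h4⟩ := S.dir H hH K hK
    let F : U A → U A := fun z => if h : z ∈ x then (hu z h).choose else z
    have hF : ∀ z ∈ x, F z ∈ S.N ∧ Sat S.N φ ![z, F z] := by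
      intro z hz
      have h5 : F z = (hu z hz).choose := dif_pos hz
      rw [h5]
      exact (hu z hz).choose_spec.1
    have hF' : ∀ z ∈ x, ∀ w, w ∈ S.N → Sat S.N φ ![z, w] → w = F z := fun z hz w hw hw' =>
      (hu z hz).unique ⟨hw, hw'⟩ (hF z hz)
    have hm : ∀ w, w ∈ ims F x ↔ w ∈ S.N ∧ ∃ z ∈ x, Sat S.N φ ![z, w] := by
      intro w
      rw [mem_ims]
      constructor
      · rintro ⟨z, hz, rfl⟩
        exact ⟨(hF z hz).1, z, hz, (hF z hz).2⟩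
      · rintro ⟨hw, z, hz, h⟩
        exact ⟨z, hz, hF' z hz w hw h⟩
    refine ⟨ims F x, mem_of (isSet_mk _) (fun y hy => ((hm y).1 hy).1) hL fun g hg w hw => ?_,
      isSet_mk _, hm⟩
    obtain ⟨hwN, z, hz, h⟩ := (hm w).1 hw
    refine (hm _).2 ⟨act_mem (S.le L hL hg) hwN, act g z, h2.mem (h4 hg) hz, ?_⟩
    rw [← sat_act (S.le L hL hg) φ (h1 g (h3 hg))] at h
    convert h using 1
    funext i
    refine Fin.cases ?_ (fun i => ?_) i
    · rfl
    · refine Fin.cases ?_ (fun i => i.elim0) i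
      rfl

/-! ### Finite sets -/

theorem notMem_fin {n : ℕ} {f Y : U A} (hf : IsBij Y (nat n) f) : {z | z ∈ Y}.Finite := by
  classical
  obtain ⟨⟨⟨-, h1, h2⟩, h3⟩, -⟩ := hf
  have h4 : ∀ z, ∃ k, z ∈ Y → k < n ∧ pair z (nat k) ∈ f := by
    intro z
    by_cases hz : z ∈ Y
    · obtain ⟨w, hw, -⟩ := h2 z hz
      obtain ⟨a, ha, b, hb, he⟩ := h1 _ hw
      obtain ⟨rfl, rfl⟩ := pair_inj.1 he
      obtain ⟨k, hk, rfl⟩ := mem_nat.1 hb
      exact ⟨k, fun _ => ⟨hk, hw⟩⟩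
    · exact ⟨0, fun h => absurd h hz⟩
  choose k hk using h4
  refine Set.Finite.of_finite_image (f := k) ((Set.finite_Iio n).subset ?_) ?_
  · rintro _ ⟨z, hz, rfl⟩
    exact (hk z hz).1
  · intro z hz z' hz' he
    have h5 := (hk z hz).2
    rw [he] at h5
    exact h3 _ _ _ h5 (hk z' hz').2

/-- Finite families of elements have a common support. -/
theorem supp_fin {s : Set (U A)} (hs : s.Finite) : (∀ x ∈ s, x ∈ S.N) →
    ∃ H ∈ S.F, ∀ x ∈ s, Fx H x := by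
  induction s, hs using Set.Finite.induction_on with
  | empty =>
    intro _
    obtain ⟨H, hH⟩ := S.ne
    exact ⟨H, hH, fun x hx => hx.elim⟩
  | @insert a s _ _ ih =>
    intro h
    obtain ⟨H, hH, h1⟩ := ih fun x hx => h x (Or.inr hx)
    obtain ⟨K, hK, h2⟩ := supp (h a (Or.inl rfl))
    obtain ⟨L, hL, h3, h4⟩ := S.dir H hH K hK
    refine ⟨L, hL, ?_⟩
    rintro x (rfl | hx)
    · exact h2.mono h4
    · exact (h1 x hx).mono h3

/-- The finite sets in the model. -/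
theorem finIn_iff {Y : U A} (hY : ∀ z ∈ Y, z ∈ S.N) : FinIn S.N Y ↔ {z | z ∈ Y}.Finite := by
  constructor
  · rintro ⟨n, f, -, hf⟩
    exact notMem_fin hf
  · intro h
    obtain ⟨H, hH, h1⟩ := supp_fin h hY
    have : Finite {z // z ∈ Y} := h.to_subtype
    obtain ⟨n, ⟨e⟩⟩ := Finite.exists_equiv_fin {z // z ∈ Y}
    let f : U A := U.mk fun i : Fin n => pair (e.symm i).1 (nat i.1)
    have hmem : ∀ z k, pair z k ∈ f ↔ ∃ i : Fin n, z = (e.symm i).1 ∧ k = nat i.1 := by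
      intro z k
      rw [mem_mk]
      exact exists_congr fun i => pair_inj
    refine ⟨n, f, mem_N.2 ⟨⟨H, hH, fun g hg => ?_⟩, fun y hy => ?_⟩, ⟨⟨isSet_mk _, fun z hz => ?_,
      fun a ha => ?_⟩, fun a b c ha hb => ?_⟩, fun b hb => ?_⟩
    · rw [act_mk]
      congr 1
      funext i
      rw [act_pair, act_nat, h1 _ (e.symm i).2 g hg]
    · obtain ⟨i, rfl⟩ := mem_mk.1 hy
      exact pair_mem (hY _ (e.symm i).2) (nat_mem _)
    · obtain ⟨i, rfl⟩ := mem_mk.1 hz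
      exact ⟨_, (e.symm i).2, _, mem_nat.2 ⟨_, i.2, rfl⟩, rfl⟩
    · refine ⟨nat (e ⟨a, ha⟩).1, (hmem _ _).2 ⟨_, ?_, rfl⟩, fun b hb => ?_⟩
      · rw [Equiv.symm_apply_apply]
      · obtain ⟨i, h2, rfl⟩ := (hmem _ _).1 hb
        have h3 : e ⟨a, ha⟩ = i := by
          rw [← Equiv.eq_symm_apply]
          exact Subtype.ext h2
        rw [h3]
    · obtain ⟨i, rfl, rfl⟩ := (hmem _ _).1 ha
      obtain ⟨j, rfl, h2⟩ := (hmem _ _).1 hb
      rw [Fin.ext (nat_inj h2)]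
    · obtain ⟨k, hk, rfl⟩ := mem_nat.1 hb
      exact ⟨_, (e.symm ⟨k, hk⟩).2, (hmem _ _).2 ⟨⟨k, hk⟩, rfl, rfl⟩⟩

end FMS

end Pool.Agent.R598.FM
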