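import Pool.Agent.R598.FM.Crit
import Pool.Agent.R598.PM.Dy

/-!
# Permutation models of ZFA: further criteria
-/

set_option autoImplicit false

namespace Pool.Agent.R598.FM

open U FMS
open Pool.Agent.R598.PM (PD OF Sup FS mem_FS Ker mkPD)

section

variable {A : Type} {S : FMS A}

/-- A set that is mapped onto `ω` is dyadically filterbase infinite. -/
theorem dyadInf_of_surj {X : U A} (hX : X ∈ S.N) {H : Subgroup (Equiv.Perm A)} (hH : H ∈ S.F)
    (hHX : Fx H X) (f : U A → ℕ) (hf : ∀ g ∈ H, ∀ x ∈ X, f (act g x) = f x)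
    (hs : ∀ k, ∃ x ∈ X, f x = k) : DyadInf S.N X := by
  obtain ⟨e⟩ : Nonempty (ℕ ≃ ℕ × Finset ℕ) := ⟨(Denumerable.eqv _).symm⟩
  refine dyadInf_of hX hH hHX (fun n y => PM.Dy.ix n (e (f y))) (fun n y => PM.Dy.ix_lt n _)
    (fun n y => ?_) (fun n i hi => ?_) (fun g hg n => ?_) fun n i => ?_
  · have h1 : PM.Dy.ix (n + 1) (e (f y)) = 2 * PM.Dy.ix n (e (f y)) +
      if n ∈ (e (f y)).2 then 1 else 0 := rfl
    rw [h1]
    split_ifs
    · exact Or.inr rfl
    · exact Or.inl rfl
  · obtain ⟨s, hs'⟩ := PM.Dy.ix_surj n i hi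
    choose x hx hx' using hs
    refine Set.infinite_of_injective_forall_mem (f := fun m : ℕ => x (e.symm (m, s))) ?_ fun m => ?_
    · intro m m' h
      have h1 := congrArg f h
      simp only [hx'] at h1
      exact (Prod.mk.inj (e.symm.injective h1)).1
    · refine ⟨hx _, ?_⟩
      change PM.Dy.ix n (e (f (x (e.symm (m, s))))) = i
      rw [hx', Equiv.apply_symm_apply, hs']
  · refine Set.finite_empty.subset fun x hx => ?_
    have h1 := hf g hg x hx.1
    exact hx.2 (by rw [h1])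
  · refine sep_mem hX hH fun g hg z hz hQ => ⟨hHX.mem hg hz, ?_⟩
    change PM.Dy.ix n (e (f (act g z))) = i
    rw [hf g hg z hz]
    exact hQ

/-- A set that is mapped onto `ω` is strongly filterbase infinite. -/
theorem strongInf_of_surj {X : U A} (hX : X ∈ S.N) {H : Subgroup (Equiv.Perm A)} (hH : H ∈ S.F)
    (hHX : Fx H X) (f : U A → ℕ) (hf : ∀ g ∈ H, ∀ x ∈ X, f (act g x) = f x)
    (hs : ∀ k, ∃ x ∈ X, f x = k) : StrongInf S.N X := by
  refine strongInf_of hX hH hHX (fun j => sep (fun x => (f x).unpair.1 = j) X) (fun j => ?_)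
    (fun j => ⟨isSet_mk _, fun z hz => (mem_sep.1 hz).1⟩) (fun j => ?_) (fun i j hij => ?_)
    fun g hg j => ?_
  · refine sep_mem hX hH fun g hg z hz hQ => ⟨hHX.mem hg hz, ?_⟩
    rw [hf g hg z hz]
    exact hQ
  · choose x hx hx' using hs
    refine Set.infinite_of_injective_forall_mem (f := fun m : ℕ => x (Nat.pair j m)) ?_ fun m => ?_
    · intro m m' h
      have h1 := congrArg f h
      simp only [hx'] at h1
      have h2 := congrArg (fun k => (Nat.unpair k).2) h1
      simpa using h2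
    · refine mem_sep.2 ⟨hx _, ?_⟩
      rw [hx', Nat.unpair_pair]
  · refine Set.finite_empty.subset fun x hx => hij ?_
    rw [← (mem_sep.1 hx.1).2, ← (mem_sep.1 hx.2).2]
  · have h1 : act g (sep (fun x => (f x).unpair.1 = j) X) = sep (fun x => (f x).unpair.1 = j) X := by
      refine fx_of (H := H) (x := sep (fun x => (f x).unpair.1 = j) X) (isSet_mk _)
        (fun g hg z hz => ?_) g hg
      obtain ⟨h2, h3⟩ := mem_sep.1 hz
      exact mem_sep.2 ⟨hHX.mem hg h2, by rw [hf g hg z h2, h3]⟩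
    rw [h1]
    exact Fq.refl _

/-- An infinite set whose elements have a common support is mapped onto `ω`. -/
theorem exists_surj {X : U A} {H : Subgroup (Equiv.Perm A)} (hinf : {z | z ∈ X}.Infinite)
    (hfx : ∀ x ∈ X, Fx H x) : ∃ f : U A → ℕ, (∀ g ∈ H, ∀ x ∈ X, f (act g x) = f x) ∧
      ∀ k, ∃ x ∈ X, f x = k := by
  classical
  have hinf' : Infinite {z // z ∈ X} := hinf.to_subtype
  let s : ℕ ↪ {z // z ∈ X} := Infinite.natEmbedding _
  refine ⟨fun y => if h : ∃ k, (s k).1 = y then h.choose else 0, fun g hg x hx => ?_, fun k => ?_⟩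
  · rw [hfx x hx g hg]
  · refine ⟨(s k).1, (s k).2, ?_⟩
    have h1 : ∃ k', (s k').1 = (s k).1 := ⟨k, rfl⟩
    simp only [dif_pos h1]
    exact s.injective (Subtype.ext h1.choose_spec)

end

/-! ### Permutation models with finite supports -/

section

variable {I : Type}

/-- The subgroup given by a finite set and a member of the basis of the filter. -/
def fixP (D : PD I) (E : Finset I) (H : Subgroup (Equiv.Perm I)) : Subgroup (Equiv.Perm I) where
  carrier := {τ | τ ∈ D.T ∧ τ ∈ H ∧ ∀ i ∈ E, τ i = i}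
  mul_mem' := by
    rintro τ σ ⟨h1, h2, h3⟩ ⟨h1', h2', h3'⟩
    refine ⟨D.T.mul_mem h1 h1', H.mul_mem h2 h2', fun i hi => ?_⟩
    rw [Equiv.Perm.mul_apply, h3' i hi, h3 i hi]
  one_mem' := ⟨D.T.one_mem, H.one_mem, fun _ _ => rfl⟩
  inv_mem' := by
    rintro τ ⟨h1, h2, h3⟩
    refine ⟨D.T.inv_mem h1, H.inv_mem h2, fun i hi => ?_⟩
    rw [Equiv.Perm.inv_eq_iff_eq, h3 i hi]

theorem mem_fixP {D : PD I} {E : Finset I} {H : Subgroup (Equiv.Perm I)} {τ : Equiv.Perm I} :
    τ ∈ fixP D E H ↔ τ ∈ D.T ∧ τ ∈ H ∧ ∀ i ∈ E, τ i = i := Iff.rfl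

theorem fixP_mono {D : PD I} {E E' : Finset I} {H H' : Subgroup (Equiv.Perm I)} (hE : E ⊆ E')
    (hH : H' ≤ H) : fixP D E' H' ≤ fixP D E H :=
  fun _ h => ⟨h.1, hH h.2.1, fun i hi => h.2.2 i (hE hi)⟩

open Classical in
/-- The permutation model. -/
noncomputable def ofPD (D : PD I) : FMS I where
  G := D.T
  F := {K | ∃ E : Finset I, ∃ H ∈ D.Φ, K = fixP D E H}
  le := by
    rintro _ ⟨E, H, -, rfl⟩ τ h
    exact h.1
  ne := by
    obtain ⟨H, hH⟩ := D.ne
    exact ⟨_, ∅, H, hH, rfl⟩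
  dir := by
    rintro _ ⟨E, H, hH, rfl⟩ _ ⟨E', H', hH', rfl⟩
    obtain ⟨L, hL, h1, h2⟩ := D.dir H hH H' hH'
    exact ⟨_, ⟨E ∪ E', L, hL, rfl⟩, fixP_mono Finset.subset_union_left h1,
      fixP_mono Finset.subset_union_right h2⟩
  conj := by
    rintro _ ⟨E, H, hH, rfl⟩ τ hτ
    obtain ⟨E₀, K, hK, h1⟩ := D.conj H hH τ hτ
    refine ⟨_, ⟨E.image τ ∪ E₀, K, hK, rfl⟩, ?_⟩
    rintro κ ⟨hκ, hκK, hfix⟩
    refine ⟨D.T.mul_mem (D.T.mul_mem (D.T.inv_mem hτ) hκ) hτ, h1 κ hκ hκK fun i hi =>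
      hfix i (Finset.mem_union_right _ hi), fun i hi => ?_⟩
    have h2 := hfix (τ i) (Finset.mem_union_left _ (Finset.mem_image_of_mem _ hi))
    change τ.symm (κ (τ i)) = i
    rw [h2, Equiv.symm_apply_apply]
  atom := by
    intro a
    obtain ⟨H, hH⟩ := D.ne
    exact ⟨_, ⟨{a}, H, hH, rfl⟩, fun g hg => hg.2.2 a (Finset.mem_singleton_self a)⟩

theorem mem_F {D : PD I} {K : Subgroup (Equiv.Perm I)} :
    K ∈ (ofPD D).F ↔ ∃ E : Finset I, ∃ H ∈ D.Φ, K = fixP D E H := Iff.rfl

/-- The set of all atoms is infinite. -/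
theorem atoms_inf [Infinite I] {S : FMS I} : ¬ FinIn S.N (atoms : U I) := by
  rw [finIn_iff fun z hz => trans atoms_mem hz]
  refine Set.infinite_of_injective_forall_mem (f := (atom : I → U I)) (fun a b h => atom_inj h)
    fun a => mem_atoms.2 ⟨a, rfl⟩

/-- The set of all atoms is weakly Dedekind-finite. -/
theorem not_wdInf {D : PD I} (hof : OF D) : ¬ WDInf (ofPD D).N (atoms : U I) := by
  rintro ⟨Q, -, hQ', f, hf, ⟨-, h1, h2⟩, h3⟩
  obtain ⟨_, ⟨E, H, hH, rfl⟩, hE⟩ := supp hf
  have key : ∀ n : ℕ, ∃ X, pair (nat n) X ∈ f ∧ Sub X atoms ∧ Fx (fixP D E H) X := by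
    intro n
    obtain ⟨X, hX, hu⟩ := h2 (nat n) (mem_omega.2 ⟨n, rfl⟩)
    obtain ⟨a, -, b, hb, he⟩ := h1 _ hX
    obtain ⟨rfl, rfl⟩ := pair_inj.1 he
    refine ⟨X, hX, ((hQ' X).1 hb).2, fun g hg => hu _ ?_⟩
    have h4 := hE.mem hg hX
    rwa [act_pair, act_nat] at h4
  choose X hX hXs hXf using key
  have hfin := hof.finite E hH
  refine Set.infinite_univ (α := ℕ) (Set.Finite.of_finite_image
    (f := fun n => {i : I | atom i ∈ X n}) (hfin.subset ?_) ?_)
  · rintro _ ⟨n, -, rfl⟩ τ h4 h5 h6 i hi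
    have hi' : U.atom i ∈ X n := hi
    have h7 := (hXf n).mem (g := τ) ⟨h4, h5, h6⟩ hi'
    rwa [act_atom] at h7
  · intro n _ m _ hnm
    have h4 : X n = X m := by
      refine U.ext (hXs n).1 (hXs m).1 fun z => ?_
      have h5 : ∀ i, atom i ∈ X n ↔ atom i ∈ X m := fun i => Set.ext_iff.1 hnm i
      constructor
      · intro hz
        obtain ⟨i, rfl⟩ := mem_atoms.1 ((hXs n).2 z hz)
        exact (h5 i).1 hz
      · intro hz
        obtain ⟨i, rfl⟩ := mem_atoms.1 ((hXs m).2 z hz)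
        exact (h5 i).2 hz
    have h6 := hX n
    rw [h4] at h6
    exact nat_inj (h3 _ _ _ h6 (hX m))

/-- Finitely supported permutations are products of transpositions. -/
theorem fs_gen {r : I → I → Prop} (ht : ∀ a b c, r a b → r b c → r a c) [DecidableEq I] {p : Equiv.Perm I → Prop} (h1 : p 1)
    (hm : ∀ a b σ, r a b → a ≠ b → p σ → p (Equiv.swap a b * σ)) :
    ∀ τ ∈ FS I, (∀ z, τ z ≠ z → r z (τ z)) → p τ := by
  have key : ∀ n, ∀ τ : Equiv.Perm I, {z | τ z ≠ z}.Finite → {z | τ z ≠ z}.ncard ≤ n →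
      (∀ z, τ z ≠ z → r z (τ z)) → p τ := by
    intro n
    induction n with
    | zero =>
      intro τ hτ hn _
      have h2 : {z | τ z ≠ z} = ∅ := (Set.ncard_eq_zero hτ).1 (by omega)
      have h3 : τ = 1 := by
        ext z
        by_contra hz
        have h4 : z ∈ {z | τ z ≠ z} := hz
        rw [h2] at h4
        exact h4
      rw [h3]
      exact h1
    | succ n ih =>
      intro τ hτ hn hr
      by_cases h2 : ∃ a, τ a ≠ a
      · obtain ⟨a, ha⟩ := h2
        set σ := Equiv.swap a (τ a) * τ with hσ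
        have h3 : σ a = a := by
          rw [hσ, Equiv.Perm.mul_apply, Equiv.swap_apply_right]
        have h4 : ∀ z, z ≠ a → τ z = a → σ z = τ a := by
          intro z _ hz'
          rw [hσ, Equiv.Perm.mul_apply, hz', Equiv.swap_apply_left]
        have h5 : ∀ z, z ≠ a → τ z ≠ a → σ z = τ z := by
          intro z hz hz'
          rw [hσ, Equiv.Perm.mul_apply]
          exact Equiv.swap_apply_of_ne_of_ne hz' fun h => hz (τ.injective h)
        have h6 : {z | σ z ≠ z} ⊆ {z | τ z ≠ z} \ {a} := by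
          intro z hz
          have hza : z ≠ a := fun h => hz (by rw [h, h3])
          refine ⟨fun h7 => ?_, hza⟩
          by_cases h8 : τ z = a
          · exact hza (h7.symm.trans h8)
          · exact hz ((h5 z hza h8).trans h7)
        have h7 : p σ := by
          refine ih σ (hτ.subset fun z hz => (h6 hz).1) ?_ fun z hz => ?_
          · have h8 : ({z | τ z ≠ z} \ {a}).ncard < {z | τ z ≠ z}.ncard :=
              Set.ncard_sdiff_singleton_lt_of_mem ha hτ
            have h9 := Set.ncard_le_ncard h6 (hτ.subset Set.sdiff_subset)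
            omega
          · have hza : z ≠ a := fun h => hz (by rw [h, h3])
            by_cases h8 : τ z = a
            · rw [h4 z hza h8]
              have h9 := hr z (fun h => hza (h.symm.trans h8))
              rw [h8] at h9
              exact ht _ _ _ h9 (hr a ha)
            · rw [h5 z hza h8]
              exact hr z fun h => hz ((h5 z hza h8).trans h)
        have h8 : τ = Equiv.swap a (τ a) * σ := by
          rw [hσ, Equiv.swap_mul_self_mul]
        rw [h8]
        exact hm _ _ _ (hr a ha) (Ne.symm ha) h7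
      · push Not at h2
        have h3 : τ = 1 := by
          ext z
          exact h2 z
        rw [h3]
        exact h1
  intro τ hτ hr
  exact key _ τ (mem_FS.1 hτ) le_rfl hr

/-- If the elements that are moved by transpositions are never distinct, then transpositions fix
`x`. -/
theorem swap_fix [DecidableEq I] {x : U I} {K : Subgroup (Equiv.Perm I)} (hK : Fx K x) {a : I}
    {C : Set I} (hC : ∀ c ∈ C, ∀ d ∈ C, Equiv.swap c d ∈ K) {c c' : I} (hc : c ∈ C) (hc' : c' ∈ C)
    (ha : a ∉ C) (hcc : c ≠ c') (h : act (Equiv.swap a c) x = act (Equiv.swap a c') x) {d : I}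
    (hd : d ∈ C) (hdc : d ≠ c) (hdc' : d ≠ c') : act (Equiv.swap a d) x = x := by
  have hac : a ≠ c := fun h => ha (h ▸ hc)
  have hac' : a ≠ c' := fun h => ha (h ▸ hc')
  have had : a ≠ d := fun h => ha (h ▸ hd)
  set k := Equiv.swap a c * Equiv.swap a c' with hk
  have h1 : act k x = x := by
    have h2 : act (Equiv.swap a c) (act (Equiv.swap a c) x) = x := by
      rw [← act_mul, Equiv.swap_mul_self, act_one]
    rw [hk, act_mul, ← h, h2]
  have h2 : k a = c' := by
    rw [hk, Equiv.Perm.mul_apply, Equiv.swap_apply_left]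
    exact Equiv.swap_apply_of_ne_of_ne hac'.symm hcc.symm
  have h3 : k d = d := by
    rw [hk, Equiv.Perm.mul_apply, Equiv.swap_apply_of_ne_of_ne had.symm hdc',
      Equiv.swap_apply_of_ne_of_ne had.symm hdc]
  have h4 : k * Equiv.swap a d = Equiv.swap c' d * k := by
    rw [Equiv.mul_swap_eq_swap_mul, h2, h3]
  have h5 : act k (act (Equiv.swap a d) x) = act k x := by
    rw [← act_mul, h4, act_mul, h1, hK _ (hC c' hc' d hd)]
  exact act_inj h5

theorem swap_fix2 [DecidableEq I] {x : U I} {a b d : I} (hab : a ≠ b) (hbd : b ≠ d)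
    (h1 : act (Equiv.swap a d) x = x) (h2 : act (Equiv.swap b d) x = x) :
    act (Equiv.swap a b) x = x := by
  have h3 : Equiv.swap a d * Equiv.swap b d = Equiv.swap b a * Equiv.swap a d := by
    rw [Equiv.mul_swap_eq_swap_mul, Equiv.swap_apply_of_ne_of_ne hab.symm hbd,
      Equiv.swap_apply_right]
  have h4 : act (Equiv.swap b a) x = x := by
    have h5 : act (Equiv.swap b a) (act (Equiv.swap a d) x) =
        act (Equiv.swap a d) (act (Equiv.swap b d) x) := by
      rw [← act_mul, ← act_mul, h3]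
    rwa [h1, h2, h1] at h5
  rwa [Equiv.swap_comm] at h4

end

end Pool.Agent.R598.FM
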