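import Mathlib

/-!
# Homeomorphisms of the Cantor cube do not act on totally bounded spaces
-/

set_option autoImplicit false

namespace Pool.Agent.R598.FM.Sw

open Topology OnePoint

/-! ### The infinite swindle -/

section Abstract

variable {Y : Type} [TopologicalSpace Y] {σ : Y → Y}

/-- The complement of the range. -/
abbrev Cc (σ : Y → Y) : Type := {c : Y // c ∉ Set.range σ}

/-- The copies of the complement of the range. -/
def emb (σ : Y → Y) (t : ℕ × Cc σ) : Y := σ^[t.1] t.2.1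

theorem iter_open (hσ : IsOpenEmbedding σ) (n : ℕ) : IsOpenEmbedding σ^[n] := by
  induction n with
  | zero => exact IsOpenEmbedding.id
  | succ n ih =>
    rw [Function.iterate_succ]
    exact ih.comp hσ

theorem emb_inj (hσ : IsOpenEmbedding σ) : Function.Injective (emb σ) := by
  have key : ∀ (i j : ℕ) (c c' : Cc σ), i ≤ j → σ^[i] c.1 = σ^[j] c'.1 → i = j := by
    intro i j c c' hij h
    by_contra hne
    obtain ⟨d, rfl⟩ : ∃ d, j = i + (d + 1) := ⟨j - i - 1, by omega⟩
    rw [Function.iterate_add_apply] at h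
    have h1 := (iter_open hσ i).injective h
    rw [Function.iterate_succ_apply'] at h1
    exact c.2 ⟨_, h1.symm⟩
  rintro ⟨i, c⟩ ⟨j, c'⟩ h
  change σ^[i] c.1 = σ^[j] c'.1 at h
  have hij : i = j := by
    rcases le_total i j with h1 | h1
    · exact key i j c c' h1 h
    · exact (key j i c' c h1 h.symm).symm
  subst hij
  have h2 := (iter_open hσ i).injective h
  rw [Prod.mk.injEq]
  exact ⟨rfl, Subtype.ext h2⟩

theorem emb_open (hσ : IsOpenEmbedding σ) (hcl : IsClosed (Set.range σ)) :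
    IsOpenEmbedding (emb σ) := by
  refine IsOpenEmbedding.of_continuous_injective_isOpenMap ?_ (emb_inj hσ) ?_
  · rw [continuous_prod_of_discrete_left]
    intro i
    exact (iter_open hσ i).continuous.comp continuous_subtype_val
  · intro W hW
    have h1 : emb σ '' W = ⋃ i : ℕ, σ^[i] '' (Subtype.val '' {c : Cc σ | (i, c) ∈ W}) := by
      ext y
      constructor
      · rintro ⟨⟨i, c⟩, hc, rfl⟩
        exact Set.mem_iUnion.2 ⟨i, c.1, ⟨c, hc, rfl⟩, rfl⟩
      · intro hy
        obtain ⟨i, _, ⟨c, hc, rfl⟩, rfl⟩ := Set.mem_iUnion.1 hy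
        exact ⟨(i, c), hc, rfl⟩
    rw [h1]
    refine isOpen_iUnion fun i => (iter_open hσ i).isOpenMap _ ?_
    have h2 : IsOpen {y : Y | y ∉ Set.range σ} := hcl.isOpen_compl
    exact h2.isOpenEmbedding_subtypeVal.isOpenMap _ (hW.preimage (by fun_prop))

theorem emb_range {y₀ : Y} (hσ : IsOpenEmbedding σ)
    (h0 : ∀ z, (∀ i, z ∈ Set.range σ^[i]) ↔ z = y₀) : Set.range (emb σ) = {y₀}ᶜ := by
  classical
  ext z
  rw [Set.mem_compl_iff, Set.mem_singleton_iff, ← h0]
  constructor
  · rintro ⟨⟨i, c⟩, rfl⟩ h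
    obtain ⟨w, hw⟩ := h (i + 1)
    rw [Function.iterate_succ_apply] at hw
    exact c.2 ⟨w, (iter_open hσ i).injective hw⟩
  · intro h
    push Not at h
    have h1 := Nat.find_spec h
    have h2 := fun m => Nat.find_min h (m := m)
    set i := Nat.find h
    rcases Nat.eq_zero_or_pos i with h3 | h3
    · rw [h3] at h1
      exact absurd ⟨z, rfl⟩ h1
    · obtain ⟨k, hk⟩ : ∃ k, i = k + 1 := ⟨i - 1, by omega⟩
      obtain ⟨w, hw⟩ := not_not.1 (h2 k (by omega))
      refine ⟨(k, ⟨w, fun h4 => h1 ?_⟩), hw⟩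
      obtain ⟨v, rfl⟩ := h4
      exact ⟨v, by rw [hk, Function.iterate_succ_apply]; exact hw⟩

variable [CompactSpace Y] [T2Space Y]

/-- The space is a one-point compactification. -/
noncomputable def EE (hσ : IsOpenEmbedding σ) (hcl : IsClosed (Set.range σ)) {y₀ : Y}
    (h0 : ∀ z, (∀ i, z ∈ Set.range σ^[i]) ↔ z = y₀) : OnePoint (ℤ × Cc σ) ≃ₜ Y :=
  (Homeomorph.onePointCongr ((Homeomorph.mk Equiv.intEquivNat continuous_of_discreteTopology
    continuous_of_discreteTopology).prodCongr (Homeomorph.refl _))).trans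
      (OnePoint.equivOfIsEmbeddingOfRangeEq y₀ (emb σ) (emb_open hσ hcl).isEmbedding
        (emb_range hσ h0))

/-- The blockwise homeomorphism. -/
def bl (s : ℤ → (Cc σ ≃ₜ Cc σ)) : ℤ × Cc σ ≃ₜ ℤ × Cc σ where
  toFun t := (t.1, s t.1 t.2)
  invFun t := (t.1, (s t.1).symm t.2)
  left_inv := by
    rintro ⟨j, c⟩
    simp
  right_inv := by
    rintro ⟨j, c⟩
    simp
  continuous_toFun := by
    rw [continuous_prod_of_discrete_left]
    intro j
    exact Continuous.prodMk continuous_const (s j).continuous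
  continuous_invFun := by
    rw [continuous_prod_of_discrete_left]
    intro j
    exact Continuous.prodMk continuous_const (s j).symm.continuous

/-- The shift. -/
def sh (n : ℤ) : ℤ × Cc σ ≃ₜ ℤ × Cc σ where
  toFun t := (t.1 + n, t.2)
  invFun t := (t.1 - n, t.2)
  left_inv := by
    rintro ⟨j, c⟩
    simp
  right_inv := by
    rintro ⟨j, c⟩
    simp
  continuous_toFun := by fun_prop
  continuous_invFun := by fun_prop

omit [CompactSpace Y] [T2Space Y] in
theorem sh_pow (n : ℕ) : (sh 1 : ℤ × Cc σ ≃ₜ ℤ × Cc σ) ^ n = sh n := by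
  induction n with
  | zero =>
    refine Homeomorph.ext fun t => ?_
    change t = (t.1 + ((0 : ℕ) : ℤ), t.2)
    simp
  | succ n ih =>
    rw [pow_succ, ih]
    refine Homeomorph.ext fun t => ?_
    change (t.1 + 1 + (n : ℤ), t.2) = (t.1 + ((n + 1 : ℕ) : ℤ), t.2)
    push_cast
    rw [add_assoc, add_comm (1 : ℤ)]

omit [CompactSpace Y] [T2Space Y] in
theorem bl_key (u : Cc σ ≃ₜ Cc σ) (b : ℤ) (n : ℕ) (hn : 1 ≤ n) :
    ∃ s : ℤ → (Cc σ ≃ₜ Cc σ), bl (fun j => if j = b then u else 1) =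
      bl s * (sh 1) ^ n * (bl s)⁻¹ * ((sh 1) ^ n)⁻¹ := by
  classical
  refine ⟨fun j => if ∃ k : ℕ, j = b + n * k then u else 1, ?_⟩
  rw [sh_pow]
  refine Homeomorph.ext fun t => ?_
  obtain ⟨j, c⟩ := t
  change (j, (if j = b then u else 1) c) = (j - (n : ℤ) + (n : ℤ),
    (if ∃ k : ℕ, j - (n : ℤ) + (n : ℤ) = b + n * k then u else 1)
      ((if ∃ k : ℕ, j - (n : ℤ) = b + n * k then u else 1 : Cc σ ≃ₜ Cc σ).symm c))
  rw [sub_add_cancel, Prod.mk.injEq]
  refine ⟨rfl, ?_⟩
  by_cases h1 : j = b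
  · subst h1
    have h2 : ∃ k : ℕ, j = j + n * k := ⟨0, by simp⟩
    have h3 : ¬ ∃ k : ℕ, j - (n : ℤ) = j + n * k := by
      rintro ⟨k, hk⟩
      have h4 : (0 : ℤ) ≤ n * k := by positivity
      omega
    rw [if_pos rfl, if_pos h2, if_neg h3]
    rfl
  · rw [if_neg h1]
    by_cases h2 : ∃ k : ℕ, j - (n : ℤ) = b + n * k
    · have h3 : ∃ k : ℕ, j = b + n * k := by
        obtain ⟨k, hk⟩ := h2
        refine ⟨k + 1, ?_⟩
        push_cast
        linarith
      rw [if_pos h2, if_pos h3, Homeomorph.apply_symm_apply]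
      rfl
    · have h3 : ¬ ∃ k : ℕ, j = b + n * k := by
        rintro ⟨k, hk⟩
        rcases Nat.eq_zero_or_pos k with rfl | hk0
        · exact h1 (by simpa using hk)
        · refine h2 ⟨k - 1, ?_⟩
          have h4 : ((k - 1 : ℕ) : ℤ) = (k : ℤ) - 1 := by omega
          rw [h4, hk]
          ring
      rw [if_neg h2, if_neg h3]
      rfl

/-- The main identity: the homeomorphisms that are the identity on the range of `σ`. -/
theorem swindle (hσ : IsOpenEmbedding σ) (hcl : IsClosed (Set.range σ)) {y₀ : Y}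
    (h0 : ∀ z, (∀ i, z ∈ Set.range σ^[i]) ↔ z = y₀) (u : Y ≃ₜ Y)
    (hu : ∀ y ∈ Set.range σ, u y = y) :
    ∃ h : Y ≃ₜ Y, ∀ n : ℕ, 1 ≤ n → ∃ P : Y ≃ₜ Y, u = P * h ^ n * P⁻¹ * (h ^ n)⁻¹ := by
  classical
  set e := EE hσ hcl h0 with he
  let Φ : (ℤ × Cc σ ≃ₜ ℤ × Cc σ) →* (Y ≃ₜ Y) :=
    { toFun := fun k => (e.symm.trans (Homeomorph.onePointCongr k)).trans e
      map_one' := by
        refine Homeomorph.ext fun y => ?_
        change e (OnePoint.map id (e.symm y)) = y
        rw [OnePoint.map_id]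
        exact e.apply_symm_apply y
      map_mul' := by
        intro k k'
        refine Homeomorph.ext fun y => ?_
        change e (OnePoint.map (k ∘ k') (e.symm y)) =
          e (OnePoint.map k (e.symm (e (OnePoint.map k' (e.symm y)))))
        rw [e.symm_apply_apply, OnePoint.map_comp]
        rfl }
  have hiff : ∀ y, y ∉ Set.range σ ↔ u y ∉ Set.range σ := by
    intro y
    refine not_congr ⟨fun h => by rwa [hu y h], fun h => ?_⟩
    have h1 := hu _ h
    rwa [u.injective h1] at h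
  let uC : Cc σ ≃ₜ Cc σ := u.subtype hiff
  set b : ℤ := Equiv.intEquivNat.symm 0 with hb
  have he1 : ∀ (j : ℤ) (c : Cc σ), e ((j, c) : OnePoint (ℤ × Cc σ)) =
      σ^[Equiv.intEquivNat j] c.1 := fun j c => rfl
  have hyr : y₀ ∈ Set.range σ := (h0 y₀).2 rfl 1
  have hΦ : Φ (bl fun j => if j = b then uC else 1) = u := by
    refine Homeomorph.ext fun y => ?_
    obtain ⟨z, rfl⟩ := e.surjective y
    change e (OnePoint.map (bl fun j => if j = b then uC else 1) (e.symm (e z))) = u (e z)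
    rw [e.symm_apply_apply]
    induction z using OnePoint.rec with
    | infty =>
      have h1 : e (∞ : OnePoint (ℤ × Cc σ)) = y₀ := rfl
      rw [OnePoint.map_infty, h1, hu _ hyr]
    | coe t =>
      obtain ⟨j, c⟩ := t
      rw [OnePoint.map_some, he1]
      change e ((j, (if j = b then uC else 1) c) : OnePoint (ℤ × Cc σ)) = _
      rw [he1]
      by_cases hj : j = b
      · rw [if_pos hj, hj, hb, Equiv.apply_symm_apply]
        rfl
      · rw [if_neg hj]
        have h2 : Equiv.intEquivNat j ≠ 0 := by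
          intro h3
          apply hj
          rw [hb, ← h3, Equiv.symm_apply_apply]
        obtain ⟨k, hk⟩ : ∃ k, Equiv.intEquivNat j = k + 1 :=
          ⟨Equiv.intEquivNat j - 1, by omega⟩
        have h3 : e ((j, c) : OnePoint (ℤ × Cc σ)) = σ (σ^[k] c.1) := by
          rw [he1, hk, Function.iterate_succ_apply']
        rw [h3, hu _ ⟨_, rfl⟩, hk, Function.iterate_succ_apply']
        rfl
  refine ⟨Φ (sh 1), fun n hn => ?_⟩
  obtain ⟨s, hs⟩ := bl_key uC b n hn
  refine ⟨Φ (bl s), ?_⟩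
  rw [← hΦ, hs, map_mul, map_mul, map_mul, map_inv, map_inv, map_pow]

end Abstract

end Pool.Agent.R598.FM.Sw
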