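import Pool.Agent.R598.FM.Dya

/-!
# The permutations that are almost automorphisms of a tree: the model
-/

set_option autoImplicit false

namespace Pool.Agent.R598.FM.Tr

open U FMS
open Pool.Agent.R598.PM (PD FS mem_FS swap_mem_FS)

/-- The set of atoms. -/
abbrev I : Type := ℕ → ℕ

/-- The sequences agree below `n`. -/
def R (n : ℕ) (x y : I) : Prop := ∀ k < n, x k = y k

theorem R.refl {n : ℕ} (x : I) : R n x x := fun _ _ => rfl

theorem R.symm {n : ℕ} {x y : I} (h : R n x y) : R n y x := fun k hk => (h k hk).symm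

theorem R.trans {n : ℕ} {x y z : I} (h : R n x y) (h' : R n y z) : R n x z :=
  fun k hk => (h k hk).trans (h' k hk)

theorem R.mono {n m : ℕ} {x y : I} (h : R m x y) (hn : n ≤ m) : R n x y :=
  fun k hk => h k (by omega)

/-- The automorphisms of the tree that fix the level `n`. -/
def W (n : ℕ) : Subgroup (Equiv.Perm I) where
  carrier := {w | (∀ m x y, R m (w x) (w y) ↔ R m x y) ∧ ∀ x, R n (w x) x}
  mul_mem' := by
    rintro w v ⟨h1, h2⟩ ⟨h3, h4⟩
    exact ⟨fun m x y => (h1 m (v x) (v y)).trans (h3 m x y), fun x => (h2 (v x)).trans (h4 x)⟩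
  one_mem' := ⟨fun _ _ _ => Iff.rfl, fun x => R.refl x⟩
  inv_mem' := by
    rintro w ⟨h1, h2⟩
    refine ⟨fun m x y => ?_, fun x => ?_⟩
    · rw [← h1 m (w⁻¹ x) (w⁻¹ y)]
      have h3 : ∀ z, w (w⁻¹ z) = z := fun z => Equiv.apply_symm_apply w z
      rw [h3, h3]
    · have h3 := h2 (w⁻¹ x)
      have h4 : w (w⁻¹ x) = x := Equiv.apply_symm_apply w x
      rw [h4] at h3
      exact h3.symm

theorem W_mono {n m : ℕ} (h : n ≤ m) : W m ≤ W n := fun _ hw => ⟨hw.1, fun x => (hw.2 x).mono h⟩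

theorem W_conj {n : ℕ} {w v : Equiv.Perm I} (hw : w ∈ W 0) (hv : v ∈ W n) :
    w⁻¹ * v * w ∈ W n := by
  have h1 := (W 0).mul_mem ((W 0).mul_mem ((W 0).inv_mem hw) (W_mono (Nat.zero_le n) hv)) hw
  refine ⟨h1.1, fun x => ?_⟩
  rw [← hw.1]
  have h2 : w ((w⁻¹ * v * w) x) = v (w x) := by
    change w (w.symm (v (w x))) = v (w x)
    rw [Equiv.apply_symm_apply]
  rw [h2]
  exact hv.2 _

/-- The permutations are equal up to a finite set. -/
def AE (τ w : Equiv.Perm I) : Prop := {x | τ x ≠ w x}.Finite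

theorem AE.refl (τ : Equiv.Perm I) : AE τ τ := Set.finite_empty.subset fun _ h => h rfl

theorem AE.mul {τ w σ v : Equiv.Perm I} (h : AE τ w) (h' : AE σ v) : AE (τ * σ) (w * v) := by
  refine (h'.union (Set.Finite.preimage (f := v) v.injective.injOn h)).subset fun x hx => ?_
  by_cases h1 : σ x = v x
  · refine Or.inr fun h2 => hx ?_
    change τ (σ x) = w (v x)
    rw [h1, h2]
  · exact Or.inl h1

theorem AE.inv {τ w : Equiv.Perm I} (h : AE τ w) : AE τ⁻¹ w⁻¹ := by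
  refine (h.image w).subset fun x hx => ⟨w⁻¹ x, fun h1 => hx ?_, Equiv.apply_symm_apply w x⟩
  have h2 : w (w⁻¹ x) = x := Equiv.apply_symm_apply w x
  rw [h2] at h1
  rw [Equiv.Perm.inv_eq_iff_eq]
  exact h1.symm

theorem ae_fs {τ : Equiv.Perm I} (h : τ ∈ FS I) : AE τ 1 := h

/-- The permutations that are almost automorphisms of the tree that fix the level `n`. -/
def Hn (n : ℕ) : Subgroup (Equiv.Perm I) where
  carrier := {τ | ∃ w ∈ W n, AE τ w}
  mul_mem' := by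
    rintro τ σ ⟨w, hw, h⟩ ⟨v, hv, h'⟩
    exact ⟨w * v, (W n).mul_mem hw hv, h.mul h'⟩
  one_mem' := ⟨1, (W n).one_mem, AE.refl 1⟩
  inv_mem' := by
    rintro τ ⟨w, hw, h⟩
    exact ⟨w⁻¹, (W n).inv_mem hw, h.inv⟩

theorem Hn_mono {n m : ℕ} (h : n ≤ m) : Hn m ≤ Hn n := by
  rintro τ ⟨w, hw, h'⟩
  exact ⟨w, W_mono h hw, h'⟩

theorem fs_Hn {n : ℕ} {τ : Equiv.Perm I} (h : τ ∈ FS I) : τ ∈ Hn n := ⟨1, (W n).one_mem, h⟩

theorem Hn_conj {n : ℕ} {τ κ : Equiv.Perm I} (hτ : τ ∈ Hn 0) (hκ : κ ∈ Hn n) :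
    τ⁻¹ * κ * τ ∈ Hn n := by
  obtain ⟨w, hw, h⟩ := hτ
  obtain ⟨v, hv, h'⟩ := hκ
  exact ⟨_, W_conj hw hv, (h.inv.mul h').mul h⟩

/-- The permutations that preserve the cones from `F`. -/
def Pres (F : Finset (ℕ × I)) : Subgroup (Equiv.Perm I) where
  carrier := {τ | ∀ t ∈ F, ∀ x, R t.1 (τ x) t.2 ↔ R t.1 x t.2}
  mul_mem' := by
    intro τ σ h h' t ht x
    exact (h t ht (σ x)).trans (h' t ht x)
  one_mem' := fun _ _ _ => Iff.rfl
  inv_mem' := by
    intro τ h t ht x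
    rw [← h t ht (τ⁻¹ x)]
    have h4 : τ (τ⁻¹ x) = x := Equiv.apply_symm_apply τ x
    rw [h4]

theorem Pres_mono {F F' : Finset (ℕ × I)} (h : F ⊆ F') : Pres F' ≤ Pres F :=
  fun _ hτ t ht => hτ t (h ht)

/-- The points are in the same cones from `F`. -/
def Sm (F : Finset (ℕ × I)) (a b : I) : Prop := ∀ t ∈ F, (R t.1 a t.2 ↔ R t.1 b t.2)

theorem Sm.symm {F : Finset (ℕ × I)} {a b : I} (h : Sm F a b) : Sm F b a :=
  fun t ht => (h t ht).symm

theorem Sm.trans {F : Finset (ℕ × I)} {a b c : I} (h : Sm F a b) (h' : Sm F b c) : Sm F a c :=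
  fun t ht => (h t ht).trans (h' t ht)

theorem sm_of_R {F : Finset (ℕ × I)} {n : ℕ} (hF : ∀ t ∈ F, t.1 ≤ n) {a b : I} (h : R n a b) :
    Sm F a b := fun t ht => ⟨fun h1 => (h.symm.mono (hF t ht)).trans h1,
      fun h1 => (h.mono (hF t ht)).trans h1⟩

theorem swap_Pres {F : Finset (ℕ × I)} {a b : I} [DecidableEq I] (h : Sm F a b) :
    Equiv.swap a b ∈ Pres F := by
  intro t ht x
  by_cases h1 : x = a
  · rw [h1, Equiv.swap_apply_left]
    exact (h t ht).symm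
  · by_cases h2 : x = b
    · rw [h2, Equiv.swap_apply_right]
      exact h t ht
    · rw [Equiv.swap_apply_of_ne_of_ne h1 h2]

/-- The data of the permutation model. -/
noncomputable def D : PD I where
  T := Hn 0
  Φ := {K | ∃ (n : ℕ) (F : Finset (ℕ × I)), (∀ t ∈ F, t.1 ≤ n) ∧ K = Hn n ⊓ Pres F}
  ne := ⟨_, 0, ∅, fun t ht => absurd ht (Finset.notMem_empty t), rfl⟩
  conj := by
    classical
    rintro _ ⟨n, F, hF, rfl⟩ τ ⟨w, hw, h⟩
    have hfin : (τ '' {x | τ x ≠ w x} ∪ w '' {x | τ x ≠ w x}).Finite :=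
      (h.image τ).union (h.image w)
    refine ⟨hfin.toFinset, Hn n ⊓ Pres (F.image fun t => (t.1, w t.2)), ⟨n, _, ?_, rfl⟩, ?_⟩
    · intro t ht
      obtain ⟨t', ht', rfl⟩ := Finset.mem_image.1 ht
      exact hF t' ht'
    · rintro κ - ⟨hκ, hκP⟩ hfix
      refine ⟨Hn_conj ⟨w, hw, h⟩ hκ, fun t ht x => ?_⟩
      change R t.1 (τ.symm (κ (τ x))) t.2 ↔ R t.1 x t.2
      by_cases hz : τ x ∈ hfin.toFinset
      · rw [hfix _ hz, Equiv.symm_apply_apply]
      · have hx : τ x = w x := by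
          by_contra hc
          exact hz (hfin.mem_toFinset.2 (Or.inl ⟨x, hc, rfl⟩))
        have hκz : κ (τ x) ∉ hfin.toFinset := by
          intro hc
          have h1 := hfix _ hc
          rw [κ.injective h1] at hc
          exact hz hc
        have hu : τ.symm (κ (τ x)) = w.symm (κ (τ x)) := by
          rw [Equiv.symm_apply_eq]
          by_contra hc
          refine hκz (hfin.mem_toFinset.2 (Or.inr ⟨w.symm (κ (τ x)), fun h1 => hc ?_,
            Equiv.apply_symm_apply _ _⟩))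
          rw [h1, Equiv.apply_symm_apply]
        have h1 : R t.1 (w.symm (κ (τ x))) t.2 ↔ R t.1 (κ (τ x)) (w t.2) := by
          rw [← hw.1, Equiv.apply_symm_apply]
        rw [hu, h1, hκP (t.1, w t.2) (Finset.mem_image_of_mem _ ht), hx]
        exact hw.1 _ _ _
  dir := by
    classical
    rintro _ ⟨n, F, hF, rfl⟩ _ ⟨m, F', hF', rfl⟩
    refine ⟨Hn (max n m) ⊓ Pres (F ∪ F'), ⟨max n m, F ∪ F', ?_, rfl⟩, ?_, ?_⟩
    · intro t ht
      rcases Finset.mem_union.1 ht with h | h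
      · exact (hF t h).trans (le_max_left _ _)
      · exact (hF' t h).trans (le_max_right _ _)
    · exact inf_le_inf (Hn_mono (le_max_left _ _)) (Pres_mono Finset.subset_union_left)
    · exact inf_le_inf (Hn_mono (le_max_right _ _)) (Pres_mono Finset.subset_union_right)

/-- The subgroups of the filter. -/
noncomputable def G (E : Finset I) (n : ℕ) (F : Finset (ℕ × I)) : Subgroup (Equiv.Perm I) :=
  fixP D E (Hn n ⊓ Pres F)

theorem mem_G {E : Finset I} {n : ℕ} {F : Finset (ℕ × I)} {τ : Equiv.Perm I} :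
    τ ∈ G E n F ↔ τ ∈ Hn n ∧ τ ∈ Pres F ∧ ∀ i ∈ E, τ i = i :=
  ⟨fun h => ⟨h.2.1.1, h.2.1.2, h.2.2⟩, fun h => ⟨Hn_mono (Nat.zero_le n) h.1, ⟨h.1, h.2.1⟩,
    h.2.2⟩⟩

theorem G_mem {E : Finset I} {n : ℕ} {F : Finset (ℕ × I)} (hF : ∀ t ∈ F, t.1 ≤ n) :
    G E n F ∈ (ofPD D).F := ⟨E, _, ⟨n, F, hF, rfl⟩, rfl⟩

theorem G_mono {E E' : Finset I} {n n' : ℕ} {F F' : Finset (ℕ × I)} (hE : E ⊆ E') (hn : n ≤ n')
    (hF : F ⊆ F') : G E' n' F' ≤ G E n F :=
  fixP_mono hE (inf_le_inf (Hn_mono hn) (Pres_mono hF))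

theorem exists_G {K : Subgroup (Equiv.Perm I)} (h : K ∈ (ofPD D).F) :
    ∃ E n F, (∀ t ∈ F, t.1 ≤ n) ∧ K = G E n F := by
  obtain ⟨E, _, ⟨n, F, hF, rfl⟩, rfl⟩ := h
  exact ⟨E, n, F, hF, rfl⟩

theorem swap_G {E : Finset I} {n : ℕ} {F : Finset (ℕ × I)} {a b : I} [DecidableEq I]
    (ha : a ∉ E) (hb : b ∉ E) (h : Sm F a b) : Equiv.swap a b ∈ G E n F := by
  refine mem_G.2 ⟨fs_Hn (swap_mem_FS a b), swap_Pres h, fun i hi => ?_⟩
  refine Equiv.swap_apply_of_ne_of_ne ?_ ?_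
  · rintro rfl
    exact ha hi
  · rintro rfl
    exact hb hi

/-- Correcting finitely many values. -/
theorem exists_fix {n : ℕ} {w : Equiv.Perm I} (hw : ∀ z, R n (w z) z) (E : Finset I) :
    ∃ ρ ∈ FS I, (∀ z, R n (ρ z) z) ∧ ∀ e ∈ E, ρ (w e) = e := by
  classical
  induction E using Finset.induction_on with
  | empty => exact ⟨1, (FS I).one_mem, fun z => R.refl z, fun e he => absurd he
      (Finset.notMem_empty e)⟩
  | @insert e E he ih =>
    obtain ⟨ρ, h1, h2, h3⟩ := ih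
    set u := ρ (w e) with hu
    have hue : R n u e := (h2 _).trans (hw e)
    refine ⟨Equiv.swap u e * ρ, (FS I).mul_mem (swap_mem_FS u e) h1, fun z => ?_, ?_⟩
    · have h4 : ∀ y, R n (Equiv.swap u e y) y := by
        intro y
        by_cases h5 : y = u
        · rw [h5, Equiv.swap_apply_left]
          exact hue.symm
        · by_cases h6 : y = e
          · rw [h6, Equiv.swap_apply_right]
            exact hue
          · rw [Equiv.swap_apply_of_ne_of_ne h5 h6]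
            exact R.refl y
      exact (h4 (ρ z)).trans (h2 z)
    · intro e' he'
      rcases Finset.mem_insert.1 he' with h7 | h7
      · rw [h7]
        exact Equiv.swap_apply_left _ _
      · change Equiv.swap u e (ρ (w e')) = e'
        rw [h3 e' h7]
        refine Equiv.swap_apply_of_ne_of_ne ?_ ?_
        · intro h5
          rw [hu, ← h3 e' h7] at h5
          have h6 := w.injective (ρ.injective h5)
          rw [h6] at h7
          exact he h7
        · intro h5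
          rw [h5] at h7
          exact he h7

/-- Each automorphism is almost equal to an element of the group. -/
theorem exists_ae {n : ℕ} {w : Equiv.Perm I} (hw : w ∈ W n) (E : Finset I)
    {F : Finset (ℕ × I)} (hF : ∀ t ∈ F, t.1 ≤ n) : ∃ g ∈ G E n F, AE g w := by
  obtain ⟨ρ, h1, h2, h3⟩ := exists_fix hw.2 E
  have h4 : AE (ρ * w) w := by
    have h5 := (ae_fs h1).mul (AE.refl w)
    rwa [one_mul] at h5
  exact ⟨ρ * w, mem_G.2 ⟨⟨w, hw, h4⟩, fun t ht x =>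
    (sm_of_R hF ((h2 (w x)).trans (hw.2 x))) t ht, h3⟩, h4⟩

/-- The elements that are fixed by transpositions. -/
theorem class_fix {E E' : Finset I} {n : ℕ} {F F' : Finset (ℕ × I)} (hE : E ⊆ E') (hF : F ⊆ F')
    (hF' : ∀ t ∈ F', t.1 ≤ n) {x : U I} (hx : Fx (G E' n F') x) [DecidableEq I]
    (hsw : ∀ a b, a ∉ E → b ∉ E → Sm F a b → a ≠ b → act (Equiv.swap a b) x = x) :
    Fx (G E n F) x := by
  intro τ hτ
  obtain ⟨⟨w, hw, h⟩, hτP, hτE⟩ := mem_G.1 hτ
  obtain ⟨τ', hτ', h'⟩ := exists_ae hw E' hF'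
  obtain ⟨-, h2, h3⟩ := mem_G.1 hτ'
  have hσ : τ * τ'⁻¹ ∈ FS I := by
    have h5 : AE (τ * τ'⁻¹) (w * w⁻¹) := h.mul h'.inv
    rw [mul_inv_cancel] at h5
    exact h5
  have hσE : ∀ e ∈ E, (τ * τ'⁻¹) e = e := by
    intro e he
    have h5 : τ'⁻¹ e = e := by
      rw [Equiv.Perm.inv_eq_iff_eq]
      exact (h3 e (hE he)).symm
    change τ (τ'⁻¹ e) = e
    rw [h5, hτE e he]
  have hσP : τ * τ'⁻¹ ∈ Pres F := (Pres F).mul_mem hτP ((Pres F).inv_mem (Pres_mono hF h2))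
  have h6 : act (τ * τ'⁻¹) x = x := by
    refine fs_gen (r := fun a b => a ∉ E ∧ b ∉ E ∧ Sm F a b) (p := fun τ => act τ x = x)
      (fun a b c h h' => ⟨h.1, h'.2.1, h.2.2.trans h'.2.2⟩) (act_one x)
      (fun a b σ hr hab hσ => ?_) _ hσ fun z hz => ⟨fun h => hz (hσE z h),
        fun h => hz ?_, fun t ht => (hσP t ht z).symm⟩
    · rw [act_mul, hσ]
      exact hsw a b hr.1 hr.2.1 hr.2.2 hab
    · exact (τ * τ'⁻¹).injective (hσE _ h)
  have h7 := hx τ' hτ'
  have h8 : τ = (τ * τ'⁻¹) * τ' := by rw [inv_mul_cancel_right]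
  rw [h8, act_mul, h7, h6]

end Pool.Agent.R598.FM.Tr
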