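import Pool.Agent.R598.FM.TreeS

/-!
# The permutations that are almost automorphisms of a tree: the set of atoms
-/

set_option autoImplicit false

namespace Pool.Agent.R598.FM.Tr

open U FMS
open Pool.Agent.R598.PM (PD FS mem_FS swap_mem_FS)
open Pool.Agent.R598.PM (sj sj_sj sj_ge)

/-- The cone. -/
def cone (n : ℕ) (x : I) : Set I := {z | R n z x}

open Classical in
/-- The automorphism that moves the values below `M` at the level `n`. -/
noncomputable def mvf (n : ℕ) (x₀ : I) (M : ℕ) (z : I) : I :=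
  if R n z x₀ then Function.update z n (sj M (z n)) else z

theorem mvf_pos {n : ℕ} {x₀ : I} {M : ℕ} {z : I} (h : R n z x₀) :
    mvf n x₀ M z = Function.update z n (sj M (z n)) := if_pos h

theorem mvf_neg {n : ℕ} {x₀ : I} {M : ℕ} {z : I} (h : ¬ R n z x₀) : mvf n x₀ M z = z := if_neg h

theorem mvf_R {n : ℕ} {x₀ : I} {M : ℕ} (z : I) : R n (mvf n x₀ M z) z := by
  by_cases h : R n z x₀
  · rw [mvf_pos h]
    intro k hk
    exact Function.update_of_ne (by omega) _ _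
  · rw [mvf_neg h]
    exact R.refl z

theorem mvf_mvf {n : ℕ} {x₀ : I} {M : ℕ} (z : I) : mvf n x₀ M (mvf n x₀ M z) = z := by
  by_cases h : R n z x₀
  · have h1 : R n (mvf n x₀ M z) x₀ := (mvf_R z).trans h
    rw [mvf_pos h1, mvf_pos h, Function.update_self, sj_sj, Function.update_idem,
      Function.update_eq_self]
  · rw [mvf_neg h, mvf_neg h]

/-- The automorphism that moves the values below `M` at the level `n`. -/
noncomputable def mve (n : ℕ) (x₀ : I) (M : ℕ) : Equiv.Perm I :=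
  ⟨mvf n x₀ M, mvf n x₀ M, mvf_mvf, mvf_mvf⟩

theorem mvf_mono {n : ℕ} {x₀ : I} {M : ℕ} {m : ℕ} {x y : I} (h : R m x y) :
    R m (mvf n x₀ M x) (mvf n x₀ M y) := by
  by_cases hm : m ≤ n
  · exact ((mvf_R x).mono hm).trans (h.trans ((mvf_R y).mono hm).symm)
  · have hn : R n x y := h.mono (by omega)
    by_cases hx : R n x x₀
    · have hy : R n y x₀ := hn.symm.trans hx
      rw [mvf_pos hx, mvf_pos hy]
      intro k hk
      by_cases hkn : k = n
      · rw [hkn, Function.update_self, Function.update_self, h n (by omega)]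
      · rw [Function.update_of_ne hkn, Function.update_of_ne hkn]
        exact h k hk
    · have hy : ¬ R n y x₀ := fun hy => hx (hn.trans hy)
      rw [mvf_neg hx, mvf_neg hy]
      exact h

theorem mve_mem (n : ℕ) (x₀ : I) (M : ℕ) : mve n x₀ M ∈ W n := by
  refine ⟨fun m x y => ⟨fun h => ?_, mvf_mono⟩, mvf_R⟩
  have h1 := mvf_mono (n := n) (x₀ := x₀) (M := M) h
  change R m (mvf n x₀ M (mvf n x₀ M x)) (mvf n x₀ M (mvf n x₀ M y)) at h1
  rwa [mvf_mvf, mvf_mvf] at h1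

/-- The set has a support. -/
def Supd (s : Set I) : Prop := ∃ (E : Finset I) (F : Finset (ℕ × I)),
  ∀ a b, a ∉ E → b ∉ E → Sm F a b → (a ∈ s ↔ b ∈ s)

theorem Supd.compl {s : Set I} (h : Supd s) : Supd sᶜ := by
  obtain ⟨E, F, h⟩ := h
  exact ⟨E, F, fun a b ha hb hab => not_congr (h a b ha hb hab)⟩

/-- In each cone, almost all children are contained in the set, or almost all are disjoint from
it. -/
theorem Supd.dich {s : Set I} (h : Supd s) (m : ℕ) (x₀ : I) : ∃ (E : Finset I) (K : Finset ℕ),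
    (∀ z, R m z x₀ → z ∉ E → z m ∉ K → z ∈ s) ∨ (∀ z, R m z x₀ → z ∉ E → z m ∉ K → z ∉ s) := by
  classical
  obtain ⟨E, F, h⟩ := h
  set K : Finset ℕ := F.image fun t => t.2 m with hK
  have hsm : ∀ z z', R m z x₀ → z m ∉ K → R m z' x₀ → z' m ∉ K → Sm F z z' := by
    intro z z' hz hzK hz' hzK' t ht
    by_cases hm : t.1 ≤ m
    · have h1 : R t.1 z z' := (hz.trans hz'.symm).mono hm
      exact ⟨fun h => h1.symm.trans h, fun h => h1.trans h⟩
    · have h1 : ∀ y, y m ∉ K → ¬ R t.1 y t.2 := by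
        intro y hy h2
        exact hy (Finset.mem_image.2 ⟨t, ht, (h2 m (by omega)).symm⟩)
      exact ⟨fun h => absurd h (h1 z hzK), fun h => absurd h (h1 z' hzK')⟩
  refine ⟨E, K, ?_⟩
  by_cases hex : ∃ z, R m z x₀ ∧ z ∉ E ∧ z m ∉ K ∧ z ∈ s
  · obtain ⟨z, h1, h2, h3, h4⟩ := hex
    exact Or.inl fun z' h1' h2' h3' => (h z z' h2 h2' (hsm z z' h1 h3 h1' h3')).1 h4
  · exact Or.inr fun z h1 h2 h3 h4 => hex ⟨z, h1, h2, h3, h4⟩

theorem out_inf (m : ℕ) (x₀ : I) (E : Finset I) (K : Finset ℕ) :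
    {z | R m z x₀ ∧ z ∉ E ∧ z m ∉ K}.Infinite := by
  obtain ⟨j, hj⟩ := K.exists_notMem
  refine ((cone_inf (m + 1) (Function.update x₀ m j)).sdiff E.finite_toSet).mono ?_
  rintro z ⟨hz, hz'⟩
  refine ⟨fun k hk => ?_, fun h => hz' (Finset.mem_coe.2 h), ?_⟩
  · rw [hz k (by omega), Function.update_of_ne (by omega)]
  · rw [hz m (Nat.lt_succ_self m), Function.update_self]
    exact hj

/-- The key step: invariant sets. -/
theorem inv_fin {s : Set I} (n₀ : ℕ) (x₀ : I) {E : Finset I} {K : Finset ℕ}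
    (hinv : ∀ w ∈ W n₀, {i | i ∈ s ∧ w i ∉ s}.Finite)
    (h : ∀ z, R n₀ z x₀ → z ∉ E → z n₀ ∉ K → z ∉ s) : (s ∩ cone n₀ x₀).Finite := by
  obtain ⟨M, hM⟩ : ∃ M, ∀ k ∈ K, k < M := by
    obtain ⟨M, hM⟩ := K.bddAbove
    exact ⟨M + 1, fun k hk => Nat.lt_succ_of_le (hM hk)⟩
  have h1 := hinv _ (mve_mem n₀ x₀ M)
  refine ((h1.union E.finite_toSet).union (Set.Finite.preimage (f := mve n₀ x₀ M)
    (mve n₀ x₀ M).injective.injOn E.finite_toSet)).subset ?_
  rintro z ⟨hzs, hz⟩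
  by_cases hzE : z ∈ E
  · exact Or.inl (Or.inr hzE)
  by_cases hzE' : mve n₀ x₀ M z ∈ E
  · exact Or.inr hzE'
  refine Or.inl (Or.inl ⟨hzs, ?_⟩)
  have hK : z n₀ ∈ K := by
    by_contra hc
    exact h z hz hzE hc hzs
  have h2 : (mve n₀ x₀ M z) n₀ = sj M (z n₀) := by
    change (mvf n₀ x₀ M z) n₀ = _
    rw [mvf_pos hz, Function.update_self]
  refine h _ ((mvf_R z).trans hz) hzE' fun h3 => ?_
  have h4 := hM _ h3
  have h5 := sj_ge (hM _ hK)
  rw [h2] at h4
  omega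

theorem inv_dich {s : Set I} (n₀ : ℕ) (x₀ : I) (hs : Supd s)
    (hinv : ∀ w ∈ W n₀, {i | i ∈ s ∧ w i ∉ s}.Finite) :
    (s ∩ cone n₀ x₀).Finite ∨ (cone n₀ x₀ \ s).Finite := by
  obtain ⟨E, K, h | h⟩ := hs.dich n₀ x₀
  · have hinv' : ∀ w ∈ W n₀, {i | i ∈ sᶜ ∧ w i ∉ sᶜ}.Finite := by
      intro w hw
      refine ((hinv w⁻¹ ((W n₀).inv_mem hw)).image ⇑(w⁻¹ : Equiv.Perm I)).subset ?_
      rintro i ⟨hi, hi'⟩
      have h1 : w⁻¹ (w i) = i := Equiv.symm_apply_apply w i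
      exact ⟨w i, ⟨not_not.1 hi', by rw [h1]; exact hi⟩, h1⟩
    have h2 := inv_fin (s := sᶜ) n₀ x₀ (E := E) (K := K) hinv'
      fun z h1 h2 h3 h4 => h4 (h z h1 h2 h3)
    exact Or.inr (h2.subset fun z hz => ⟨hz.2, hz.1⟩)
  · exact Or.inl (inv_fin n₀ x₀ hinv h)

/-- Descendants in the dyadic tree. -/
inductive Desc (n j : ℕ) : ℕ → ℕ → Prop
  | refl : Desc n j n j
  | left {n' j' : ℕ} : Desc n j n' j' → Desc n j (n' + 1) (2 * j')
  | right {n' j' : ℕ} : Desc n j n' j' → Desc n j (n' + 1) (2 * j' + 1)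

theorem Desc.trans {n j n' j' n'' j'' : ℕ} (h : Desc n j n' j') (h' : Desc n' j' n'' j'') :
    Desc n j n'' j'' := by
  induction h' with
  | refl => exact h
  | left _ ih => exact ih.left
  | right _ ih => exact ih.right

theorem Desc.lt {n j n' j' : ℕ} (h : Desc n j n' j') (hj : j < 2 ^ n) : j' < 2 ^ n' := by
  induction h with
  | refl => exact hj
  | left _ ih =>
    rw [pow_succ]
    omega
  | right _ ih =>
    rw [pow_succ]
    omega

theorem Desc.le {n j n' j' : ℕ} (h : Desc n j n' j') : n ≤ n' := by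
  induction h with
  | refl => exact le_rfl
  | left _ ih => omega
  | right _ ih => omega

section

variable {s : ℕ → ℕ → Set I} {n₀ : ℕ} (hsup : ∀ n j, 1 ≤ n → j < 2 ^ n → Supd (s n j))
  (hinv : ∀ n j, 1 ≤ n → j < 2 ^ n → ∀ w ∈ W n₀, {i | i ∈ s n j ∧ w i ∉ s n j}.Finite)
  (hsub : ∀ n j, 1 ≤ n → j < 2 ^ n → (s (n + 1) (2 * j) \ s n j).Finite ∧
    (s (n + 1) (2 * j + 1) \ s n j).Finite)
  (hdis : ∀ n i j, 1 ≤ n → i < 2 ^ n → j < 2 ^ n → i ≠ j → (s n i ∩ s n j).Finite)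

include hsub in
theorem desc_sub {n j n' j' : ℕ} (hn : 1 ≤ n) (hj : j < 2 ^ n) (h : Desc n j n' j') :
    (s n' j' \ s n j).Finite := by
  induction h with
  | refl =>
    rw [Set.sdiff_self]
    exact Set.finite_empty
  | @left n' j' h' ih =>
    exact PM.diff_fin (hsub n' j' (hn.trans h'.le) (h'.lt hj)).1 ih
  | @right n' j' h' ih =>
    exact PM.diff_fin (hsub n' j' (hn.trans h'.le) (h'.lt hj)).2 ih

include hsup hinv hsub hdis in
theorem no_tree : ∀ d m : ℕ, m + d = n₀ → ∀ (x₀ : I) (n j : ℕ), 1 ≤ n → j < 2 ^ n →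
    ¬ ∀ n' j', Desc n j n' j' → (s n' j' ∩ cone m x₀).Infinite := by
  classical
  intro d
  induction d with
  | zero =>
    intro m hm x₀ n j hn hj hall
    rw [add_zero] at hm
    subst hm
    have hn1 : 1 ≤ n + 1 := by omega
    have hl : 2 * j < 2 ^ (n + 1) := by
      rw [pow_succ]
      omega
    have hr : 2 * j + 1 < 2 ^ (n + 1) := by
      rw [pow_succ]
      omega
    have h1 : (cone m x₀ \ s (n + 1) (2 * j)).Finite :=
      (inv_dich m x₀ (hsup _ _ hn1 hl) (hinv _ _ hn1 hl)).resolve_left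
        (hall _ _ Desc.refl.left)
    have h2 : (cone m x₀ \ s (n + 1) (2 * j + 1)).Finite :=
      (inv_dich m x₀ (hsup _ _ hn1 hr) (hinv _ _ hn1 hr)).resolve_left
        (hall _ _ Desc.refl.right)
    have h3 := hdis (n + 1) (2 * j) (2 * j + 1) hn1 hl hr (by omega)
    refine cone_inf m x₀ (((h1.union h2).union h3).subset fun z hz => ?_)
    by_cases h4 : z ∈ s (n + 1) (2 * j)
    · by_cases h5 : z ∈ s (n + 1) (2 * j + 1)
      · exact Or.inr ⟨h4, h5⟩
      · exact Or.inl (Or.inr ⟨hz, h5⟩)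
    · exact Or.inl (Or.inl ⟨hz, h4⟩)
  | succ d ih =>
    intro m hm x₀ n j hn hj hall
    have hn1 : 1 ≤ n + 1 := by omega
    have hl : 2 * j < 2 ^ (n + 1) := by
      rw [pow_succ]
      omega
    have hr : 2 * j + 1 < 2 ^ (n + 1) := by
      rw [pow_succ]
      omega
    -- a child that is not large
    obtain ⟨k, hk, hkd, E, K, hEK⟩ : ∃ k, k < 2 ^ (n + 1) ∧ Desc n j (n + 1) k ∧
        ∃ (E : Finset I) (K : Finset ℕ), ∀ z, R m z x₀ → z ∉ E → z m ∉ K → z ∉ s (n + 1) k := by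
      obtain ⟨E₁, K₁, h1 | h1⟩ := (hsup _ _ hn1 hl).dich m x₀
      · obtain ⟨E₂, K₂, h2 | h2⟩ := (hsup _ _ hn1 hr).dich m x₀
        · exfalso
          refine out_inf m x₀ (E₁ ∪ E₂) (K₁ ∪ K₂)
            ((hdis (n + 1) (2 * j) (2 * j + 1) hn1 hl hr (by omega)).subset ?_)
          rintro z ⟨hz, hzE, hzK⟩
          rw [Finset.mem_union, not_or] at hzE hzK
          exact ⟨h1 z hz hzE.1 hzK.1, h2 z hz hzE.2 hzK.2⟩
        · exact ⟨_, hr, Desc.refl.right, E₂, K₂, h2⟩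
      · exact ⟨_, hl, Desc.refl.left, E₁, K₁, h1⟩
    -- a descendant that avoids the finitely many exceptional children
    have hind : ∀ K' : Finset ℕ, ∃ n' j', Desc (n + 1) k n' j' ∧
        ∀ c ∈ K', (s n' j' ∩ cone (m + 1) (Function.update x₀ m c)).Finite := by
      intro K'
      induction K' using Finset.induction_on with
      | empty => exact ⟨_, _, Desc.refl, fun c hc => absurd hc (Finset.notMem_empty c)⟩
      | @insert c K' _ ih' =>
        obtain ⟨n', j', hd, hK'⟩ := ih'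
        have hn' : 1 ≤ n' := hn1.trans hd.le
        have hj' : j' < 2 ^ n' := hd.lt hk
        have h1 := ih (m + 1) (by omega) (Function.update x₀ m c) n' j' hn' hj'
        push Not at h1
        obtain ⟨n'', j'', hd', hfin⟩ := h1
        refine ⟨n'', j'', hd.trans hd', fun c' hc' => ?_⟩
        rcases Finset.mem_insert.1 hc' with rfl | hc'
        · exact Set.not_infinite.1 (Set.not_infinite.2 hfin)
        · refine ((hK' c' hc').union (desc_sub hsub hn' hj' hd')).subset fun z hz => ?_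
          by_cases h2 : z ∈ s n' j'
          · exact Or.inl ⟨h2, hz.2⟩
          · exact Or.inr ⟨hz.1, h2⟩
    obtain ⟨n', j', hd, hK⟩ := hind K
    refine hall n' j' (hkd.trans hd) (((E.finite_toSet.union (desc_sub hsub hn1 hk hd)).union
      (K.finite_toSet.biUnion fun c hc => hK c hc)).subset ?_)
    rintro z ⟨hzs, hz⟩
    by_cases hzE : z ∈ E
    · exact Or.inl (Or.inl hzE)
    by_cases hzk : z ∈ s (n + 1) k
    · have hzK : z m ∈ K := by
        by_contra hc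
        exact hEK z hz hzE hc hzk
      refine Or.inr (Set.mem_iUnion₂.2 ⟨z m, Finset.mem_coe.2 hzK, hzs, fun i hi => ?_⟩)
      by_cases him : i = m
      · rw [him, Function.update_self]
      · rw [Function.update_of_ne him]
        exact hz i (by omega)
    · exact Or.inl (Or.inr ⟨hzs, hzk⟩)

end

/-- The set of the atoms is not dyadically filterbase infinite. -/
theorem not_dyad : ¬ DyadInf (ofPD D).N (atoms : U I) := by
  classical
  rintro ⟨v, hv, V, hV, hmain⟩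
  obtain ⟨_, hK, hvx⟩ := supp hv
  obtain ⟨E₀, n₀, F₀, hF₀, rfl⟩ := exists_G hK
  have hfixV : ∀ n i, 1 ≤ n → 1 ≤ i → i ≤ 2 ^ n → ∀ g ∈ G E₀ n₀ F₀, act g (V n i) = V n i := by
    intro n i hn h1 h2 g hg
    have h3 := hvx.mem hg ((hV n i hn h1 h2 (V n i)).2 rfl)
    rw [act_pair, act_pair, act_nat, act_nat] at h3
    exact (hV n i hn h1 h2 _).1 h3
  have hex : ∀ n j, ∃ S, 1 ≤ n → j < 2 ^ n → S ∈ V n (j + 1) := by
    intro n j
    by_cases h : 1 ≤ n ∧ j < 2 ^ n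
    · obtain ⟨S, hS⟩ := (((hmain n h.1).1 (j + 1) (by omega) (by omega)).1).2.1
      exact ⟨S, fun _ _ => hS⟩
    · exact ⟨emp, fun h1 h2 => absurd ⟨h1, h2⟩ h⟩
  choose S hS using hex
  have hVN : ∀ n i, 1 ≤ n → 1 ≤ i → i ≤ 2 ^ n → ∀ Y ∈ V n i, Y ∈ (ofPD D).N ∧ Sub Y atoms := by
    intro n i hn h1 h2 Y hY
    refine ⟨?_, ((((hmain n hn).1 i h1 h2).1).2.2.1 Y hY).1⟩
    have h3 := trans hv ((hV n i hn h1 h2 (V n i)).2 rfl)
    have h4 : up (pair (nat n) (nat i)) (V n i) ∈ (ofPD D).N := trans h3 (mem_up.2 (Or.inr rfl))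
    exact trans (trans h4 (mem_up.2 (Or.inr rfl))) hY
  have hfin : ∀ Y : U I, (∀ z ∈ Y, z ∈ (atoms : U I)) → FinIn (ofPD D).N Y →
      {i : I | atom i ∈ Y}.Finite := by
    intro Y hY hf
    rw [finIn_iff fun z hz => trans atoms_mem (hY z hz)] at hf
    exact Set.Finite.preimage (f := (atom : I → U I)) (fun a _ b _ h => atom_inj h) hf
  set s : ℕ → ℕ → Set I := fun n j => {i | atom i ∈ S n j} with hs
  have hSN : ∀ n j, 1 ≤ n → j < 2 ^ n → S n j ∈ (ofPD D).N ∧ Sub (S n j) atoms := fun n j hn hj =>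
    hVN n (j + 1) hn (by omega) (by omega) _ (hS n j hn hj)
  have hdf : ∀ n i, 1 ≤ n → 1 ≤ i → i ≤ 2 ^ n → ∀ Y ∈ V n i, ∀ Z ∈ V n i,
      {a : I | atom a ∈ Y ∧ ¬ atom a ∈ Z}.Finite := by
    intro n i hn h1 h2 Y hY Z hZ
    have h3 := hfin _ (fun z hz => ((hVN n i hn h1 h2 Y hY).2).2 z (mem_diff.1 hz).1)
      ((hmain n hn).2.1 i h1 h2 Y hY Z hZ)
    exact h3.subset fun a ha => mem_diff.2 ha
  have hsup : ∀ n j, 1 ≤ n → j < 2 ^ n → Supd (s n j) := by
    intro n j hn hj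
    obtain ⟨_, hK', hx⟩ := supp (hSN n j hn hj).1
    obtain ⟨E, m, F, hF, rfl⟩ := exists_G hK'
    refine ⟨E, F, fun a b ha hb hab => ?_⟩
    have h1 := hx.mem_iff (swap_G ha hb hab) (z := atom a)
    rw [act_atom, Equiv.swap_apply_left] at h1
    exact h1.symm
  have hinv : ∀ n j, 1 ≤ n → j < 2 ^ n → ∀ w ∈ W n₀, {i | i ∈ s n j ∧ w i ∉ s n j}.Finite := by
    intro n j hn hj w hw
    obtain ⟨g, hg, hgw⟩ := exists_ae hw E₀ hF₀
    have hg' := (G E₀ n₀ F₀).inv_mem hg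
    have h1 : act g⁻¹ (S n j) ∈ V n (j + 1) := by
      have h2 := act_mem_act (g := g⁻¹).2 (hS n j hn hj)
      rwa [hfixV n (j + 1) hn (by omega) (by omega) _ hg'] at h2
    have h2 := hdf n (j + 1) hn (by omega) (by omega) _ (hS n j hn hj) _ h1
    refine (h2.union hgw).subset ?_
    rintro i ⟨hi, hi'⟩
    by_cases h3 : g i = w i
    · refine Or.inl ⟨hi, fun h4 => hi' ?_⟩
      have h5 := act_mem_act (g := g).2 h4
      rw [act_act_inv, act_atom, h3] at h5
      exact h5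
    · exact Or.inr h3
  have hch : ∀ n i j, 1 ≤ n → i < 2 ^ n → j < 2 ^ n → i ≠ j →
      ((s (n + 1) (2 * i) \ s n i).Finite ∧ (s (n + 1) (2 * i + 1) \ s n i).Finite) ∧
      (s (n + 1) (2 * i) ∩ s n j).Finite ∧ (s (n + 1) (2 * i + 1) ∩ s n j).Finite := by
    intro n i j hn hi hj hij
    obtain ⟨Y, hY, Z, hZ, h1, h2⟩ := (hmain n hn).2.2.1 (i + 1) (j + 1) (by omega) (by omega)
      (by omega) (by omega) (by omega) _ (hS n i hn hi) _ (hS n j hn hj)
    have e1 : 2 * (i + 1) - 1 = 2 * i + 1 := by omega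
    have e2 : 2 * (i + 1) = 2 * i + 1 + 1 := by omega
    rw [e1] at hY
    rw [e2] at hZ
    have hp : (2 : ℕ) ^ (n + 1) = 2 ^ n * 2 := pow_succ 2 n
    have hYa := (hVN (n + 1) (2 * i + 1) (by omega) (by omega) (by omega) Y hY).2
    have hZa := (hVN (n + 1) (2 * i + 1 + 1) (by omega) (by omega) (by omega) Z hZ).2
    have h1' := hfin _ (fun z hz => by
      rcases mem_un.1 (mem_diff.1 hz).1 with h | h
      · exact hYa.2 z h
      · exact hZa.2 z h) h1
    have h2' := hfin _ (fun z hz => by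
      rcases mem_un.1 (mem_int.1 hz).1 with h | h
      · exact hYa.2 z h
      · exact hZa.2 z h) h2
    have h3 := hdf (n + 1) (2 * i + 1) (by omega) (by omega) (by omega) _
      (hS (n + 1) (2 * i) (by omega) (by omega)) Y hY
    have h4 := hdf (n + 1) (2 * i + 1 + 1) (by omega) (by omega) (by omega) _
      (hS (n + 1) (2 * i + 1) (by omega) (by omega)) Z hZ
    refine ⟨⟨?_, ?_⟩, ?_, ?_⟩
    · refine (h3.union h1').subset ?_
      rintro a ⟨ha, ha'⟩
      by_cases h5 : atom a ∈ Y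
      · exact Or.inr (mem_diff.2 ⟨mem_un.2 (Or.inl h5), ha'⟩)
      · exact Or.inl ⟨ha, h5⟩
    · refine (h4.union h1').subset ?_
      rintro a ⟨ha, ha'⟩
      by_cases h5 : atom a ∈ Z
      · exact Or.inr (mem_diff.2 ⟨mem_un.2 (Or.inr h5), ha'⟩)
      · exact Or.inl ⟨ha, h5⟩
    · refine (h3.union h2').subset ?_
      rintro a ⟨ha, ha'⟩
      by_cases h5 : atom a ∈ Y
      · exact Or.inr (mem_int.2 ⟨mem_un.2 (Or.inl h5), ha'⟩)
      · exact Or.inl ⟨ha, h5⟩
    · refine (h4.union h2').subset ?_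
      rintro a ⟨ha, ha'⟩
      by_cases h5 : atom a ∈ Z
      · exact Or.inr (mem_int.2 ⟨mem_un.2 (Or.inr h5), ha'⟩)
      · exact Or.inl ⟨ha, h5⟩
  have hother : ∀ n i, 1 ≤ n → i < 2 ^ n → ∃ j, j < 2 ^ n ∧ i ≠ j := by
    intro n i hn hi
    have h2 : (2 : ℕ) ≤ 2 ^ n := by
      calc (2 : ℕ) = 2 ^ 1 := rfl
        _ ≤ 2 ^ n := Nat.pow_le_pow_right (by norm_num) hn
    by_cases h : i = 0
    · exact ⟨1, by omega, by omega⟩
    · exact ⟨0, by omega, h⟩
  have hsub : ∀ n j, 1 ≤ n → j < 2 ^ n → (s (n + 1) (2 * j) \ s n j).Finite ∧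
      (s (n + 1) (2 * j + 1) \ s n j).Finite := by
    intro n j hn hj
    obtain ⟨k, hk, hjk⟩ := hother n j hn hj
    exact (hch n j k hn hj hk hjk).1
  have hcov : ∀ n, 1 ≤ n → {a : I | ∀ j < 2 ^ n, a ∉ s n j}.Finite := by
    intro n hn
    have h1 := (hmain n hn).2.2.2 (fun i => S n (i - 1)) fun i h1 h2 => by
      have h3 := hS n (i - 1) hn (by omega)
      rwa [show i - 1 + 1 = i by omega] at h3
    refine (hfin _ (fun z hz => (mem_sep.1 hz).1) h1).subset fun a ha => ?_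
    rw [Set.mem_ofPred_eq, mem_sep]
    exact ⟨mem_atoms.2 ⟨a, rfl⟩, fun i h2 h3 h4 => ha (i - 1) (by omega) h4⟩
  have hdis : ∀ n i j, 1 ≤ n → i < 2 ^ n → j < 2 ^ n → i ≠ j → (s n i ∩ s n j).Finite := by
    intro n i j hn hi hj hij
    have hp : (2 : ℕ) ^ (n + 1) = 2 ^ n * 2 := pow_succ 2 n
    have h1 : ∀ k ∈ Finset.range (2 ^ (n + 1)), (s (n + 1) k ∩ (s n i ∩ s n j)).Finite := by
      intro k hk
      rw [Finset.mem_range] at hk
      obtain ⟨l, hl, hkl⟩ : ∃ l, l < 2 ^ n ∧ (k = 2 * l ∨ k = 2 * l + 1) :=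
        ⟨k / 2, by omega, by omega⟩
      have h2 : ∀ j', j' < 2 ^ n → l ≠ j' → (s (n + 1) k ∩ s n j').Finite := by
        intro j' hj' hlj
        rcases hkl with rfl | rfl
        · exact (hch n l j' hn hl hj' hlj).2.1
        · exact (hch n l j' hn hl hj' hlj).2.2
      by_cases hli : l = i
      · refine (h2 j hj (by rw [hli]; exact hij)).subset fun z hz => ⟨hz.1, hz.2.2⟩
      · exact (h2 i hi hli).subset fun z hz => ⟨hz.1, hz.2.1⟩
    refine (((Finset.range (2 ^ (n + 1))).finite_toSet.biUnion h1).union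
      (hcov (n + 1) (by omega))).subset fun z hz => ?_
    by_cases h2 : ∃ k, k < 2 ^ (n + 1) ∧ z ∈ s (n + 1) k
    · obtain ⟨k, hk, hzk⟩ := h2
      exact Or.inl (Set.mem_iUnion₂.2 ⟨k, Finset.mem_coe.2 (Finset.mem_range.2 hk), hzk, hz⟩)
    · exact Or.inr fun k hk hzk => h2 ⟨k, hk, hzk⟩
  have hsinf : ∀ n j, 1 ≤ n → j < 2 ^ n → (s n j).Infinite := by
    intro n j hn hj hf
    have h1 := ((hmain n hn).1 (j + 1) (by omega) (by omega)).2.2 _ (hS n j hn hj)
    rw [finIn_iff fun z hz => trans (hSN n j hn hj).1 hz] at h1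
    refine h1 ((hf.image (atom : I → U I)).subset fun z hz => ?_)
    obtain ⟨a, rfl⟩ := mem_atoms.1 ((hSN n j hn hj).2.2 z hz)
    exact ⟨a, hz, rfl⟩
  refine no_tree hsup hinv hsub hdis n₀ 0 (by omega) (fun _ => 0) 1 0 le_rfl (by norm_num)
    fun n' j' hd => ?_
  refine (hsinf n' j' hd.le (hd.lt (by norm_num))).mono fun z hz => ⟨hz, fun k hk => by omega⟩

/-- There is a permutation model of ISFBI without IDFBI. -/
theorem main : ∃ (A : Type) (N : Set (U A)), IsZFA N ∧ ISFBI N ∧ ¬ IDFBI N :=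
  ⟨I, (ofPD D).N, isZFA _, isfbi, fun h => not_dyad (h _ atoms_mem (isSet_mk _) atoms_inf)⟩

end Pool.Agent.R598.FM.Tr
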