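import Pool.Agent.R598.FM.Tree

/-!
# The permutations that are almost automorphisms of a tree: strongly filterbase infinite sets
-/

set_option autoImplicit false

namespace Pool.Agent.R598.FM.Tr

open U FMS
open Pool.Agent.R598.PM (PD FS mem_FS swap_mem_FS)

open Classical in
/-- The set of the points of a cone outside a finite set. -/
def Cs (E : Finset I) (n : ℕ) (a c₀ : I) : Set I := {c | R n c c₀ ∧ c ∉ E ∧ c ≠ a}

theorem cone_inf (n : ℕ) (c₀ : I) : {c | R n c c₀}.Infinite := by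
  refine Set.infinite_of_injective_forall_mem (f := fun j : ℕ => Function.update c₀ n j) ?_ ?_
  · intro j j' h
    have h1 := congrFun h n
    simpa using h1
  · intro j k hk
    exact Function.update_of_ne (by omega) _ _

theorem cs_inf (E : Finset I) (n : ℕ) (a c₀ : I) : (Cs E n a c₀).Infinite := by
  classical
  refine ((cone_inf n c₀).sdiff (insert a E).finite_toSet).mono fun c hc => ⟨hc.1, fun h => ?_,
    fun h => ?_⟩
  · exact hc.2 (Finset.mem_coe.2 (Finset.mem_insert_of_mem h))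
  · rw [h] at hc
    exact hc.2 (Finset.mem_coe.2 (Finset.mem_insert_self _ _))

/-- The case of an element that is moved. -/
theorem strong_of_moved [DecidableEq I] {X : U I} (hX : X ∈ (ofPD D).N) {E E' : Finset I}
    {n n' : ℕ} {F F' : Finset (ℕ × I)} (hHX : Fx (G E n F) X) {x : U I} (hx : x ∈ X) (hE : E ⊆ E')
    (hn : n ≤ n') (hF : F ⊆ F') (hF' : ∀ t ∈ F', t.1 ≤ n') (hHx : Fx (G E' n' F') x) {a c₀ : I}
    (haE : a ∉ E) (hac : Sm F a c₀)
    (hinj : ∀ c ∈ Cs E' n' a c₀, ∀ c' ∈ Cs E' n' a c₀,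
      act (Equiv.swap a c) x = act (Equiv.swap a c') x → c = c') : StrongInf (ofPD D).N X := by
  set C := Cs E' n' a c₀ with hC
  have hCX : ∀ c ∈ C, act (Equiv.swap a c) x ∈ X := by
    intro c hc
    refine hHX.mem (swap_G haE (fun h => hc.2.1 (hE h)) (hac.trans (Sm.symm ?_))) hx
    exact sm_of_R (fun t ht => hF' t (hF ht)) hc.1
  set H := G (insert a E') (n' + 1) (insert (n', c₀) F') with hH
  have hg : ∀ g ∈ H, g a = a ∧ act g x = x ∧ (∀ c, g c ∈ C ↔ c ∈ C) := by
    intro g hg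
    obtain ⟨h1, h2, h3⟩ := mem_G.1 hg
    have h4 : g a = a := h3 a (Finset.mem_insert_self _ _)
    refine ⟨h4, hHx g (G_mono (Finset.subset_insert _ _) (Nat.le_succ _)
      (Finset.subset_insert _ _) hg), fun c => ?_⟩
    have h5 : R n' (g c) c₀ ↔ R n' c c₀ := h2 (n', c₀) (Finset.mem_insert_self _ _) c
    have h6 : g c ∈ E' ↔ c ∈ E' := by
      constructor
      · intro h
        have h7 := h3 _ (Finset.mem_insert_of_mem h)
        rwa [g.injective h7] at h
      · intro h
        rwa [h3 _ (Finset.mem_insert_of_mem h)]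
    have h7 : g c = a ↔ c = a := by
      constructor
      · intro h
        exact g.injective (h.trans h4.symm)
      · rintro rfl
        exact h4
    change (_ ∧ _ ∧ _) ↔ (_ ∧ _ ∧ _)
    rw [h5, h6, Ne, Ne, h7]
  have hHF : H ∈ (ofPD D).F := G_mem fun t ht => by
    rcases Finset.mem_insert.1 ht with rfl | ht
    · exact Nat.le_succ _
    · exact (hF' t ht).trans (Nat.le_succ _)
  have hHX' : Fx H X := hHX.mono (G_mono (hE.trans (Finset.subset_insert _ _))
    (hn.trans (Nat.le_succ _)) (hF.trans (Finset.subset_insert _ _)))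
  have hcod : ∀ g ∈ H, ∀ y, cod C a x (act g y) = (cod C a x y).map g := fun g hgm y =>
    cod_act hinj (hg g hgm).1 (hg g hgm).2.1 (hg g hgm).2.2 y
  set B : ℕ → U I := fun j => sep (fun y => ∃ c, cod C a x y = some c ∧ c n' = j) X with hB
  have hhalf : ∀ g ∈ H, ∀ j, {z | z ∈ act g (B j) ∧ ¬ z ∈ B j}.Finite := by
    intro g hgm j
    obtain ⟨⟨w, hw, h⟩, -, -⟩ := mem_G.1 hgm
    refine (h.image fun c => act (Equiv.swap a (g c)) x).subset ?_
    rintro z ⟨hz, hz'⟩
    obtain ⟨y, hy, rfl⟩ := mem_act.1 hz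
    obtain ⟨hyX, c, hc, hcj⟩ := mem_sep.1 hy
    have h1 : cod C a x (act g y) = some (g c) := by
      rw [hcod g hgm, hc]
      rfl
    refine ⟨c, fun h2 => hz' (mem_sep.2 ⟨hHX'.mem hgm hyX, g c, h1, ?_⟩), (cod_spec h1).2.symm⟩
    rw [h2, hw.2 c n' (Nat.lt_succ_self _), hcj]
  refine strongInf_of hX hHF hHX' B (fun j => ?_) (fun j => ⟨isSet_mk _, fun z hz =>
    (mem_sep.1 hz).1⟩) (fun j => ?_) (fun i j hij => ?_) fun g hgm j => ⟨hhalf g hgm j, ?_⟩
  · set K := G (insert a E') (n' + 1) (insert (n' + 1, Function.update c₀ n' j)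
      (insert (n', c₀) F')) with hK
    have hKH : K ≤ H := G_mono subset_rfl le_rfl (Finset.subset_insert _ _)
    have hKF : K ∈ (ofPD D).F := G_mem fun t ht => by
      rcases Finset.mem_insert.1 ht with rfl | ht
      · exact le_rfl
      rcases Finset.mem_insert.1 ht with rfl | ht
      · exact Nat.le_succ _
      · exact (hF' t ht).trans (Nat.le_succ _)
    refine sep_mem hX hKF fun g hgm y hy hQ => ⟨hHX'.mem (hKH hgm) hy, ?_⟩
    obtain ⟨c, hc, hcj⟩ := hQ
    refine ⟨g c, by rw [hcod g (hKH hgm), hc]; rfl, ?_⟩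
    have h1 : R (n' + 1) c (Function.update c₀ n' j) := by
      intro k hk
      by_cases hkn : k = n'
      · rw [hkn, Function.update_self, hcj]
      · rw [Function.update_of_ne hkn]
        exact (cod_spec hc).1.1 k (by omega)
    have h2 := ((mem_G.1 hgm).2.1 (n' + 1, Function.update c₀ n' j)
      (Finset.mem_insert_self _ _) c).2 h1
    exact (h2 n' (Nat.lt_succ_self _)).trans (Function.update_self n' j c₀)
  · have h1 := cs_inf E' (n' + 1) a (Function.update c₀ n' j)
    have h2 : ∀ c ∈ Cs E' (n' + 1) a (Function.update c₀ n' j), c ∈ C ∧ c n' = j := by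
      rintro c ⟨hc1, hc2, hc3⟩
      refine ⟨⟨fun k hk => ?_, hc2, hc3⟩, ?_⟩
      · rw [hc1 k (by omega), Function.update_of_ne (by omega)]
      · rw [hc1 n' (Nat.lt_succ_self _), Function.update_self]
    refine (h1.image (f := fun c => act (Equiv.swap a c) x) fun c hc c' hc' he =>
      hinj c (h2 c hc).1 c' (h2 c' hc').1 he).mono ?_
    rintro _ ⟨c, hc, rfl⟩
    exact mem_sep.2 ⟨hCX c (h2 c hc).1, c, cod_eq hinj (h2 c hc).1, (h2 c hc).2⟩
  · refine Set.finite_empty.subset fun z hz => hij ?_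
    obtain ⟨-, c, hc, hci⟩ := mem_sep.1 hz.1
    obtain ⟨-, c', hc', hcj⟩ := mem_sep.1 hz.2
    rw [hc, Option.some.injEq] at hc'
    rw [← hci, hc', hcj]
  · refine ((hhalf g⁻¹ (H.inv_mem hgm) j).image (act g)).subset ?_
    rintro z ⟨hz, hz'⟩
    refine ⟨act g⁻¹ z, ⟨act_mem_act.2 hz, fun h => hz' ?_⟩, act_act_inv g z⟩
    exact mem_act.2 ⟨_, h, (act_act_inv g z).symm⟩

/-- An infinite set with a pointwise fixed infinite subset is mapped onto `ω`. -/
theorem exists_surj' {X : U I} {Y : Set (U I)} {H : Subgroup (Equiv.Perm I)} (hY : Y.Infinite)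
    (hYX : ∀ y ∈ Y, y ∈ X) (hfx : ∀ y ∈ Y, Fx H y) : ∃ f : U I → ℕ,
      (∀ g ∈ H, ∀ x ∈ X, f (act g x) = f x) ∧ ∀ k, ∃ x ∈ X, f x = k := by
  classical
  have hinf' : Infinite {z // z ∈ Y} := hY.to_subtype
  let s : ℕ ↪ {z // z ∈ Y} := Infinite.natEmbedding _
  have hk : ∀ g ∈ H, ∀ x, ∀ k, (s k).1 = act g x ↔ (s k).1 = x := by
    intro g hg x k
    have h1 := hfx _ (s k).2 g hg
    constructor
    · intro h
      have h2 : act g (s k).1 = act g x := h1.trans h
      exact act_inj h2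
    · intro h
      rw [← h, h1]
  have hval : ∀ k, ∀ h : ∃ k', (s k').1 = (s k).1, h.choose = k := fun k h =>
    s.injective (Subtype.ext h.choose_spec)
  refine ⟨fun y => if h : ∃ k, (s k).1 = y then h.choose else 0, fun g hg x hx => ?_, fun k => ?_⟩
  · by_cases h : ∃ k, (s k).1 = x
    · obtain ⟨k, rfl⟩ := h
      rw [hfx _ (s k).2 g hg]
    · have h' : ¬ ∃ k, (s k).1 = act g x := by
        rintro ⟨k, hk'⟩
        exact h ⟨k, (hk g hg x k).1 hk'⟩
      simp only [dif_neg h, dif_neg h']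
  · refine ⟨(s k).1, hYX _ (s k).2, ?_⟩
    have h1 : ∃ k', (s k').1 = (s k).1 := ⟨k, rfl⟩
    simp only [dif_pos h1]
    exact hval k h1

/-- A set with infinitely many orbits is mapped onto `ω`. -/
theorem exists_surj_orb {X : U I} {H : Subgroup (Equiv.Perm I)}
    (hinf : {c : Set (U I) | ∃ x ∈ X, c = {y | ∃ g ∈ H, y = act g x}}.Infinite) :
    ∃ f : U I → ℕ, (∀ g ∈ H, ∀ x ∈ X, f (act g x) = f x) ∧ ∀ k, ∃ x ∈ X, f x = k := by
  classical
  have hinf' : Infinite {c // c ∈ {c : Set (U I) | ∃ x ∈ X, c = {y | ∃ g ∈ H, y = act g x}}} :=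
    hinf.to_subtype
  let s := Infinite.natEmbedding {c // c ∈ {c : Set (U I) | ∃ x ∈ X,
    c = {y | ∃ g ∈ H, y = act g x}}}
  have hcl : ∀ g ∈ H, ∀ x, {y | ∃ g' ∈ H, y = act g' (act g x)} = {y | ∃ g ∈ H, y = act g x} := by
    intro g hg x
    ext y
    constructor
    · rintro ⟨g', hg', rfl⟩
      exact ⟨g' * g, H.mul_mem hg' hg, (act_mul g' g x).symm⟩
    · rintro ⟨g', hg', rfl⟩
      refine ⟨g' * g⁻¹, H.mul_mem hg' (H.inv_mem hg), ?_⟩
      rw [← act_mul, inv_mul_cancel_right]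
  refine ⟨fun x => if h : ∃ k, (s k).1 = {y | ∃ g ∈ H, y = act g x} then h.choose else 0,
    fun g hg x _ => ?_, fun k => ?_⟩
  · simp only [hcl g hg x]
  · obtain ⟨x, hx, hk⟩ := (s k).2
    refine ⟨x, hx, ?_⟩
    have h1 : ∃ k', (s k').1 = {y | ∃ g ∈ H, y = act g x} := ⟨k, hk⟩
    simp only [dif_pos h1]
    exact s.injective (Subtype.ext (h1.choose_spec.trans hk.symm))

/-- Every infinite set is strongly filterbase infinite. -/
theorem isfbi : ISFBI (ofPD D).N := by
  classical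
  intro X hX hXs hinf
  rw [finIn_iff fun z hz => trans hX hz] at hinf
  obtain ⟨_, hK, hHX⟩ := supp hX
  obtain ⟨E, n, F, hF, rfl⟩ := exists_G hK
  by_contra hns
  have hGF : ∀ m, n ≤ m → G E m F ∈ (ofPD D).F := fun m hm =>
    G_mem fun t ht => (hF t ht).trans hm
  -- the elements are fixed by the finitely supported permutations
  have hcf : ∀ x ∈ X, ∃ m, n ≤ m ∧ Fx (G E m F) x := by
    intro x hx
    obtain ⟨_, hK', hHx₀⟩ := supp (trans hX hx)
    obtain ⟨E₁, n₁, F₁, hF₁, rfl⟩ := exists_G hK'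
    set E' := E ∪ E₁ with hE'
    set F' := F ∪ F₁ with hF'd
    set n' := max n n₁ with hn'
    have hE : E ⊆ E' := Finset.subset_union_left
    have hFF : F ⊆ F' := Finset.subset_union_left
    have hn : n ≤ n' := le_max_left _ _
    have hF' : ∀ t ∈ F', t.1 ≤ n' := by
      intro t ht
      rcases Finset.mem_union.1 ht with h | h
      · exact (hF t h).trans (le_max_left _ _)
      · exact (hF₁ t h).trans (le_max_right _ _)
    have hHx : Fx (G E' n' F') x := hHx₀.mono (G_mono Finset.subset_union_right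
      (le_max_right _ _) Finset.subset_union_right)
    have h1 : ∀ a c₀ : I, a ∉ E → Sm F a c₀ →
        {d | d ∈ Cs E' n' a c₀ ∧ act (Equiv.swap a d) x ≠ x}.Finite := by
      intro a c₀ ha hac
      by_cases hinj : ∀ c ∈ Cs E' n' a c₀, ∀ c' ∈ Cs E' n' a c₀,
        act (Equiv.swap a c) x = act (Equiv.swap a c') x → c = c'
      · exact absurd (strong_of_moved hX hHX hx hE hn hFF hF' hHx ha hac hinj) hns
      · push Not at hinj
        obtain ⟨c, hc, c', hc', he, hcc⟩ := hinj
        refine (Set.toFinite {c, c'}).subset fun d hd => ?_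
        by_contra hdc
        rw [Set.mem_insert_iff, Set.mem_singleton_iff, not_or] at hdc
        refine hd.2 (swap_fix hHx (C := Cs E' n' a c₀) (fun u hu v hv => ?_) hc hc'
          (fun h => h.2.2 rfl) hcc he hd.1 hdc.1 hdc.2)
        exact swap_G hu.2.1 hv.2.1 (sm_of_R hF' (hu.1.trans hv.1.symm))
    have h2 : ∀ a b : I, a ∉ E → b ∉ E → Sm F a b → a ≠ b → act (Equiv.swap a b) x = x := by
      intro a b ha hb hab hne
      have h3 := (h1 a b ha hab).union (h1 b b hb fun t _ => Iff.rfl)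
      have h4 := (cone_inf n' b).sdiff ((h3.union E'.finite_toSet).union (Set.toFinite {a, b}))
      obtain ⟨d, hd, hd'⟩ := h4.nonempty
      rw [Set.mem_union, Set.mem_union, Set.mem_union, not_or, not_or, not_or,
        Set.mem_insert_iff, Set.mem_singleton_iff, not_or] at hd'
      obtain ⟨⟨⟨h5, h6⟩, h7⟩, h8, h9⟩ := hd'
      have h7' : d ∉ E' := fun h => h7 (Finset.mem_coe.2 h)
      refine swap_fix2 hne (Ne.symm h9) ?_ ?_
      · by_contra hc
        exact h5 ⟨⟨hd, h7', h8⟩, hc⟩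
      · by_contra hc
        exact h6 ⟨⟨hd, h7', h9⟩, hc⟩
    refine ⟨n', hn, class_fix hE hFF hF' hHx h2⟩
  by_cases horb : {c : Set (U I) | ∃ x ∈ X, c = {y | ∃ g ∈ G E n F, y = act g x}}.Infinite
  · obtain ⟨f, hf, hf'⟩ := exists_surj_orb horb
    exact hns (strongInf_of_surj hX (hGF n le_rfl) hHX f hf hf')
  · rw [Set.not_infinite] at horb
    have h1 : ∃ x ∈ X, {y | ∃ g ∈ G E n F, y = act g x}.Infinite := by
      by_contra hc
      push Not at hc
      refine hinf ((horb.biUnion (t := fun c => c) fun c hcc => ?_).subset fun x hx => ?_)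
      · obtain ⟨x, hx, rfl⟩ := hcc
        exact Set.not_infinite.1 (Set.not_infinite.2 (hc x hx))
      · exact Set.mem_iUnion₂.2 ⟨_, ⟨x, hx, rfl⟩, 1, (G E n F).one_mem, (act_one x).symm⟩
    obtain ⟨x, hx, hxi⟩ := h1
    obtain ⟨m, hm, hfx⟩ := hcf x hx
    have hGG : G E m F ≤ G E n F := G_mono subset_rfl hm subset_rfl
    obtain ⟨f, hf, hf'⟩ := exists_surj' (X := X) (H := G E m F) hxi
      (by
        rintro y ⟨g, hg, rfl⟩
        exact hHX.mem hg hx)
      (by
        rintro y ⟨g, hg, rfl⟩ k hk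
        have h2 : g⁻¹ * k * g ∈ G E m F := by
          obtain ⟨h3, h4, h5⟩ := mem_G.1 hk
          obtain ⟨h6, h7, h8⟩ := mem_G.1 hg
          refine mem_G.2 ⟨Hn_conj (Hn_mono (Nat.zero_le n) h6) h3,
            (Pres F).mul_mem ((Pres F).mul_mem ((Pres F).inv_mem h7) h4) h7, fun i hi => ?_⟩
          change g.symm (k (g i)) = i
          rw [h8 i hi, h5 i hi, Equiv.symm_apply_eq, h8 i hi]
        have h3 := hfx _ h2
        rw [act_mul, act_mul] at h3
        have h4 := congrArg (act g) h3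
        rwa [act_act_inv] at h4)
    exact hns (strongInf_of_surj hX (hGF m hm) (hHX.mono hGG) f hf hf')

end Pool.Agent.R598.FM.Tr
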