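import Mathlib

/-!
# The cumulative hierarchy over a set of atoms
-/

set_option autoImplicit false

namespace Pool.Agent.R598.FM

/-- The codes of the sets over the atoms from `A`: an atom, or a set given by a family of codes. -/
inductive Pre (A : Type) : Type 1
  | atom (a : A) : Pre A
  | mk (ι : Type) (f : ι → Pre A) : Pre A

namespace Pre

variable {A : Type}

/-- Two codes give the same atom or the same set. -/
def Eqv : Pre A → Pre A → Prop
  | atom a, atom b => a = b
  | mk _ f, mk _ g => (∀ i, ∃ j, Eqv (f i) (g j)) ∧ ∀ j, ∃ i, Eqv (f i) (g j)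
  | atom _, mk _ _ => False
  | mk _ _, atom _ => False

theorem eqv_refl (x : Pre A) : Eqv x x := by
  induction x with
  | atom a => exact rfl
  | mk ι f ih => exact ⟨fun i => ⟨i, ih i⟩, fun i => ⟨i, ih i⟩⟩

theorem eqv_symm {x : Pre A} : ∀ {y : Pre A}, Eqv x y → Eqv y x := by
  induction x with
  | atom a =>
    intro y h
    cases y with
    | atom b => exact Eq.symm h
    | mk κ g => exact h
  | mk ι f ih =>
    intro y h
    cases y with
    | atom b => exact h
    | mk κ g =>
      refine ⟨fun j => ?_, fun i => ?_⟩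
      · obtain ⟨i, hi⟩ := h.2 j
        exact ⟨i, ih i hi⟩
      · obtain ⟨j, hj⟩ := h.1 i
        exact ⟨j, ih i hj⟩

theorem eqv_trans {x : Pre A} : ∀ {y z : Pre A}, Eqv x y → Eqv y z → Eqv x z := by
  induction x with
  | atom a =>
    intro y z h h'
    cases y with
    | atom b =>
      cases z with
      | atom c => exact Eq.trans h h'
      | mk κ g => exact h'
    | mk κ g => exact h.elim
  | mk ι f ih =>
    intro y z h h'
    cases y with
    | atom b => exact h.elim
    | mk κ g =>
      cases z with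
      | atom c => exact h'
      | mk μ k =>
        refine ⟨fun i => ?_, fun l => ?_⟩
        · obtain ⟨j, hj⟩ := h.1 i
          obtain ⟨l, hl⟩ := h'.1 j
          exact ⟨l, ih i hj hl⟩
        · obtain ⟨j, hj⟩ := h'.2 l
          obtain ⟨i, hi⟩ := h.2 j
          exact ⟨i, ih i hi hj⟩

/-- The code `x` gives an element of the set given by the second code. -/
def Mem (x : Pre A) : Pre A → Prop
  | atom _ => False
  | mk _ f => ∃ i, Eqv x (f i)

theorem mem_congr {x x' y y' : Pre A} (h : Eqv x x') (h' : Eqv y y') : Mem x y → Mem x' y' := by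
  intro hm
  cases y with
  | atom b => exact hm.elim
  | mk κ g =>
    cases y' with
    | atom c => exact h'.elim
    | mk μ k =>
      obtain ⟨j, hj⟩ := hm
      obtain ⟨l, hl⟩ := h'.1 j
      exact ⟨l, eqv_trans (eqv_symm h) (eqv_trans hj hl)⟩

/-- The action of the permutations of the atoms. -/
def act (g : Equiv.Perm A) : Pre A → Pre A
  | atom a => atom (g a)
  | mk ι f => mk ι fun i => act g (f i)

theorem act_congr (g : Equiv.Perm A) {x : Pre A} : ∀ {y : Pre A}, Eqv x y →
    Eqv (act g x) (act g y) := by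
  induction x with
  | atom a =>
    intro y h
    cases y with
    | atom b => exact congrArg g h
    | mk κ k => exact h.elim
  | mk ι f ih =>
    intro y h
    cases y with
    | atom b => exact h.elim
    | mk κ k =>
      refine ⟨fun i => ?_, fun j => ?_⟩
      · obtain ⟨j, hj⟩ := h.1 i
        exact ⟨j, ih i hj⟩
      · obtain ⟨i, hi⟩ := h.2 j
        exact ⟨i, ih i hi⟩

instance setoid (A : Type) : Setoid (Pre A) := ⟨Eqv, eqv_refl, eqv_symm, eqv_trans⟩

end Pre

/-- The class of all atoms and sets over the atoms from `A`. -/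
def U (A : Type) : Type 1 := Quotient (Pre.setoid A)

namespace U

variable {A : Type}

/-- The atom `a`. -/
def atom (a : A) : U A := Quotient.mk _ (.atom a)

/-- The set of the values of `f`. -/
noncomputable def mk {ι : Type} (f : ι → U A) : U A := Quotient.mk _ (.mk ι fun i => (f i).out)

instance : Membership (U A) (U A) :=
  ⟨fun y x => Quotient.liftOn₂ x y Pre.Mem fun _ _ _ _ h h' =>
    propext ⟨Pre.mem_congr h h', Pre.mem_congr (Pre.eqv_symm h) (Pre.eqv_symm h')⟩⟩

/-- The element given by a code. -/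
def of (x : Pre A) : U A := Quotient.mk _ x

theorem ind {p : U A → Prop} (h : ∀ x : Pre A, p (of x)) (x : U A) : p x :=
  Quotient.inductionOn x h

theorem of_out (x : U A) : of x.out = x := Quotient.out_eq x

theorem of_eq {x y : Pre A} : of x = of y ↔ Pre.Eqv x y := ⟨fun h => Quotient.exact h,
  fun h => Quotient.sound h⟩

theorem mem_def {x y : Pre A} : of x ∈ of y ↔ Pre.Mem x y := Iff.rfl

theorem notMem_atom {a : A} {x : U A} : ¬ x ∈ atom a := by
  induction x using U.ind with
  | h x => exact fun h => h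

theorem mem_mk {ι : Type} {f : ι → U A} {x : U A} : x ∈ mk f ↔ ∃ i, x = f i := by
  induction x using U.ind with
  | h x =>
    constructor
    · rintro ⟨i, hi⟩
      refine ⟨i, ?_⟩
      rw [← of_out (f i)]
      exact of_eq.2 hi
    · rintro ⟨i, hi⟩
      refine ⟨i, ?_⟩
      rw [← of_out (f i)] at hi
      exact of_eq.1 hi

theorem atom_inj {a b : A} (h : atom a = atom b) : a = b := Quotient.exact h

theorem atom_ne_mk {a : A} {ι : Type} {f : ι → U A} : atom a ≠ mk f := fun h => Quotient.exact h

/-- The element is a set, that is, not an atom. -/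
def IsSet (x : U A) : Prop := ∀ a, x ≠ atom a

theorem isSet_mk {ι : Type} (f : ι → U A) : IsSet (mk f) := fun _ h => atom_ne_mk h.symm

theorem exists_idx (x : U A) : ∃ (ι : Type) (f : ι → U A), ∀ z, z ∈ x ↔ ∃ i, z = f i := by
  induction x using U.ind with
  | h x =>
    cases x with
    | atom a => exact ⟨Empty, fun e => e.elim, fun z => ⟨fun h => (notMem_atom h).elim,
        fun ⟨e, _⟩ => e.elim⟩⟩
    | mk ι f =>
      refine ⟨ι, fun i => of (f i), fun z => ?_⟩
      induction z using U.ind with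
      | h z =>
        constructor
        · rintro ⟨i, hi⟩
          exact ⟨i, of_eq.2 hi⟩
        · rintro ⟨i, hi⟩
          exact ⟨i, of_eq.1 hi⟩

theorem ext {x y : U A} (hx : IsSet x) (hy : IsSet y) (h : ∀ z, z ∈ x ↔ z ∈ y) : x = y := by
  induction x using U.ind with
  | h x =>
    induction y using U.ind with
    | h y =>
      cases x with
      | atom a => exact absurd rfl (hx a)
      | mk ι f =>
        cases y with
        | atom b => exact absurd rfl (hy b)
        | mk κ g =>
          refine of_eq.2 ⟨fun i => ?_, fun j => ?_⟩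
          · exact (h (of (f i))).1 ⟨i, Pre.eqv_refl _⟩
          · obtain ⟨i, hi⟩ := (h (of (g j))).2 ⟨j, Pre.eqv_refl _⟩
            exact ⟨i, Pre.eqv_symm hi⟩

theorem induction {p : U A → Prop} (h : ∀ x, (∀ y ∈ x, p y) → p x) (x : U A) : p x := by
  induction x using U.ind with
  | h x =>
    induction x with
    | atom a => exact h _ fun y hy => (notMem_atom hy).elim
    | mk ι f ih =>
      refine h _ fun y hy => ?_
      induction y using U.ind with
      | h y =>
        obtain ⟨i, hi⟩ := hy
        rw [of_eq.2 hi]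
        exact ih i

/-- The index type of the set. -/
def Idx (x : U A) : Type := (exists_idx x).choose

/-- The elements of the set. -/
noncomputable def el (x : U A) : Idx x → U A := (exists_idx x).choose_spec.choose

theorem mem_iff {x z : U A} : z ∈ x ↔ ∃ i, z = el x i := (exists_idx x).choose_spec.choose_spec z

theorem el_mem (x : U A) (i : Idx x) : el x i ∈ x := mem_iff.2 ⟨i, rfl⟩

theorem eq_mk {x : U A} (hx : IsSet x) : x = mk (el x) :=
  ext hx (isSet_mk _) fun z => by rw [mem_iff, mem_mk]

theorem isSet_of_mem {x y : U A} (h : x ∈ y) : IsSet y := fun _ h' => notMem_atom (h' ▸ h)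

/-! ### Basic operations -/

/-- The subset given by `Q`. -/
noncomputable def sep (Q : U A → Prop) (x : U A) : U A :=
  mk fun i : {i : Idx x // Q (el x i)} => el x i.1

theorem mem_sep {Q : U A → Prop} {x z : U A} : z ∈ sep Q x ↔ z ∈ x ∧ Q z := by
  rw [sep, mem_mk, mem_iff]
  constructor
  · rintro ⟨⟨i, hi⟩, rfl⟩
    exact ⟨⟨i, rfl⟩, hi⟩
  · rintro ⟨⟨i, rfl⟩, hi⟩
    exact ⟨⟨i, hi⟩, rfl⟩

/-- The image. -/
noncomputable def ims (F : U A → U A) (x : U A) : U A := mk fun i : Idx x => F (el x i)

theorem mem_ims {F : U A → U A} {x z : U A} : z ∈ ims F x ↔ ∃ y ∈ x, z = F y := by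
  rw [ims, mem_mk]
  constructor
  · rintro ⟨i, rfl⟩
    exact ⟨_, el_mem x i, rfl⟩
  · rintro ⟨y, hy, rfl⟩
    obtain ⟨i, rfl⟩ := mem_iff.1 hy
    exact ⟨i, rfl⟩

/-- The empty set. -/
noncomputable def emp : U A := mk fun e : Empty => e.elim

theorem notMem_emp {x : U A} : ¬ x ∈ (emp : U A) := by
  rw [emp, mem_mk]
  rintro ⟨e, -⟩
  exact e.elim

/-- The set with at most two elements `x` and `y`. -/
noncomputable def up (x y : U A) : U A := mk fun b : Bool => if b then x else y

theorem mem_up {x y z : U A} : z ∈ up x y ↔ z = x ∨ z = y := by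
  rw [up, mem_mk]
  constructor
  · rintro ⟨b, rfl⟩
    cases b
    · exact Or.inr rfl
    · exact Or.inl rfl
  · rintro (rfl | rfl)
    · exact ⟨true, rfl⟩
    · exact ⟨false, rfl⟩

/-- The ordered pair. -/
noncomputable def pair (x y : U A) : U A := up (up x x) (up x y)

theorem up_eq_single {x y z : U A} (h : up x y = up z z) : x = z ∧ y = z := by
  have h1 : x ∈ up z z := h ▸ mem_up.2 (Or.inl rfl)
  have h2 : y ∈ up z z := h ▸ mem_up.2 (Or.inr rfl)
  rw [mem_up, or_self] at h1 h2
  exact ⟨h1, h2⟩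

theorem pair_inj {x y x' y' : U A} : pair x y = pair x' y' ↔ x = x' ∧ y = y' := by
  constructor
  · intro h
    have h1 : up x x ∈ pair x' y' := h ▸ mem_up.2 (Or.inl rfl)
    have h2 : up x y ∈ pair x' y' := h ▸ mem_up.2 (Or.inr rfl)
    have h3 : up x' y' ∈ pair x y := h ▸ mem_up.2 (Or.inr rfl)
    have hx : x = x' := by
      rcases mem_up.1 h1 with h4 | h4
      · exact (up_eq_single h4).1
      · exact (up_eq_single h4.symm).1.symm
    subst hx
    refine ⟨rfl, ?_⟩
    rcases mem_up.1 h2 with h4 | h4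
    · have hy := (up_eq_single h4).2
      subst hy
      rcases mem_up.1 h3 with h5 | h5
      · exact (up_eq_single h5).2.symm
      · exact (up_eq_single h5).2.symm
    · have h5 : y ∈ up x y' := h4 ▸ mem_up.2 (Or.inr rfl)
      rcases mem_up.1 h5 with h6 | h6
      · subst h6
        exact (up_eq_single h4.symm).2.symm
      · exact h6
  · rintro ⟨rfl, rfl⟩
    rfl

/-- The union. -/
noncomputable def sUn (x : U A) : U A := mk fun t : Σ i : Idx x, Idx (el x i) => el (el x t.1) t.2

theorem mem_sUn {x z : U A} : z ∈ sUn x ↔ ∃ y ∈ x, z ∈ y := by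
  rw [sUn, mem_mk]
  constructor
  · rintro ⟨⟨i, j⟩, rfl⟩
    exact ⟨_, el_mem x i, el_mem _ j⟩
  · rintro ⟨y, hy, hz⟩
    obtain ⟨i, rfl⟩ := mem_iff.1 hy
    obtain ⟨j, rfl⟩ := mem_iff.1 hz
    exact ⟨⟨i, j⟩, rfl⟩

/-- The element is a subset of `y`. -/
def Sub (x y : U A) : Prop := IsSet x ∧ ∀ z ∈ x, z ∈ y

/-- The power set. -/
noncomputable def pow (x : U A) : U A :=
  mk fun s : Set (Idx x) => mk fun i : s => el x i.1

theorem mem_pow {x z : U A} : z ∈ pow x ↔ Sub z x := by
  rw [pow, mem_mk]
  constructor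
  · rintro ⟨s, rfl⟩
    refine ⟨isSet_mk _, fun w hw => ?_⟩
    obtain ⟨i, rfl⟩ := mem_mk.1 hw
    exact el_mem x i.1
  · rintro ⟨hz, hzx⟩
    refine ⟨{i | el x i ∈ z}, ext hz (isSet_mk _) fun w => ?_⟩
    rw [mem_mk]
    constructor
    · intro hw
      obtain ⟨i, rfl⟩ := mem_iff.1 (hzx w hw)
      exact ⟨⟨i, hw⟩, rfl⟩
    · rintro ⟨⟨i, hi⟩, rfl⟩
      exact hi

/-- The union of two sets. -/
noncomputable def un (x y : U A) : U A := sUn (up x y)

theorem mem_un {x y z : U A} : z ∈ un x y ↔ z ∈ x ∨ z ∈ y := by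
  rw [un, mem_sUn]
  constructor
  · rintro ⟨w, hw, hz⟩
    rcases mem_up.1 hw with rfl | rfl
    · exact Or.inl hz
    · exact Or.inr hz
  · rintro (h | h)
    · exact ⟨x, mem_up.2 (Or.inl rfl), h⟩
    · exact ⟨y, mem_up.2 (Or.inr rfl), h⟩

/-- The intersection of two sets. -/
noncomputable def int (x y : U A) : U A := sep (fun z => z ∈ y) x

theorem mem_int {x y z : U A} : z ∈ int x y ↔ z ∈ x ∧ z ∈ y := mem_sep

/-- The difference of two sets. -/
noncomputable def diff (x y : U A) : U A := sep (fun z => ¬ z ∈ y) x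

theorem mem_diff {x y z : U A} : z ∈ diff x y ↔ z ∈ x ∧ ¬ z ∈ y := mem_sep

/-- The natural numbers as sets: `0 = ∅` and `n + 1 = n ∪ {n}`. -/
noncomputable def nat : ℕ → U A
  | 0 => emp
  | n + 1 => un (nat n) (up (nat n) (nat n))

theorem mem_nat {n : ℕ} {z : U A} : z ∈ (nat n : U A) ↔ ∃ m < n, z = nat m := by
  induction n with
  | zero =>
    constructor
    · intro h
      exact (notMem_emp h).elim
    · rintro ⟨m, hm, -⟩
      omega
  | succ n ih =>
    change z ∈ un (nat n) (up (nat n) (nat n)) ↔ _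
    rw [mem_un, ih, mem_up, or_self]
    constructor
    · rintro (⟨m, hm, rfl⟩ | rfl)
      · exact ⟨m, by omega, rfl⟩
      · exact ⟨n, by omega, rfl⟩
    · rintro ⟨m, hm, rfl⟩
      by_cases h : m = n
      · exact Or.inr (by rw [h])
      · exact Or.inl ⟨m, by omega, rfl⟩

theorem not_mem_self (x : U A) : ¬ x ∈ x := by
  induction x using U.induction with
  | h x ih => exact fun h => ih x h h

theorem nat_inj {n m : ℕ} (h : (nat n : U A) = nat m) : n = m := by
  by_contra hnm
  rcases Nat.lt_or_gt_of_ne hnm with h1 | h1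
  · have h2 : (nat n : U A) ∈ nat m := mem_nat.2 ⟨n, h1, rfl⟩
    rw [h] at h2
    exact not_mem_self _ h2
  · have h2 : (nat m : U A) ∈ nat n := mem_nat.2 ⟨m, h1, rfl⟩
    rw [h] at h2
    exact not_mem_self _ h2

theorem isSet_nat (n : ℕ) : IsSet (nat n : U A) := by
  cases n with
  | zero => exact isSet_mk _
  | succ n => exact isSet_mk _

/-- The set of the natural numbers. -/
noncomputable def omega : U A := mk nat

theorem mem_omega {z : U A} : z ∈ (omega : U A) ↔ ∃ n, z = nat n := mem_mk

/-- The set of all atoms. -/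
noncomputable def atoms : U A := mk atom

theorem mem_atoms {z : U A} : z ∈ (atoms : U A) ↔ ∃ a, z = atom a := mem_mk

/-! ### The action of the permutations of the atoms -/

/-- The action of the permutations of the atoms. -/
def act (g : Equiv.Perm A) (x : U A) : U A :=
  Quotient.liftOn x (fun x => of (Pre.act g x)) fun _ _ h => of_eq.2 (Pre.act_congr g h)

theorem act_atom (g : Equiv.Perm A) (a : A) : act g (atom a) = atom (g a) := rfl

theorem isSet_act {g : Equiv.Perm A} {x : U A} (hx : IsSet x) : IsSet (act g x) := by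
  induction x using U.ind with
  | h x =>
    cases x with
    | atom a => exact absurd rfl (hx a)
    | mk ι f =>
      intro a h
      exact of_eq.1 h

theorem act_mk {g : Equiv.Perm A} {ι : Type} (f : ι → U A) :
    act g (mk f) = mk fun i => act g (f i) := by
  refine ext (isSet_act (isSet_mk f)) (isSet_mk _) fun z => ?_
  induction z using U.ind with
  | h z =>
    rw [mem_mk]
    constructor
    · rintro ⟨i, hi⟩
      refine ⟨i, ?_⟩
      rw [← of_out (f i)]
      exact of_eq.2 hi
    · rintro ⟨i, hi⟩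
      refine ⟨i, ?_⟩
      rw [← of_out (f i)] at hi
      exact of_eq.1 hi

theorem act_atomlike {g : Equiv.Perm A} {x : U A} (hx : ¬ IsSet x) : ∃ a, x = atom a ∧
    act g x = atom (g a) := by
  unfold IsSet at hx
  push Not at hx
  obtain ⟨a, rfl⟩ := hx
  exact ⟨a, rfl, rfl⟩

theorem mem_act {g : Equiv.Perm A} {x z : U A} : z ∈ act g x ↔ ∃ y ∈ x, z = act g y := by
  by_cases hx : IsSet x
  · rw [eq_mk hx, act_mk, mem_mk]
    constructor
    · rintro ⟨i, rfl⟩
      exact ⟨_, mem_mk.2 ⟨i, rfl⟩, rfl⟩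
    · rintro ⟨y, hy, rfl⟩
      obtain ⟨i, rfl⟩ := mem_mk.1 hy
      exact ⟨i, rfl⟩
  · obtain ⟨a, rfl, h⟩ := act_atomlike (g := g) hx
    rw [h]
    constructor
    · exact fun h => (notMem_atom h).elim
    · rintro ⟨y, hy, -⟩
      exact (notMem_atom hy).elim

theorem act_one (x : U A) : act 1 x = x := by
  induction x using U.induction with
  | h x ih =>
    by_cases hx : IsSet x
    · refine ext (isSet_act hx) hx fun z => ?_
      rw [mem_act]
      constructor
      · rintro ⟨y, hy, rfl⟩
        rwa [ih y hy]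
      · exact fun h => ⟨z, h, (ih z h).symm⟩
    · obtain ⟨a, rfl, h⟩ := act_atomlike (g := (1 : Equiv.Perm A)) hx
      exact h

theorem act_mul (g h : Equiv.Perm A) (x : U A) : act (g * h) x = act g (act h x) := by
  induction x using U.induction with
  | h x ih =>
    by_cases hx : IsSet x
    · refine ext (isSet_act hx) (isSet_act (isSet_act hx)) fun z => ?_
      rw [mem_act, mem_act]
      constructor
      · rintro ⟨y, hy, rfl⟩
        exact ⟨_, mem_act.2 ⟨y, hy, rfl⟩, ih y hy⟩
      · rintro ⟨w, hw, rfl⟩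
        obtain ⟨y, hy, rfl⟩ := mem_act.1 hw
        exact ⟨y, hy, (ih y hy).symm⟩
    · obtain ⟨a, rfl, h1⟩ := act_atomlike (g := g * h) hx
      rw [h1]
      rfl

theorem act_inv_act (g : Equiv.Perm A) (x : U A) : act g⁻¹ (act g x) = x := by
  rw [← act_mul, inv_mul_cancel, act_one]

theorem act_act_inv (g : Equiv.Perm A) (x : U A) : act g (act g⁻¹ x) = x := by
  rw [← act_mul, mul_inv_cancel, act_one]

theorem act_inj {g : Equiv.Perm A} {x y : U A} (h : act g x = act g y) : x = y := by
  rw [← act_inv_act g x, h, act_inv_act]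

theorem act_mem_act {g : Equiv.Perm A} {x y : U A} : act g x ∈ act g y ↔ x ∈ y := by
  rw [mem_act]
  constructor
  · rintro ⟨z, hz, h⟩
    rwa [act_inj h]
  · exact fun h => ⟨x, h, rfl⟩

theorem isSet_act_iff {g : Equiv.Perm A} {x : U A} : IsSet (act g x) ↔ IsSet x := by
  refine ⟨fun h => ?_, isSet_act⟩
  have h1 := isSet_act (g := g⁻¹) h
  rwa [act_inv_act] at h1

theorem act_up (g : Equiv.Perm A) (x y : U A) : act g (up x y) = up (act g x) (act g y) := by
  unfold up
  rw [act_mk]
  congr 1
  funext b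
  cases b <;> rfl

theorem act_pair (g : Equiv.Perm A) (x y : U A) : act g (pair x y) = pair (act g x) (act g y) := by
  unfold pair
  rw [act_up, act_up, act_up]

theorem act_emp (g : Equiv.Perm A) : act g (emp : U A) = emp := by
  unfold emp
  rw [act_mk]
  congr 1
  funext e
  exact e.elim

theorem act_sUn (g : Equiv.Perm A) (x : U A) : act g (sUn x) = sUn (act g x) := by
  refine ext (isSet_act (isSet_mk _)) (isSet_mk _) fun z => ?_
  rw [mem_act, mem_sUn]
  constructor
  · rintro ⟨y, hy, rfl⟩
    obtain ⟨w, hw, hy⟩ := mem_sUn.1 hy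
    exact ⟨_, act_mem_act.2 hw, act_mem_act.2 hy⟩
  · rintro ⟨w, hw, hz⟩
    obtain ⟨y, hy, rfl⟩ := mem_act.1 hw
    obtain ⟨v, hv, rfl⟩ := mem_act.1 hz
    exact ⟨v, mem_sUn.2 ⟨y, hy, hv⟩, rfl⟩

theorem act_un (g : Equiv.Perm A) (x y : U A) : act g (un x y) = un (act g x) (act g y) := by
  unfold un
  rw [act_sUn, act_up]

theorem act_nat (g : Equiv.Perm A) (n : ℕ) : act g (nat n : U A) = nat n := by
  induction n with
  | zero => exact act_emp g
  | succ n ih =>
    change act g (un (nat n) (up (nat n) (nat n))) = un (nat n) (up (nat n) (nat n))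
    rw [act_un, act_up, ih]

theorem act_sep {g : Equiv.Perm A} {Q : U A → Prop} {x : U A} :
    act g (sep Q x) = sep (fun z => Q (act g⁻¹ z)) (act g x) := by
  refine ext (isSet_act (isSet_mk _)) (isSet_mk _) fun z => ?_
  rw [mem_act, mem_sep]
  constructor
  · rintro ⟨y, hy, rfl⟩
    obtain ⟨hy, hQ⟩ := mem_sep.1 hy
    exact ⟨act_mem_act.2 hy, by rwa [act_inv_act]⟩
  · rintro ⟨hz, hQ⟩
    obtain ⟨y, hy, rfl⟩ := mem_act.1 hz
    rw [act_inv_act] at hQ
    exact ⟨y, mem_sep.2 ⟨hy, hQ⟩, rfl⟩

/-- A set is fixed by a permutation if it is closed under the permutation and its inverse. -/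
theorem act_eq_self {g : Equiv.Perm A} {x : U A} (hx : IsSet x) (h : ∀ z ∈ x, act g z ∈ x)
    (h' : ∀ z ∈ x, act g⁻¹ z ∈ x) : act g x = x := by
  refine ext (isSet_act hx) hx fun z => ?_
  rw [mem_act]
  constructor
  · rintro ⟨y, hy, rfl⟩
    exact h y hy
  · exact fun hz => ⟨_, h' z hz, (act_act_inv g z).symm⟩

end U

end Pool.Agent.R598.FM
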